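import Pool.Agent.helper77.Bludov.Basic

/-!
# Noetherianity of group rings (Hilbert basis theorem, P. Hall)
-/

namespace Bludov

section step
variable {G : Type*} [Group G]

/-- polynomials of degree smaller than `n` in `x` with coefficients in `suppAlg T`
(coefficients on the right). -/
def Dg (T : Submonoid G) (x : G) (n : ℕ) (f : RA G) : Prop :=
  ∃ a : ℕ → RA G, (∀ i, a i ∈ suppAlg T) ∧ f = ∑ i ∈ Finset.range n, gel (x ^ i) * a i

variable {T : Submonoid G} {x : G}

theorem Dg.add {n : ℕ} {f g : RA G} (hf : Dg T x n f) (hg : Dg T x n g) : Dg T x n (f + g) := by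
  obtain ⟨a, ha, rfl⟩ := hf
  obtain ⟨b, hb, rfl⟩ := hg
  refine ⟨fun i => a i + b i, fun i => (suppAlg T).add_mem (ha i) (hb i), ?_⟩
  rw [← Finset.sum_add_distrib]
  exact Finset.sum_congr rfl fun i _ => (mul_add _ _ _).symm

theorem Dg.neg {n : ℕ} {f : RA G} (hf : Dg T x n f) : Dg T x n (-f) := by
  obtain ⟨a, ha, rfl⟩ := hf
  refine ⟨fun i => -a i, fun i => (suppAlg T).neg_mem (ha i), ?_⟩
  rw [← Finset.sum_neg_distrib]
  exact Finset.sum_congr rfl fun i _ => (mul_neg _ _).symm

theorem Dg.sub {n : ℕ} {f g : RA G} (hf : Dg T x n f) (hg : Dg T x n g) : Dg T x n (f - g) := by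
  rw [sub_eq_add_neg]; exact hf.add hg.neg

theorem dg_zero (n : ℕ) : Dg T x n 0 :=
  ⟨fun _ => 0, fun _ => (suppAlg T).zero_mem, by simp⟩

theorem Dg.mono {n m : ℕ} (h : n ≤ m) {f : RA G} (hf : Dg T x n f) : Dg T x m f := by
  obtain ⟨a, ha, rfl⟩ := hf
  refine ⟨fun i => if i < n then a i else 0, fun i => ?_, ?_⟩
  · dsimp only
    split_ifs
    · exact ha i
    · exact (suppAlg T).zero_mem
  · rw [← Finset.sum_subset (Finset.range_subset_range.2 h)]
    · refine Finset.sum_congr rfl fun i hi => ?_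
      dsimp only
      rw [if_pos (Finset.mem_range.1 hi)]
    · intro i _ hi
      dsimp only
      rw [if_neg (by simpa using hi), mul_zero]

/-- conjugation by a power of `x` -/
theorem conj_pow_mem (hx : ∀ t ∈ T, x * t * x⁻¹ ∈ T) (n : ℕ) {t : G} (ht : t ∈ T) :
    x ^ n * t * (x ^ n)⁻¹ ∈ T := by
  induction n with
  | zero => simpa using ht
  | succ n ih =>
    have := hx _ ih
    have e : x ^ (n + 1) * t * (x ^ (n + 1))⁻¹ = x * (x ^ n * t * (x ^ n)⁻¹) * x⁻¹ := by
      rw [pow_succ']; group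
    rwa [e]

theorem conj_pow_mem' (hx' : ∀ t ∈ T, x⁻¹ * t * x ∈ T) (n : ℕ) {t : G} (ht : t ∈ T) :
    (x ^ n)⁻¹ * t * x ^ n ∈ T := by
  have h : ∀ t ∈ T, x⁻¹ * t * x⁻¹⁻¹ ∈ T := by simpa using hx'
  have := conj_pow_mem h n ht
  simpa using this

/-- conjugation of ring elements -/
theorem conj_mem_suppAlg {g : G} (hg : ∀ t ∈ T, g * t * g⁻¹ ∈ T) {r : RA G} (hr : r ∈ suppAlg T) :
    gel g * r * gel g⁻¹ ∈ suppAlg T := by
  intro h hh
  simp only [coeff_mul_gel, coeff_gel_mul, inv_inv] at hh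
  have h1 := hg _ (hr _ hh)
  simpa [mul_assoc] using h1

theorem Dg.smul (hx : ∀ t ∈ T, x * t * x⁻¹ ∈ T) {n k : ℕ} (hnk : n ≤ k) {f : RA G}
    (hf : Dg T x n f) {r : RA G} (hr : r ∈ suppAlg T) :
    Dg T x n (gel (x ^ k) * r * gel (x ^ k)⁻¹ * f) := by
  obtain ⟨a, ha, rfl⟩ := hf
  refine ⟨fun i => if i < n then gel (x ^ (k - i)) * r * gel (x ^ (k - i))⁻¹ * a i else 0,
    fun i => ?_, ?_⟩
  · dsimp only
    split_ifs
    · exact (suppAlg T).mul_mem (conj_mem_suppAlg (fun t ht => conj_pow_mem hx _ ht) hr) (ha i)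
    · exact (suppAlg T).zero_mem
  · rw [Finset.mul_sum]
    refine Finset.sum_congr rfl fun i hi => ?_
    have hi' := Finset.mem_range.1 hi
    dsimp only
    rw [if_pos hi']
    have e1 : (gel (x ^ k) : RA G) = gel (x ^ i) * gel (x ^ (k - i)) := by
      rw [← gel_mul, ← pow_add, Nat.add_sub_cancel' (by omega)]
    have e2 : (gel (x ^ k)⁻¹ : RA G) * gel (x ^ i) = gel (x ^ (k - i))⁻¹ := by
      rw [← gel_mul]
      congr 1
      have : x ^ k = x ^ i * x ^ (k - i) := by rw [← pow_add, Nat.add_sub_cancel' (by omega)]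
      rw [this]; group
    calc gel (x ^ k) * r * gel (x ^ k)⁻¹ * (gel (x ^ i) * a i)
        = gel (x ^ k) * r * (gel (x ^ k)⁻¹ * gel (x ^ i)) * a i := by noncomm_ring
      _ = _ := by rw [e2, e1]; noncomm_ring

theorem Dg.shift {n : ℕ} {f : RA G} (hf : Dg T x n f) : Dg T x (n + 1) (gel x * f) := by
  obtain ⟨a, ha, rfl⟩ := hf
  refine ⟨fun i => if i = 0 then 0 else a (i - 1), fun i => ?_, ?_⟩
  · dsimp only
    split_ifs
    · exact (suppAlg T).zero_mem
    · exact ha _
  · rw [Finset.sum_range_succ', Finset.mul_sum]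
    simp only [Nat.add_eq_zero_iff, one_ne_zero, and_false, if_false, Nat.add_sub_cancel,
      if_true, mul_zero, add_zero]
    refine Finset.sum_congr rfl fun i _ => ?_
    rw [pow_succ', gel_mul, mul_assoc]

/-- elements of `T ⟨x⟩` -/
theorem mem_sup_closure (hx' : ∀ t ∈ T, x⁻¹ * t * x ∈ T) {g : G}
    (hg : g ∈ T ⊔ Submonoid.closure {x}) : ∃ (i : ℕ), ∃ t ∈ T, g = x ^ i * t := by
  let U : Submonoid G :=
    { carrier := {g | ∃ (i : ℕ), ∃ t ∈ T, g = x ^ i * t}
      mul_mem' := by
        rintro _ _ ⟨i, t, ht, rfl⟩ ⟨j, s, hs, rfl⟩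
        refine ⟨i + j, (x ^ j)⁻¹ * t * x ^ j * s, T.mul_mem (conj_pow_mem' hx' j ht) hs, ?_⟩
        rw [pow_add]; group
      one_mem' := ⟨0, 1, T.one_mem, by simp⟩ }
  have hU : T ⊔ Submonoid.closure {x} ≤ U := by
    refine sup_le (fun t ht => ⟨0, t, ht, by simp⟩) ?_
    rw [Submonoid.closure_le]
    rintro _ rfl
    exact ⟨1, 1, T.one_mem, by simp⟩
  exact hU hg

theorem exists_dg (hx' : ∀ t ∈ T, x⁻¹ * t * x ∈ T) {f : RA G}
    (hf : f ∈ suppAlg (T ⊔ Submonoid.closure {x})) : ∃ n, Dg T x n f := by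
  classical
  have key : ∀ s : Finset G, s ⊆ f.coeff.support →
      ∃ n, Dg T x n (∑ g ∈ s, sc (f.coeff g) * gel g) := by
    intro s
    induction s using Finset.induction_on with
    | empty => intro _; exact ⟨0, by simpa using dg_zero 0⟩
    | insert g s hg ih =>
      intro hs
      obtain ⟨n, hn⟩ := ih (fun a ha => hs (Finset.mem_insert_of_mem ha))
      have h1 : g ∈ f.coeff.support := hs (Finset.mem_insert_self _ _)
      obtain ⟨i, t, ht, he⟩ := mem_sup_closure hx' (hf g (by simpa using h1))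
      rw [Finset.sum_insert hg]
      refine ⟨max (i + 1) n, Dg.add (Dg.mono (le_max_left _ _) ?_) (hn.mono (le_max_right _ _))⟩
      refine ⟨fun j => if j = i then sc (f.coeff g) * gel t else 0, fun j => ?_, ?_⟩
      · dsimp only
        split_ifs
        · exact (suppAlg T).mul_mem (sc_mem_suppAlg _) (gel_mem_suppAlg ht)
        · exact (suppAlg T).zero_mem
      · rw [Finset.sum_eq_single i]
        · dsimp only
          rw [if_pos rfl, ← mul_assoc, ← sc_comm, mul_assoc, ← gel_mul, ← he]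
        · intro j _ hj
          dsimp only
          rw [if_neg hj, mul_zero]
        · intro h
          exact absurd (Finset.mem_range.2 (Nat.lt_succ_self i)) h
  rw [eq_sum f]
  exact key _ (Finset.Subset.refl _)

theorem noeth_step (T : Submonoid G) (x : G)
    (hx : ∀ t ∈ T, x * t * x⁻¹ ∈ T) (hx' : ∀ t ∈ T, x⁻¹ * t * x ∈ T)
    (h : IsNoetherianRing (suppAlg T)) :
    IsNoetherianRing (suppAlg (T ⊔ Submonoid.closure {x})) := by
  set T' := T ⊔ Submonoid.closure {x} with hT'
  have hTT' : T ≤ T' := le_sup_left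
  have hxT' : x ∈ T' := (le_sup_right : _ ≤ T') (Submonoid.subset_closure rfl)
  have hsub : ∀ {r : RA G}, r ∈ suppAlg T → r ∈ suppAlg T' := fun hr g hg => hTT' (hr g hg)
  have hgx : ∀ k : ℕ, (gel (x ^ k) : RA G) ∈ suppAlg T' := fun k =>
    gel_mem_suppAlg (T'.pow_mem hxT' k)
  -- the ideals of leading coefficients
  let L : ℕ → Ideal (suppAlg T') → Ideal (suppAlg T) := fun n I =>
    { carrier := {a | ∃ f ∈ I, ∃ g : RA G, Dg T x n g ∧ (f : RA G) = gel (x ^ n) * a + g}
      add_mem' := by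
        rintro a b ⟨f, hf, g, hg, e⟩ ⟨f', hf', g', hg', e'⟩
        refine ⟨f + f', I.add_mem hf hf', g + g', hg.add hg', ?_⟩
        push_cast
        rw [e, e']
        noncomm_ring
      zero_mem' := ⟨0, I.zero_mem, 0, dg_zero n, by simp⟩
      smul_mem' := by
        rintro r a ⟨f, hf, g, hg, e⟩
        have hr' : gel (x ^ n) * (r : RA G) * gel (x ^ n)⁻¹ ∈ suppAlg T :=
          conj_mem_suppAlg (fun t ht => conj_pow_mem hx _ ht) r.2
        refine ⟨⟨_, hsub hr'⟩ * f, I.mul_mem_left _ hf, _, hg.smul hx le_rfl r.2, ?_⟩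
        push_cast
        rw [e, mul_add, smul_eq_mul]
        congr 1
        push_cast
        calc gel (x ^ n) * (r : RA G) * gel (x ^ n)⁻¹ * (gel (x ^ n) * a)
            = gel (x ^ n) * (r : RA G) * (gel (x ^ n)⁻¹ * gel (x ^ n)) * a := by noncomm_ring
          _ = _ := by rw [gel_inv_mul]; noncomm_ring }
  have hL : ∀ n I (a : suppAlg T), a ∈ L n I ↔
      ∃ f ∈ I, ∃ g : RA G, Dg T x n g ∧ (f : RA G) = gel (x ^ n) * a + g := fun n I a => Iff.rfl
  have hLn : ∀ n I, L n I ≤ L (n + 1) I := by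
    intro n I a ha
    rw [hL] at ha ⊢
    obtain ⟨f, hf, g, hg, e⟩ := ha
    refine ⟨⟨gel (x ^ 1), hgx 1⟩ * f, I.mul_mem_left _ hf, _, hg.shift, ?_⟩
    push_cast
    rw [e, pow_one, mul_add, pow_succ', gel_mul, mul_assoc]
  have hLn' : ∀ n m I, n ≤ m → L n I ≤ L m I := by
    intro n m I hnm
    induction m, hnm using Nat.le_induction with
    | base => exact le_rfl
    | succ m _ ih => exact ih.trans (hLn m I)
  have hLI : ∀ n I J, I ≤ J → L n I ≤ L n J := by
    intro n I J hIJ a ha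
    rw [hL] at ha ⊢
    obtain ⟨f, hf, g, hg, e⟩ := ha
    exact ⟨f, hIJ hf, g, hg, e⟩
  have key : ∀ I J : Ideal (suppAlg T'), I ≤ J → (∀ n, L n J ≤ L n I) → J ≤ I := by
    intro I J hIJ hLJ
    have : ∀ n, ∀ f ∈ J, Dg T x n (f : RA G) → f ∈ I := by
      intro n
      induction n with
      | zero =>
        rintro f - ⟨a, -, e⟩
        have : f = 0 := by
          apply Subtype.ext
          simpa using e
        rw [this]; exact I.zero_mem
      | succ n ih =>
        rintro f hf ⟨a, ha, e⟩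
        rw [Finset.sum_range_succ, add_comm] at e
        have h1 : (⟨a n, ha n⟩ : suppAlg T) ∈ L n J := (hL _ _ _).2 ⟨f, hf, _, ⟨a, ha, rfl⟩, e⟩
        obtain ⟨f', hf', g', hg', e'⟩ := (hL _ _ _).1 (hLJ n h1)
        have h2 : f - f' ∈ I := by
          refine ih _ (J.sub_mem hf (hIJ hf')) ?_
          have : ((f - f' : suppAlg T') : RA G) =
              (∑ i ∈ Finset.range n, gel (x ^ i) * a i) - g' := by
            push_cast
            rw [e, e']
            abel
          rw [this]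
          exact Dg.sub ⟨a, ha, rfl⟩ hg'
        have := I.add_mem h2 hf'
        simpa using this
    intro f hf
    obtain ⟨n, hn⟩ := exists_dg hx' f.2
    exact this n f hf hn
  rw [isNoetherianRing_iff, ← monotone_stabilizes_iff_noetherian]
  intro F
  have hstab := monotone_stabilizes_iff_noetherian.2
    ((isNoetherianRing_iff (R := suppAlg T)).1 h)
  -- the diagonal chain
  obtain ⟨N, hN⟩ := hstab ⟨fun k => L k (F k), fun k l hkl =>
    (hLn' k l _ hkl).trans (hLI l _ _ (F.monotone hkl))⟩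
  have hrow : ∀ n, ∃ M, ∀ k ≥ M, L n (F M) = L n (F k) := fun n => by
    obtain ⟨M, hM⟩ := hstab ⟨fun k => L n (F k), fun k l hkl => hLI n _ _ (F.monotone hkl)⟩
    exact ⟨M, hM⟩
  choose M hM using hrow
  let K := max N ((Finset.range N).sup M)
  refine ⟨K, fun m hm => ?_⟩
  refine le_antisymm (F.monotone hm) (key _ _ (F.monotone hm) fun n => ?_)
  by_cases hn : n < N
  · have h1 : M n ≤ K := le_trans (Finset.le_sup (f := M) (Finset.mem_range.2 hn)) (le_max_right _ _)
    rw [← hM n m (h1.trans hm), ← hM n K h1]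
  · push Not at hn
    have h2 : L n (F m) ≤ L (max n m) (F (max n m)) :=
      (hLn' _ _ _ (le_max_left _ _)).trans (hLI _ _ _ (F.monotone (le_max_right _ _)))
    have h3 : L (max n m) (F (max n m)) = L N (F N) :=
      (hN (max n m) (hn.trans (le_max_left _ _))).symm
    have h4 : L N (F N) ≤ L n (F K) :=
      (hLn' _ _ _ hn).trans (hLI _ _ _ (F.monotone (le_max_left _ _)))
    exact h2.trans (h3.le.trans h4)

end step

section chain
variable {G : Type*} [Group G]

private theorem normal_aux {n : ℕ} {Y : Subgroup G} (h : CCh n Y) : Y.Normal := by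
  induction h with
  | bot => infer_instance
  | @step n Y z hY hz ih =>
    have hzp : (z : G) ∈ Y ⊔ Subgroup.zpowers z :=
      (le_sup_right : _ ≤ Y ⊔ Subgroup.zpowers z) (Subgroup.mem_zpowers z)
    constructor
    intro a ha g
    have : Y ⊔ Subgroup.zpowers z ≤
        (Y ⊔ Subgroup.zpowers z).comap (MulAut.conj g).toMonoidHom := by
      refine sup_le (fun y hy => ?_) ?_
      · refine (le_sup_left : Y ≤ _) ?_
        simpa using ih.conj_mem y hy g
      · rw [Subgroup.zpowers_le]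
        change g * z * g⁻¹ ∈ Y ⊔ Subgroup.zpowers z
        have e : g * z * g⁻¹ = (g * z * g⁻¹ * z⁻¹) * z := by group
        rw [e]
        exact mul_mem ((le_sup_left : Y ≤ _) (hz g)) hzp
    exact this ha

private theorem toSubmonoid_sup_zpowers (Y : Subgroup G) (z : G) :
    (Y.toSubmonoid ⊔ Submonoid.closure {z}) ⊔ Submonoid.closure {z⁻¹} =
      (Y ⊔ Subgroup.zpowers z).toSubmonoid := by
  apply le_antisymm
  · refine sup_le (sup_le ?_ ?_) ?_
    · exact fun y hy => (le_sup_left : Y ≤ _) hy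
    · rw [Submonoid.closure_le]
      intro x hx
      rw [Set.mem_singleton_iff.1 hx]
      exact (le_sup_right : _ ≤ Y ⊔ Subgroup.zpowers z) (Subgroup.mem_zpowers z)
    · rw [Submonoid.closure_le]
      intro x hx
      rw [Set.mem_singleton_iff.1 hx]
      exact (le_sup_right : _ ≤ Y ⊔ Subgroup.zpowers z) (inv_mem (Subgroup.mem_zpowers z))
  · intro g hg
    have hcl : (Y ⊔ Subgroup.zpowers z) = Subgroup.closure ((Y : Set G) ∪ {z}) := by
      rw [Subgroup.closure_union, Subgroup.closure_eq, Subgroup.zpowers_eq_closure]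
    have hg' : g ∈ Subgroup.closure ((Y : Set G) ∪ {z}) := by
      rw [← hcl]; exact hg
    have hg2 : g ∈ (Subgroup.closure ((Y : Set G) ∪ {z})).toSubmonoid := hg'
    rw [Subgroup.closure_toSubmonoid] at hg2
    refine (Submonoid.closure_le.2 ?_) hg2
    rintro x ((hx | hx) | hx)
    · exact (le_sup_left.trans le_sup_left : Y.toSubmonoid ≤ _) hx
    · rw [hx]
      exact (le_sup_right.trans le_sup_left : Submonoid.closure {z} ≤ _)
        (Submonoid.subset_closure rfl)
    · rcases hx with hx | hx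
      · have hx' : x ∈ Y := by simpa using inv_mem (show x⁻¹ ∈ Y from hx)
        exact (le_sup_left.trans le_sup_left : Y.toSubmonoid ≤ _) hx'
      · have : x = z⁻¹ := by rw [← inv_inv x, show x⁻¹ = z from hx]
        rw [this]
        exact (le_sup_right : Submonoid.closure {z⁻¹} ≤ _) (Submonoid.subset_closure rfl)

theorem noeth_chain {G : Type*} [Group G] {n : ℕ} {Y : Subgroup G} (h : CCh n Y) :
    IsNoetherianRing (suppAlg Y.toSubmonoid) := by
  classical
  induction h with
  | bot =>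
    let f : ℝ →+* suppAlg (⊥ : Subgroup G).toSubmonoid :=
      { toFun := fun r => ⟨sc r, sc_mem_suppAlg r⟩
        map_one' := rfl
        map_mul' := fun r s => Subtype.ext (sc_mul r s)
        map_zero' := Subtype.ext sc_zero
        map_add' := fun r s => Subtype.ext (sc_add r s) }
    refine isNoetherianRing_of_surjective _ _ f ?_
    rintro ⟨a, ha⟩
    refine ⟨a.coeff 1, Subtype.ext ?_⟩
    change sc (a.coeff 1) = a
    ext g
    rw [coeff_sc]
    split_ifs with hg
    · rw [hg]
    · by_contra hne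
      exact hg (Subgroup.mem_bot.1 (ha g (fun h0 => hne h0.symm)))
  | @step n Y z hY hz ih =>
    have hYn := normal_aux hY
    have h1 : ∀ y ∈ Y, z * y * z⁻¹ ∈ Y := fun y hy => hYn.conj_mem y hy z
    have h2 : ∀ y ∈ Y, z⁻¹ * y * z ∈ Y := fun y hy => by simpa using hYn.conj_mem y hy z⁻¹
    have s1 := noeth_step Y.toSubmonoid z h1 h2 ih
    have h3 : ∀ (w : G), (∀ y ∈ Y, w * y * w⁻¹ ∈ Y) → w * z * w⁻¹ = z →
        ∀ t ∈ Y.toSubmonoid ⊔ Submonoid.closure {z},
          w * t * w⁻¹ ∈ Y.toSubmonoid ⊔ Submonoid.closure {z} := by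
      intro w hw hwz t ht
      have : Y.toSubmonoid ⊔ Submonoid.closure {z} ≤
          (Y.toSubmonoid ⊔ Submonoid.closure {z}).comap (MulAut.conj w).toMonoidHom := by
        refine sup_le (fun y hy => ?_) ?_
        · exact (le_sup_left : Y.toSubmonoid ≤ _) (hw y hy)
        · rw [Submonoid.closure_le]
          intro x hx
          rw [Set.mem_singleton_iff.1 hx]
          change w * z * w⁻¹ ∈ Y.toSubmonoid ⊔ Submonoid.closure {z}
          rw [hwz]
          exact (le_sup_right : Submonoid.closure {z} ≤ _) (Submonoid.subset_closure rfl)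
      exact this ht
    have s2 := noeth_step (Y.toSubmonoid ⊔ Submonoid.closure {z}) z⁻¹
      (h3 z⁻¹ (by simpa using h2) (by group)) (by simpa using h3 z h1 (by group)) s1
    rwa [toSubmonoid_sup_zpowers Y z] at s2

theorem noeth_group {G : Type*} [Group G] {n : ℕ} (h : CCh n (⊤ : Subgroup G)) :
    IsNoetherianRing (RA G) := by
  have := noeth_chain h
  refine isNoetherianRing_of_surjective _ _ (suppAlg (⊤ : Subgroup G).toSubmonoid).subtype ?_
  intro a
  exact ⟨⟨a, fun g _ => Subgroup.mem_top g⟩, rfl⟩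

end chain

end Bludov
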