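import Pool.Agent.helper77.Bludov.KR
import Pool.Agent.helper77.Bludov.N

/-!
# Artin–Rees type statement at a real character
-/

namespace Bludov

/-- linear extension of a character to the group ring -/
noncomputable def ev {G : Type*} [Group G] (χ : G →* ℝ) : RA G →ₐ[ℝ] ℝ :=
  MonoidAlgebra.lift ℝ ℝ G χ

section
variable {G : Type*} [Group G]

theorem ev_gel (χ : G →* ℝ) (g : G) : ev χ (gel g) = χ g := by
  simp [ev, gel]

theorem ev_sc (χ : G →* ℝ) (r : ℝ) : ev χ (sc r) = r := by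
  simp [ev, sc]

/-- the left ideal `J` is adapted to the normal subgroup `Y` -/
structure Adap (χ : G →* ℝ) (Y : Subgroup G) (J : Ideal (RA G)) : Prop where
  two : ∀ a ∈ J, ∀ s : RA G, a * s ∈ J
  ev0 : ∀ a ∈ J, ev χ a = 0
  mem : ∀ y ∈ Y, gel y - sc (χ y) ∈ J

theorem chi_comm (χ : G →* ℝ) (g z : G) : χ (g * z * g⁻¹ * z⁻¹) = 1 := by
  have h : ∀ g : G, χ g * χ g⁻¹ = 1 := fun g => by rw [← map_mul]; simp
  rw [map_mul, map_mul, map_mul]
  calc χ g * χ z * χ g⁻¹ * χ z⁻¹ = (χ g * χ g⁻¹) * (χ z * χ z⁻¹) := by ring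
    _ = 1 := by rw [h, h, one_mul]

/-- `x = z - χ(z)` is central modulo `J` -/
theorem Adap.comm {χ : G →* ℝ} {Y : Subgroup G} {J : Ideal (RA G)} (h : Adap χ Y J) {z : G}
    (hz : ∀ g : G, g * z * g⁻¹ * z⁻¹ ∈ Y) (s : RA G) :
    (gel z - sc (χ z)) * s - s * (gel z - sc (χ z)) ∈ J := by
  have h1 : ∀ g : G, (gel z : RA G) * gel g - gel g * gel z ∈ J := by
    intro g
    have h2 := h.mem _ (hz g)
    rw [chi_comm, sc_one] at h2
    have h3 := h.two _ (J.neg_mem h2) (gel (z * g))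
    convert h3 using 1
    rw [neg_sub, sub_mul, one_mul, ← gel_mul, ← gel_mul, ← gel_mul]
    congr 2
    group
  have h4 : (gel z : RA G) * s - s * gel z ∈ J := by
    rw [eq_sum s, Finset.mul_sum, Finset.sum_mul, ← Finset.sum_sub_distrib]
    refine J.sum_mem fun g _ => ?_
    have e : (gel z : RA G) * (sc (s.coeff g) * gel g) - sc (s.coeff g) * gel g * gel z =
        sc (s.coeff g) * (gel z * gel g - gel g * gel z) := by
      rw [mul_sub, ← mul_assoc (gel z), ← sc_comm]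
      noncomm_ring
    rw [e]
    exact J.mul_mem_left _ (h1 g)
  have e : (gel z - sc (χ z)) * s - s * (gel z - sc (χ z)) = gel z * s - s * gel z := by
    rw [sub_mul, mul_sub, sc_comm]
    abel
  rwa [e]

/-- next ideal -/
noncomputable def nextJ {χ : G →* ℝ} {Y : Subgroup G} {J : Ideal (RA G)} (h : Adap χ Y J) {z : G}
    (hz : ∀ g : G, g * z * g⁻¹ * z⁻¹ ∈ Y) : Ideal (RA G) where
  carrier := {a | ∃ j ∈ J, ∃ s : RA G, a = j + (gel z - sc (χ z)) * s}
  add_mem' := by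
    rintro _ _ ⟨j, hj, s, rfl⟩ ⟨j', hj', s', rfl⟩
    exact ⟨j + j', J.add_mem hj hj', s + s', by noncomm_ring⟩
  zero_mem' := ⟨0, J.zero_mem, 0, by simp⟩
  smul_mem' := by
    rintro r _ ⟨j, hj, s, rfl⟩
    refine ⟨r * j - ((gel z - sc (χ z)) * r - r * (gel z - sc (χ z))) * s,
      J.sub_mem (J.mul_mem_left _ hj) (h.two _ (h.comm hz r) _), r * s, ?_⟩
    rw [smul_eq_mul]
    noncomm_ring

theorem mem_nextJ {χ : G →* ℝ} {Y : Subgroup G} {J : Ideal (RA G)} (h : Adap χ Y J) {z : G}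
    (hz : ∀ g : G, g * z * g⁻¹ * z⁻¹ ∈ Y) (a : RA G) :
    a ∈ nextJ h hz ↔ ∃ j ∈ J, ∃ s : RA G, a = j + (gel z - sc (χ z)) * s := Iff.rfl

/-- the subgroup of elements acting by the character modulo `J` -/
theorem adap_closure (χ : G →* ℝ) {J : Ideal (RA G)} (h2 : ∀ a ∈ J, ∀ s : RA G, a * s ∈ J)
    (Y : Subgroup G) (z : G) (hY : ∀ y ∈ Y, gel y - sc (χ y) ∈ J)
    (hz : gel z - sc (χ z) ∈ J) : ∀ y ∈ Y ⊔ Subgroup.zpowers z, gel y - sc (χ y) ∈ J := by
  have hχ : ∀ g : G, χ g⁻¹ * χ g = 1 := fun g => by rw [← map_mul]; simp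
  let U : Subgroup G :=
    { carrier := {g | gel g - sc (χ g) ∈ J}
      mul_mem' := by
        intro a b ha hb
        have e : (gel (a * b) - sc (χ (a * b)) : RA G) =
            gel a * (gel b - sc (χ b)) + (gel a - sc (χ a)) * sc (χ b) := by
          rw [map_mul, sc_mul, gel_mul]; noncomm_ring
        change gel (a * b) - sc (χ (a * b)) ∈ J
        rw [e]
        exact J.add_mem (J.mul_mem_left _ hb) (h2 _ ha _)
      one_mem' := by
        change gel 1 - sc (χ 1) ∈ J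
        simp
      inv_mem' := by
        intro a ha
        change gel a⁻¹ - sc (χ a⁻¹) ∈ J
        have e : (gel a⁻¹ - sc (χ a⁻¹) : RA G) =
            -(sc (χ a⁻¹) * gel a⁻¹) * (gel a - sc (χ a)) := by
          have e1 : (sc (χ a⁻¹) * gel a⁻¹ * gel a : RA G) = sc (χ a⁻¹) := by
            rw [mul_assoc, gel_inv_mul, mul_one]
          have e2 : (sc (χ a⁻¹) * gel a⁻¹ * sc (χ a) : RA G) = gel a⁻¹ := by
            rw [mul_assoc, ← sc_comm, ← mul_assoc, ← sc_mul, hχ, sc_one, one_mul]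
          rw [neg_mul, mul_sub, e1, e2]
          abel
        rw [e]
        exact J.mul_mem_left _ ha }
  have hU : Y ⊔ Subgroup.zpowers z ≤ U :=
    sup_le (fun y hy => hY y hy) (by rw [Subgroup.zpowers_le]; exact hz)
  exact fun y hy => hU hy

theorem adap_next {χ : G →* ℝ} {Y : Subgroup G} {J : Ideal (RA G)} (h : Adap χ Y J) {z : G}
    (hz : ∀ g : G, g * z * g⁻¹ * z⁻¹ ∈ Y) : Adap χ (Y ⊔ Subgroup.zpowers z) (nextJ h hz) where
  two := by
    rintro _ ⟨j, hj, s, rfl⟩ r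
    exact ⟨j * r, h.two _ hj _, s * r, by noncomm_ring⟩
  ev0 := by
    rintro _ ⟨j, hj, s, rfl⟩
    rw [map_add, map_mul, map_sub, h.ev0 j hj, ev_gel, ev_sc]
    ring
  mem := by
    refine adap_closure χ ?_ Y z ?_ ?_
    · rintro _ ⟨j, hj, s, rfl⟩ r
      exact ⟨j * r, h.two _ hj _, s * r, by noncomm_ring⟩
    · intro y hy
      exact ⟨_, h.mem y hy, 0, by simp⟩
    · exact ⟨0, J.zero_mem, 1, by simp⟩

/-- elements of nonzero value -/
noncomputable def Wev (χ : G →* ℝ) : Submonoid (RA G) where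
  carrier := {s | ev χ s ≠ 0}
  mul_mem' := by
    intro a b ha hb
    change ev χ (a * b) ≠ 0
    rw [map_mul]; exact mul_ne_zero ha hb
  one_mem' := by
    change ev χ 1 ≠ 0
    simp

theorem exists_adap (χ : G →* ℝ) [IsNoetherianRing (RA G)] (c : RA G) {n : ℕ} {Y : Subgroup G}
    (h : CCh n Y) : ∃ J : Ideal (RA G), Adap χ Y J ∧
      ((∀ n : RA G, ∃ s ∈ Wev χ, s * n ∈ Ideal.span {c} ⊔ J) →
        ∀ n : RA G, ∃ s ∈ Wev χ, s * n ∈ Ideal.span {c}) := by
  induction h with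
  | bot =>
    refine ⟨⊥, ⟨?_, ?_, ?_⟩, ?_⟩
    · intro a ha s
      rw [(Submodule.mem_bot _).1 ha]
      simp
    · intro a ha
      rw [(Submodule.mem_bot _).1 ha, map_zero]
    · intro y hy
      rw [Subgroup.mem_bot.1 hy]
      simp
    · simp
  | @step n Y z hY hz ih =>
    obtain ⟨J, hJ, hlift⟩ := ih
    refine ⟨nextJ hJ hz, adap_next hJ hz, fun base => hlift ?_⟩
    refine KR (Wev χ) c (gel z - sc (χ z)) J (nextJ hJ hz) hJ.two (mem_nextJ hJ hz) ?_ ?_ base
    · intro s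
      exact ⟨s, hJ.comm hz s, id⟩
    · intro w hw j hj
      change ev χ (w - j) ≠ 0
      rw [map_sub, (adap_next hJ hz).ev0 j hj, sub_zero]
      exact hw

end

theorem aint {G : Type*} [Group G] {n : ℕ} (h : CCh n (⊤ : Subgroup G)) (χ : G →* ℝ)
    (hχ : ∀ g, 0 < χ g) (b c : RA G) (hc : ev χ c ≠ 0) :
    ∃ s t : RA G, s * b = t * c ∧ ev χ s ≠ 0 := by
  have := noeth_group h
  obtain ⟨J, hJ, hlift⟩ := exists_adap χ c h
  have hmem : ∀ f : RA G, f - sc (ev χ f) ∈ J := by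
    intro f
    have e : f - sc (ev χ f) =
        ∑ g ∈ f.coeff.support, sc (f.coeff g) * (gel g - sc (χ g)) := by
      have e1 : ev χ f = ∑ g ∈ f.coeff.support, f.coeff g * χ g := by
        conv_lhs => rw [eq_sum f]
        rw [map_sum]
        exact Finset.sum_congr rfl fun g _ => by rw [map_mul, ev_sc, ev_gel]
      have e2 : (sc (ev χ f) : RA G) = ∑ g ∈ f.coeff.support, sc (f.coeff g) * sc (χ g) := by
        rw [e1]
        simp only [← sc_mul]
        let F : ℝ →+ RA G :=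
          { toFun := sc, map_zero' := sc_zero, map_add' := sc_add }
        exact map_sum F _ _
      simp only [mul_sub]
      rw [Finset.sum_sub_distrib, ← e2, ← eq_sum f]
    rw [e]
    exact J.sum_mem fun g _ => J.mul_mem_left _ (hJ.mem g trivial)
  obtain ⟨s, hs, h1⟩ := hlift (fun m => by
    refine ⟨1, (Wev χ).one_mem, ?_⟩
    have e : 1 * m = sc (ev χ m / ev χ c) * c +
        ((m - sc (ev χ m)) - sc (ev χ m / ev χ c) * (c - sc (ev χ c))) := by
      have : (sc (ev χ m / ev χ c) * sc (ev χ c) : RA G) = sc (ev χ m) := by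
        rw [← sc_mul, div_mul_cancel₀ _ hc]
      rw [mul_sub, this, one_mul]
      abel
    rw [e]
    refine Submodule.add_mem_sup (Ideal.mul_mem_left _ _ (Ideal.subset_span rfl)) ?_
    exact J.sub_mem (hmem m) (J.mul_mem_left _ (hmem c))) b
  obtain ⟨t, ht⟩ := Ideal.mem_span_singleton'.1 h1
  exact ⟨s, t, ht.symm, hs⟩

theorem aint_common {G : Type*} [Group G] {n : ℕ} (h : CCh n (⊤ : Subgroup G)) (χ : G →* ℝ)
    (hχ : ∀ g, 0 < χ g) (m : ℕ) (b : Fin m → RA G) (c : ℝ) (hc : c ≠ 0)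
    (hb : ∀ i, ev χ (b i) = c) :
    ∃ s : Fin m → RA G, (∀ i j, s i * b i = s j * b j) ∧ ∀ i, ev χ (s i) = 1 := by
  -- a common multiple `y` with `y = s i * b i` and nonzero value
  have key : ∀ m (b : Fin m → RA G), (∀ i, ev χ (b i) = c) →
      ∃ (y : RA G) (s : Fin m → RA G), (∀ i, s i * b i = y) ∧ ev χ y ≠ 0 := by
    intro m
    induction m with
    | zero => intro b _; exact ⟨1, fun i => i.elim0, fun i => i.elim0, by simp⟩
    | succ m ih =>
      intro b hb
      obtain ⟨y, s, hs, hy⟩ := ih (fun i => b i.castSucc) (fun i => hb _)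
      obtain ⟨s', t, he, hs'⟩ := aint h χ hχ y (b (Fin.last m)) (by rw [hb]; exact hc)
      refine ⟨s' * y, Fin.snoc (fun i => s' * s i) t, fun i => ?_, ?_⟩
      · refine Fin.lastCases ?_ (fun i => ?_) i
        · simp [he]
        · simp [mul_assoc, hs]
      · rw [map_mul]; exact mul_ne_zero hs' hy
  obtain ⟨y, s, hs, hy⟩ := key m b hb
  refine ⟨fun i => sc (c / ev χ y) * s i, fun i j => ?_, fun i => ?_⟩
  · rw [mul_assoc, mul_assoc, hs, hs]
  · have h1 : ev χ (s i) * c = ev χ y := by rw [← hs i, map_mul, hb]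
    rw [map_mul, ev_sc, div_mul_eq_mul_div, mul_comm c, h1, div_self hy]

end Bludov
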