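import Pool.Agent.helper77.Bludov.Basic

/-!
# Central cyclic chains: normality, finite generation, intersections, kernels, top
-/

namespace Bludov

theorem CCh.normal {G : Type*} [Group G] {n : ℕ} {Y : Subgroup G} (h : CCh n Y) : Y.Normal := by
  induction h with
  | bot => infer_instance
  | @step n Y z h hz ih =>
    refine ⟨fun x hx g => ?_⟩
    have h1 : (Y ⊔ Subgroup.zpowers z).map (MulAut.conj g).toMonoidHom ≤
        Y ⊔ Subgroup.zpowers z := by
      rw [Subgroup.map_sup, sup_le_iff]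
      constructor
      · rintro _ ⟨y, hy, rfl⟩
        exact Subgroup.mem_sup_left (ih.conj_mem y hy g)
      · rw [MonoidHom.map_zpowers, Subgroup.zpowers_le]
        have h2 : (MulAut.conj g).toMonoidHom z = (g * z * g⁻¹ * z⁻¹) * z := by
          simp
        rw [h2]
        exact Subgroup.mul_mem _ (Subgroup.mem_sup_left (hz g))
          (Subgroup.mem_sup_right (Subgroup.mem_zpowers z))
    exact h1 ⟨x, hx, rfl⟩

theorem CCh.fg {G : Type*} [Group G] {n : ℕ} {Y : Subgroup G} (h : CCh n Y) : Y.FG := by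
  induction h with
  | bot => exact ⟨∅, by simp⟩
  | @step n Y z h hz ih =>
    refine ih.sup ⟨{z}, ?_⟩
    rw [Finset.coe_singleton, Subgroup.zpowers_eq_closure]

/-- elements of `Y ⊔ ⟨z⟩` -/
theorem mem_sup_zpowers {G : Type*} [Group G] {Y : Subgroup G} (hY : Y.Normal) (z x : G) :
    x ∈ Y ⊔ Subgroup.zpowers z ↔ ∃ y ∈ Y, ∃ k : ℤ, y * z ^ k = x := by
  rw [Subgroup.mem_sup_of_normal_left]
  constructor
  · rintro ⟨y, hy, w, hw, rfl⟩
    obtain ⟨k, rfl⟩ := Subgroup.mem_zpowers_iff.1 hw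
    exact ⟨y, hy, k, rfl⟩
  · rintro ⟨y, hy, k, rfl⟩
    exact ⟨y, hy, z ^ k, Subgroup.mem_zpowers_iff.2 ⟨k, rfl⟩, rfl⟩

theorem inf_step {G : Type*} [Group G] {m : ℕ} {Y : Subgroup G} (hY : Y.Normal) (z : G)
    (hz : ∀ g : G, g * z * g⁻¹ * z⁻¹ ∈ Y) (N : Subgroup G) (hN : N.Normal)
    (h : CCh m (N ⊓ Y)) : CCh (m + 1) (N ⊓ (Y ⊔ Subgroup.zpowers z)) := by
  have key : ∀ (x : G), (QuotientGroup.mk x : G ⧸ Y) = 1 ↔ x ∈ Y := fun x =>
    QuotientGroup.eq_one_iff x
  have hc : ∀ g : G, (QuotientGroup.mk g : G ⧸ Y) * QuotientGroup.mk z =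
      QuotientGroup.mk z * QuotientGroup.mk g := by
    intro g
    have h1 := (key _).2 (hz g)
    rw [QuotientGroup.mk_mul, QuotientGroup.mk_mul, QuotientGroup.mk_mul, QuotientGroup.mk_inv,
      QuotientGroup.mk_inv, mul_inv_eq_one, mul_inv_eq_iff_eq_mul] at h1
    exact h1
  -- the set of exponents
  let S : AddSubgroup ℤ :=
    { carrier := {k | ∃ y ∈ Y, y * z ^ k ∈ N}
      zero_mem' := ⟨1, Y.one_mem, by simp [N.one_mem]⟩
      add_mem' := by
        rintro a b ⟨y, hy, h1⟩ ⟨y', hy', h2⟩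
        refine ⟨y * (z ^ a * y' * (z ^ a)⁻¹), Y.mul_mem hy (hY.conj_mem _ hy' _), ?_⟩
        have := N.mul_mem h1 h2
        rw [zpow_add]
        convert this using 1
        group
      neg_mem' := by
        rintro a ⟨y, hy, h1⟩
        refine ⟨z ^ (-a) * y⁻¹ * (z ^ (-a))⁻¹, hY.conj_mem _ (Y.inv_mem hy) _, ?_⟩
        have := N.inv_mem h1
        convert this using 1
        group }
  obtain ⟨a, ha⟩ := Int.subgroup_cyclic S
  have haS : a ∈ S := by rw [ha]; exact AddSubgroup.subset_closure rfl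
  obtain ⟨y0, hy0, hw⟩ := haS
  set w := y0 * z ^ a with hwdef
  have hwq : (QuotientGroup.mk w : G ⧸ Y) = (QuotientGroup.mk z) ^ a := by
    rw [hwdef, QuotientGroup.mk_mul, (key y0).2 hy0, one_mul, QuotientGroup.mk_zpow]
  have heq : N ⊓ (Y ⊔ Subgroup.zpowers z) = (N ⊓ Y) ⊔ Subgroup.zpowers w := by
    apply le_antisymm
    · rintro x ⟨hxN, hx⟩
      obtain ⟨y, hy, k, rfl⟩ := (mem_sup_zpowers hY z x).1 hx
      have hk : k ∈ S := ⟨y, hy, hxN⟩
      rw [ha, AddSubgroup.mem_closure_singleton] at hk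
      obtain ⟨j, rfl⟩ := hk
      have h1 : y * z ^ (j • a) * (w ^ j)⁻¹ ∈ N ⊓ Y := by
        refine ⟨N.mul_mem hxN (N.inv_mem (N.zpow_mem hw j)), ?_⟩
        apply (key _).1
        rw [QuotientGroup.mk_mul, QuotientGroup.mk_mul, QuotientGroup.mk_inv,
          QuotientGroup.mk_zpow, QuotientGroup.mk_zpow, hwq, (key y).2 hy, one_mul,
          ← zpow_mul, smul_eq_mul, mul_comm a j, mul_inv_cancel]
      have h2 : y * z ^ (j • a) = (y * z ^ (j • a) * (w ^ j)⁻¹) * w ^ j := by group
      rw [h2]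
      exact Subgroup.mul_mem _ (Subgroup.mem_sup_left h1)
        (Subgroup.mem_sup_right (Subgroup.mem_zpowers_iff.2 ⟨j, rfl⟩))
    · rw [sup_le_iff]
      refine ⟨inf_le_inf_left N le_sup_left, ?_⟩
      rw [Subgroup.zpowers_le]
      exact ⟨hw, (mem_sup_zpowers hY z w).2 ⟨y0, hy0, a, rfl⟩⟩
  rw [heq]
  refine CCh.step w h fun g => ⟨?_, ?_⟩
  · exact N.mul_mem (hN.conj_mem _ hw g) (N.inv_mem hw)
  · apply (key _).1
    rw [QuotientGroup.mk_mul, QuotientGroup.mk_mul, QuotientGroup.mk_mul, QuotientGroup.mk_inv,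
      QuotientGroup.mk_inv, hwq]
    have h3 : Commute (QuotientGroup.mk g : G ⧸ Y) ((QuotientGroup.mk z) ^ a) :=
      (show Commute (QuotientGroup.mk g : G ⧸ Y) (QuotientGroup.mk z) from hc g).zpow_right a
    rw [h3.eq]
    group

/-- C2 -/
theorem CCh.inf {G : Type*} [Group G] {n : ℕ} {Y : Subgroup G} (h : CCh n Y)
    (N : Subgroup G) (hN : N.Normal) : ∃ m ≤ n, CCh m (N ⊓ Y) := by
  induction h with
  | bot => exact ⟨0, le_rfl, by rw [inf_bot_eq]; exact CCh.bot⟩
  | @step n Y z h hz ih =>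
    obtain ⟨m, hm, h1⟩ := ih
    exact ⟨m + 1, by omega, inf_step h.normal z hz N hN h1⟩

/-- C2 -/
theorem CCh.ker {G : Type*} [Group G] {n : ℕ} (h : CCh n (⊤ : Subgroup G))
    (l : G →* Multiplicative ℝ) (hl : l ≠ 1) : ∃ m < n, CCh m l.ker := by
  have key : ∀ {n : ℕ} {Y : Subgroup G}, CCh n Y →
      (Y ≤ l.ker ∨ ∃ m < n, CCh m (l.ker ⊓ Y)) := by
    intro n Y h
    induction h with
    | bot => exact Or.inl bot_le
    | @step n Y z h hz ih =>
      rcases ih with ih | ⟨m, hm, h1⟩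
      · by_cases hlz : l z = 1
        · left
          rw [sup_le_iff]
          exact ⟨ih, by rw [Subgroup.zpowers_le]; exact hlz⟩
        · right
          refine ⟨n, Nat.lt_succ_self n, ?_⟩
          have h2 : l.ker ⊓ (Y ⊔ Subgroup.zpowers z) = Y := by
            apply le_antisymm
            · rintro x ⟨hx1, hx⟩
              obtain ⟨y, hy, k, rfl⟩ := (mem_sup_zpowers h.normal z x).1 hx
              have h3 : l (y * z ^ k) = 1 := hx1
              rw [map_mul, map_zpow, show l y = 1 from ih hy, one_mul] at h3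
              have h4 : (k : ℝ) * (l z).toAdd = 0 := by
                have := congrArg Multiplicative.toAdd h3
                simpa [toAdd_zpow] using this
              rcases mul_eq_zero.1 h4 with h5 | h5
              · have h6 : k = 0 := by exact_mod_cast h5
                rw [h6]; simpa using hy
              · exact absurd (by rw [← ofAdd_toAdd (l z), h5]; rfl) hlz
            · exact le_inf ih le_sup_left
          rw [h2]
          exact h
      · right
        exact ⟨m + 1, by omega, inf_step h.normal z hz l.ker inferInstance h1⟩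
  rcases key h with h1 | ⟨m, hm, h1⟩
  · exact absurd (MonoidHom.ext fun x => MonoidHom.mem_ker.1 (h1 (Subgroup.mem_top x))) hl
  · exact ⟨m, hm, by rwa [inf_top_eq] at h1⟩

/-- C2 -/
theorem CCh.top_of {G : Type*} [Group G] {n : ℕ} {Y : Subgroup G} (h : CCh n Y) :
    CCh n (⊤ : Subgroup Y) := by
  have key : ∀ {n : ℕ} {Y : Subgroup G}, CCh n Y → ∀ H : Subgroup G, Y ≤ H →
      CCh n (Y.subgroupOf H) := by
    intro n Y h
    induction h with
    | bot => intro H _; rw [Subgroup.bot_subgroupOf]; exact CCh.bot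
    | @step n Y z h hz ih =>
      intro H hH
      have hYH : Y ≤ H := le_sup_left.trans hH
      have hzH : Subgroup.zpowers z ≤ H := le_sup_right.trans hH
      have hz1 : z ∈ H := hzH (Subgroup.mem_zpowers z)
      have h1 : (Subgroup.zpowers z).subgroupOf H = Subgroup.zpowers (⟨z, hz1⟩ : H) := by
        ext x
        rw [Subgroup.mem_subgroupOf, Subgroup.mem_zpowers_iff, Subgroup.mem_zpowers_iff]
        constructor
        · rintro ⟨k, hk⟩; exact ⟨k, Subtype.ext (by simpa using hk)⟩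
        · rintro ⟨k, hk⟩; exact ⟨k, by rw [← hk]; simp⟩
      rw [Subgroup.subgroupOf_sup hYH hzH, h1]
      exact CCh.step _ (ih H hYH) fun g => hz g
  have := key h Y le_rfl
  rwa [Subgroup.subgroupOf_self] at this

end Bludov
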