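import Pool.Agent.helper77.Bludov.Basic

namespace Bludov

/-- Krull type step (one normalising element). -/
theorem KR {S : Type*} [Ring S] [IsNoetherianRing S] (W : Submonoid S) (c x : S) (J J' : Ideal S)
    (hJr : ∀ a ∈ J, ∀ s : S, a * s ∈ J)
    (hJ' : ∀ a : S, a ∈ J' ↔ ∃ j ∈ J, ∃ s : S, a = j + x * s)
    (hx : ∀ s : S, ∃ s' : S, x * s - s' * x ∈ J ∧ (s ∈ W → s' ∈ W))
    (hW : ∀ w ∈ W, ∀ j ∈ J', w - j ∈ W)
    (base : ∀ n : S, ∃ s ∈ W, s * n ∈ Ideal.span {c} ⊔ J') :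
    ∀ n : S, ∃ s ∈ W, s * n ∈ Ideal.span {c} ⊔ J := by
  have hxk : ∀ (k : ℕ) (s : S), ∃ s' : S, x ^ k * s - s' * x ^ k ∈ J ∧ (s ∈ W → s' ∈ W) := by
    intro k
    induction k with
    | zero => intro s; exact ⟨s, by simp, id⟩
    | succ k ih =>
      intro s
      obtain ⟨s1, h1, h1W⟩ := ih s
      obtain ⟨s2, h2, h2W⟩ := hx s1
      refine ⟨s2, ?_, fun hs => h2W (h1W hs)⟩
      have e : x ^ (k + 1) * s - s2 * x ^ (k + 1) =
          x * (x ^ k * s - s1 * x ^ k) + (x * s1 - s2 * x) * x ^ k := by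
        rw [pow_succ']
        noncomm_ring
      rw [e]
      exact J.add_mem (J.mul_mem_left _ h1) (hJr _ h2 _)
  have hC : ∀ a ∈ Ideal.span {c} ⊔ J', ∃ c' ∈ Ideal.span {c} ⊔ J, ∃ s : S, a = c' + x * s := by
    intro a ha
    obtain ⟨y, hy, z, hz, rfl⟩ := Submodule.mem_sup.1 ha
    obtain ⟨j, hj, s, rfl⟩ := (hJ' z).1 hz
    exact ⟨y + j, Submodule.add_mem_sup hy hj, s, by abel⟩
  have hi : ∀ (k : ℕ) (n : S), ∃ s ∈ W, ∃ n' : S, s * n - x ^ k * n' ∈ Ideal.span {c} ⊔ J := by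
    intro k n
    induction k with
    | zero => exact ⟨1, W.one_mem, n, by simp⟩
    | succ k ih =>
      obtain ⟨s, hs, n', h1⟩ := ih
      obtain ⟨s1, hs1, h2⟩ := base n'
      obtain ⟨c1, hc1, n'', h3⟩ := hC _ h2
      obtain ⟨s1', h4, h4W⟩ := hxk k s1
      refine ⟨s1' * s, W.mul_mem (h4W hs1) hs, n'', ?_⟩
      have e : s1' * s * n - x ^ (k + 1) * n'' =
          s1' * (s * n - x ^ k * n') - (x ^ k * s1 - s1' * x ^ k) * n' + x ^ k * c1 := by
        have : x ^ k * c1 = x ^ k * (s1 * n') - x ^ k * (x * n'') := by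
          rw [h3]; noncomm_ring
        rw [this, pow_succ]
        noncomm_ring
      rw [e]
      refine Ideal.add_mem _ (Ideal.sub_mem _ (Ideal.mul_mem_left _ _ h1) ?_)
        (Ideal.mul_mem_left _ _ hc1)
      exact Ideal.mem_sup_right (hJr _ h4 _)
  intro n
  let I : ℕ → Ideal S := fun k =>
    { carrier := {n' | x ^ k * n' ∈ Ideal.span {n} ⊔ (Ideal.span {c} ⊔ J)}
      add_mem' := by
        intro a b ha hb
        simp only [Set.mem_ofPred_eq, mul_add] at *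
        exact Ideal.add_mem _ ha hb
      zero_mem' := by simp
      smul_mem' := by
        intro r a ha
        simp only [Set.mem_ofPred_eq, smul_eq_mul] at *
        obtain ⟨r', hr, -⟩ := hxk k r
        have e : x ^ k * (r * a) = (x ^ k * r - r' * x ^ k) * a + r' * (x ^ k * a) := by
          noncomm_ring
        rw [e]
        refine Ideal.add_mem _ ?_ (Ideal.mul_mem_left _ _ ha)
        exact Ideal.mem_sup_right (Ideal.mem_sup_right (hJr _ hr _)) }
  have hI : ∀ k a, a ∈ I k ↔ x ^ k * a ∈ Ideal.span {n} ⊔ (Ideal.span {c} ⊔ J) :=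
    fun k a => Iff.rfl
  have hmono : Monotone I := by
    intro k l hkl a ha
    rw [hI] at ha ⊢
    obtain ⟨d, rfl⟩ := Nat.exists_eq_add_of_le hkl
    rw [add_comm, pow_add, mul_assoc]
    exact Ideal.mul_mem_left _ _ ha
  let L : ℕ →o Ideal S := ⟨I, hmono⟩
  obtain ⟨k, hk⟩ := (monotone_stabilizes_iff_noetherian.2 (inferInstance : IsNoetherian S S)) L
  obtain ⟨s, hs, n', h1⟩ := hi (k + 1) n
  have h2 : n' ∈ I (k + 1) := by
    rw [hI]
    have e : x ^ (k + 1) * n' = s * n - (s * n - x ^ (k + 1) * n') := by abel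
    rw [e]
    exact Ideal.sub_mem _ (Ideal.mem_sup_left (Ideal.mul_mem_left _ _
      (Ideal.subset_span rfl))) (Ideal.mem_sup_right h1)
  have hk' : I k = I (k + 1) := hk (k + 1) (Nat.le_succ k)
  rw [← hk', hI] at h2
  obtain ⟨y, hy, z, hz, h3⟩ := Submodule.mem_sup.1 h2
  obtain ⟨r, rfl⟩ := Ideal.mem_span_singleton'.1 hy
  refine ⟨s - x * r, hW s hs _ ((hJ' _).2 ⟨0, J.zero_mem, r, by simp⟩), ?_⟩
  have e : (s - x * r) * n = (s * n - x ^ (k + 1) * n') + x * z := by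
    have : z = x ^ k * n' - r * n := by rw [← h3]; abel
    rw [this, pow_succ']
    noncomm_ring
  rw [e]
  exact Ideal.add_mem _ h1 (Ideal.mul_mem_left _ _ hz)

end Bludov
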