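import Pool.Agent.helper77.Bludov.Basic
import Pool.Agent.helper77.Bludov.KR
import Pool.Agent.helper77.Bludov.N
import Pool.Agent.helper77.Bludov.C2

/-!
# Module AL: relations with positive top part in the direction of a real character
-/

set_option linter.unusedSectionVars false

namespace Bludov

section support
variable {G : Type*} [Group G]

/-- support contained in a set -/
def SIn (X : Set G) (f : RA G) : Prop := ∀ g, f.coeff g ≠ 0 → g ∈ X

theorem SIn.mono {X Y : Set G} (h : X ⊆ Y) {f : RA G} (hf : SIn X f) : SIn Y f :=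
  fun g hg => h (hf g hg)

theorem SIn.mul {X Y Z : Set G} {a b : RA G} (ha : SIn X a) (hb : SIn Y b)
    (h : ∀ x ∈ X, ∀ y ∈ Y, x * y ∈ Z) : SIn Z (a * b) := by
  classical
  intro g hg
  have h1 : g ∈ (a * b).coeff.support := by simpa using hg
  have h2 := MonoidAlgebra.support_coeff_mul_subset a b h1
  obtain ⟨x, hx, y, hy, rfl⟩ := Finset.mem_mul.1 h2
  exact h x (ha x (by simpa using hx)) y (hb y (by simpa using hy))

theorem SIn.add {X : Set G} {a b : RA G} (ha : SIn X a) (hb : SIn X b) : SIn X (a + b) := by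
  intro g hg
  by_contra h
  have h1 : a.coeff g = 0 := by by_contra h'; exact h (ha g h')
  have h2 : b.coeff g = 0 := by by_contra h'; exact h (hb g h')
  exact hg (by simp [h1, h2])

theorem SIn.zero {X : Set G} : SIn X (0 : RA G) := fun g hg => absurd (by simp) hg

/-- restriction of an element to a subset of the group -/
noncomputable def restr (X : Set G) (f : RA G) : RA G :=
  haveI := Classical.decPred (fun g : G => g ∈ X)
  MonoidAlgebra.ofCoeff (f.coeff.filter (fun g => g ∈ X))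

theorem coeff_restr_mem {X : Set G} {f : RA G} {g : G} (hg : g ∈ X) :
    (restr X f).coeff g = f.coeff g := by
  simp [restr, hg]

theorem coeff_restr_not {X : Set G} {f : RA G} {g : G} (hg : g ∉ X) :
    (restr X f).coeff g = 0 := by
  simp [restr, hg]

theorem restr_sin (X : Set G) (f : RA G) : SIn X (restr X f) := by
  intro g hg
  by_contra h
  exact hg (coeff_restr_not h)

theorem restr_add (X : Set G) (a b : RA G) : restr X (a + b) = restr X a + restr X b := by
  ext g
  by_cases h : g ∈ X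
  · simp [coeff_restr_mem h]
  · simp [coeff_restr_not h]

theorem restr_sub (X : Set G) (a b : RA G) : restr X (a - b) = restr X a - restr X b := by
  ext g
  by_cases h : g ∈ X
  · simp [coeff_restr_mem h]
  · simp [coeff_restr_not h]

theorem restr_of_sin {X : Set G} {f : RA G} (h : SIn X f) : restr X f = f := by
  ext g
  by_cases hg : g ∈ X
  · exact coeff_restr_mem hg
  · rw [coeff_restr_not hg]
    by_contra h'
    exact hg (h g (fun h2 => h' h2.symm))

theorem restr_eq_zero {X Y : Set G} {f : RA G} (h : SIn Y f) (hXY : ∀ g ∈ Y, g ∉ X) :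
    restr X f = 0 := by
  ext g
  by_cases hg : g ∈ X
  · rw [coeff_restr_mem hg]
    by_contra h'
    exact hXY g (h g (by simpa using h')) hg
  · rw [coeff_restr_not hg]; simp

theorem sub_restr_sin (X : Set G) {Y : Set G} {f : RA G} (h : SIn Y f) :
    SIn (Y \ X) (f - restr X f) := by
  intro g hg
  by_cases hX : g ∈ X
  · exact absurd (by simp [coeff_restr_mem hX]) hg
  · refine ⟨h g ?_, hX⟩
    simpa [coeff_restr_not hX] using hg

theorem restr_nn {X : Set G} {f : RA G} (h : NN f) : NN (restr X f) := by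
  intro g
  by_cases hg : g ∈ X
  · rw [coeff_restr_mem hg]; exact h g
  · rw [coeff_restr_not hg]

end support

section deg
variable {G : Type*} [Group G] (l : G →* Multiplicative ℝ)

/-- degree zero part -/
noncomputable def d0 (f : RA G) : RA G := restr {g | (l g).toAdd = 0} f

theorem deg_mul (x y : G) : (l (x * y)).toAdd = (l x).toAdd + (l y).toAdd := by
  rw [map_mul, toAdd_mul]

theorem deg_one : (l 1).toAdd = 0 := by rw [map_one, toAdd_one]

theorem deg_inv (x : G) : (l x⁻¹).toAdd = -(l x).toAdd := by rw [map_inv, toAdd_inv]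

theorem deg_conj (g x : G) : (l (g * x * g⁻¹)).toAdd = (l x).toAdd := by
  rw [deg_mul, deg_mul, deg_inv]; ring

theorem mem_ker_iff (x : G) : x ∈ l.ker ↔ (l x).toAdd = 0 := by
  rw [MonoidHom.mem_ker]
  exact ⟨fun h => by rw [h, toAdd_one], fun h => Multiplicative.toAdd.injective (by simpa using h)⟩

theorem d0_add (a b : RA G) : d0 l (a + b) = d0 l a + d0 l b := restr_add _ _ _

theorem d0_sub (a b : RA G) : d0 l (a - b) = d0 l a - d0 l b := restr_sub _ _ _

theorem d0_sin (f : RA G) : SIn {g | (l g).toAdd = 0} (d0 l f) := restr_sin _ _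

theorem d0_of_sin {f : RA G} (h : SIn {g | (l g).toAdd = 0} f) : d0 l f = f := restr_of_sin h

theorem d0_of_neg {f : RA G} (h : SIn {g | (l g).toAdd < 0} f) : d0 l f = 0 :=
  restr_eq_zero h fun g hg hg' => by
    simp only [Set.mem_ofPred_eq] at hg hg'
    linarith

theorem sub_d0_sin {f : RA G} (h : SIn {g | (l g).toAdd ≤ 0} f) :
    SIn {g | (l g).toAdd < 0} (f - d0 l f) :=
  (sub_restr_sin _ h).mono fun g hg => lt_of_le_of_ne hg.1 hg.2

theorem d0_mul {a b : RA G} (ha : SIn {g | (l g).toAdd ≤ 0} a)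
    (hb : SIn {g | (l g).toAdd ≤ 0} b) : d0 l (a * b) = d0 l a * d0 l b := by
  have ha' := sub_d0_sin l ha
  have hb' := sub_d0_sin l hb
  have h0a := d0_sin l a
  have h0b := d0_sin l b
  have e : a * b = d0 l a * d0 l b + (d0 l a * (b - d0 l b) + (a - d0 l a) * b) := by
    noncomm_ring
  have h1 : d0 l (d0 l a * d0 l b) = d0 l a * d0 l b := by
    refine d0_of_sin l (h0a.mul h0b ?_)
    intro x hx y hy
    simp only [Set.mem_ofPred_eq] at hx hy ⊢
    rw [deg_mul]; linarith
  have h2 : d0 l (d0 l a * (b - d0 l b) + (a - d0 l a) * b) = 0 := by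
    refine d0_of_neg l (SIn.add (h0a.mul hb' ?_) (ha'.mul hb ?_))
    · intro x hx y hy
      simp only [Set.mem_ofPred_eq] at hx hy ⊢
      rw [deg_mul]; linarith
    · intro x hx y hy
      simp only [Set.mem_ofPred_eq] at hx hy ⊢
      rw [deg_mul]; linarith
  rw [e, d0_add, h1, h2, add_zero]

theorem d0_conj (g : G) (f : RA G) :
    d0 l (gel g * f * gel g⁻¹) = gel g * d0 l f * gel g⁻¹ := by
  ext x
  simp only [coeff_mul_gel, coeff_gel_mul, inv_inv]
  by_cases h : (l x).toAdd = 0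
  · rw [d0, coeff_restr_mem (by exact h), d0, coeff_restr_mem]
    · simp only [coeff_mul_gel, coeff_gel_mul, inv_inv]
    · have := deg_conj l g⁻¹ x
      simp only [inv_inv, mul_assoc] at this ⊢
      simpa [this] using h
  · rw [d0, coeff_restr_not (by exact h), d0, coeff_restr_not]
    have := deg_conj l g⁻¹ x
    simp only [inv_inv, mul_assoc] at this ⊢
    simpa [this] using h

theorem gel_mul_assoc_inv (g : G) (f : RA G) : gel g⁻¹ * (gel g * f) = f := by
  rw [← mul_assoc, gel_inv_mul, one_mul]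

theorem gel_mul_assoc_inv' (g : G) (f : RA G) : gel g * (gel g⁻¹ * f) = f := by
  rw [← mul_assoc, gel_mul_inv, one_mul]

end deg

section monoids
variable {G : Type*} [Group G] (l : G →* Multiplicative ℝ)

/-- The submonoid generated by the kernel and a list of elements. -/
def TT : List G → Submonoid G
  | [] => l.ker.toSubmonoid
  | t :: L => TT L ⊔ Submonoid.closure {t}

theorem ker_le_TT (L : List G) : ∀ x ∈ l.ker, x ∈ TT l L := by
  induction L with
  | nil => exact fun x hx => hx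
  | cons t L ih => exact fun x hx => (le_sup_left : TT l L ≤ TT l (t :: L)) (ih x hx)

theorem conj_mem_TT (L : List G) (g : G) : ∀ t ∈ TT l L, g * t * g⁻¹ ∈ TT l L := by
  intro t ht
  have h1 : g * t * g⁻¹ * t⁻¹ ∈ l.ker := by
    rw [mem_ker_iff, deg_mul, deg_conj, deg_inv]; ring
  have h2 := (TT l L).mul_mem (ker_le_TT l L _ h1) ht
  simpa using h2

theorem mem_TT_of_mem (L : List G) : ∀ t ∈ L, t ∈ TT l L := by
  induction L with
  | nil => intro t ht; simp at ht
  | cons s L ih =>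
    intro t ht
    rcases List.mem_cons.1 ht with rfl | h
    · exact (le_sup_right : Submonoid.closure {t} ≤ TT l (t :: L)) (Submonoid.mem_closure_singleton_self)
    · exact (le_sup_left : TT l L ≤ TT l (s :: L)) (ih t h)

theorem TT_le (L : List G) (hL : ∀ t ∈ L, (l t).toAdd ≤ 0) :
    ∀ x ∈ TT l L, (l x).toAdd ≤ 0 := by
  let N : Submonoid G :=
    { carrier := {x | (l x).toAdd ≤ 0}
      mul_mem' := fun {a b} ha hb => by
        simp only [Set.mem_ofPred_eq] at ha hb ⊢
        rw [deg_mul]; linarith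
      one_mem' := by simp }
  have : TT l L ≤ N := by
    induction L with
    | nil =>
      intro x hx
      exact ((mem_ker_iff l x).1 hx).le
    | cons t L ih =>
      refine sup_le (ih fun s hs => hL s (List.mem_cons_of_mem _ hs)) ?_
      rw [Submonoid.closure_le, Set.singleton_subset_iff]
      exact hL t List.mem_cons_self
  exact fun x hx => this hx

theorem mem_TT_cons (t : G) (L : List G) (x : G) (hx : x ∈ TT l (t :: L)) :
    ∃ (k : ℕ) (a : G), a ∈ TT l L ∧ x = t ^ k * a := by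
  let N : Submonoid G :=
    { carrier := {x | ∃ (k : ℕ) (a : G), a ∈ TT l L ∧ x = t ^ k * a}
      mul_mem' := by
        rintro _ _ ⟨k, a, ha, rfl⟩ ⟨k', a', ha', rfl⟩
        refine ⟨k + k', (t ^ k')⁻¹ * a * ((t ^ k')⁻¹)⁻¹ * a',
          (TT l L).mul_mem (conj_mem_TT l L _ a ha) ha', ?_⟩
        rw [pow_add]; group
      one_mem' := ⟨0, 1, (TT l L).one_mem, by simp⟩ }
  have : TT l (t :: L) ≤ N := by
    refine sup_le ?_ ?_
    · intro a ha
      exact ⟨0, a, ha, by simp⟩
    · rw [Submonoid.closure_le, Set.singleton_subset_iff]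
      exact ⟨1, 1, (TT l L).one_mem, by simp⟩
  exact this hx

theorem mem_TT_cases (L : List G) : ∀ x ∈ TT l L, x ∈ l.ker ∨ ∃ t ∈ L, t⁻¹ * x ∈ TT l L := by
  induction L with
  | nil => exact fun x hx => Or.inl hx
  | cons t L ih =>
    intro x hx
    obtain ⟨k, a, ha, rfl⟩ := mem_TT_cons l t L x hx
    rcases k with _ | k
    · rcases ih a ha with h | ⟨s, hs, h⟩
      · exact Or.inl (by simpa using h)
      · refine Or.inr ⟨s, List.mem_cons_of_mem _ hs, ?_⟩
        exact (le_sup_left : TT l L ≤ TT l (t :: L)) (by simpa using h)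
    · refine Or.inr ⟨t, List.mem_cons_self, ?_⟩
      have : t⁻¹ * (t ^ (k + 1) * a) = t ^ k * a := by
        rw [pow_succ']; group
      rw [this]
      exact (TT l (t :: L)).mul_mem ((TT l (t :: L)).pow_mem (mem_TT_of_mem l (t :: L) t
        List.mem_cons_self) k) ((le_sup_left : TT l L ≤ TT l (t :: L)) ha)

end monoids

section ideals
variable {G : Type*} [Group G]

/-- the ideal of the elements with support in `⋃ t T`, `t ∈ L` -/
def JJ (T : Submonoid G) (hT : ∀ g : G, ∀ t ∈ T, g * t * g⁻¹ ∈ T) (L : List G) :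
    Ideal (suppAlg T) where
  carrier := {f | SIn {g | ∃ t ∈ L, t⁻¹ * g ∈ T} f.1}
  add_mem' := fun {a b} ha hb => by
    show SIn _ (a + b : suppAlg T).1
    exact SIn.add ha hb
  zero_mem' := SIn.zero
  smul_mem' := fun s f hf => by
    show SIn _ (s * f : suppAlg T).1
    refine SIn.mul (X := (T : Set G)) s.2 hf ?_
    rintro x hx y ⟨t, ht, hy⟩
    refine ⟨t, ht, ?_⟩
    have h1 := T.mul_mem (hT t⁻¹ x hx) hy
    convert h1 using 1
    group

theorem mem_JJ {T : Submonoid G} {hT : ∀ g : G, ∀ t ∈ T, g * t * g⁻¹ ∈ T} {L : List G}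
    {f : suppAlg T} : f ∈ JJ T hT L ↔ SIn {g | ∃ t ∈ L, t⁻¹ * g ∈ T} f.1 := Iff.rfl

/-- the submonoid of the elements with positive degree zero part -/
noncomputable def WW (l : G →* Multiplicative ℝ) (T : Submonoid G)
    (hTl : ∀ x ∈ T, (l x).toAdd ≤ 0) : Submonoid (suppAlg T) where
  carrier := {s | Pos (d0 l s.1)}
  mul_mem' := fun {a b} ha hb => by
    show Pos (d0 l (a.1 * b.1))
    rw [d0_mul l (SIn.mono hTl a.2) (SIn.mono hTl b.2)]
    exact Pos.mul ha hb
  one_mem' := by
    show Pos (d0 l 1)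
    rw [d0_of_sin]
    · exact pos_one
    · intro g hg
      classical
      by_contra h
      apply hg
      have : g ≠ 1 := by
        rintro rfl; exact h (deg_one l)
      rw [← gel_one, coeff_gel, if_neg this]

theorem al_main (l : G →* Multiplicative ℝ) (T : Submonoid G)
    (hT : ∀ g : G, ∀ t ∈ T, g * t * g⁻¹ ∈ T) (hTl : ∀ x ∈ T, (l x).toAdd ≤ 0)
    [IsNoetherianRing (suppAlg T)] (c : suppAlg T) (L : List G)
    (hL : ∀ t ∈ L, t ∈ T ∧ (l t).toAdd < 0)
    (base : ∀ n : suppAlg T, ∃ s ∈ WW l T hTl, s * n ∈ Ideal.span {c} ⊔ JJ T hT L) :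
    ∀ n : suppAlg T, ∃ s ∈ WW l T hTl, s * n ∈ Ideal.span {c} := by
  induction L with
  | nil =>
    intro n
    obtain ⟨s, hs, h⟩ := base n
    refine ⟨s, hs, ?_⟩
    have : JJ T hT [] = ⊥ := by
      rw [eq_bot_iff]
      intro f hf
      rw [Ideal.mem_bot]
      apply Subtype.ext
      show f.1 = 0
      ext g
      by_contra h
      obtain ⟨t, ht, -⟩ := hf g (by simpa using h)
      simp at ht
    rwa [this, sup_bot_eq] at h
  | cons t L ih =>
    have htT := (hL t List.mem_cons_self).1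
    refine ih (fun s hs => hL s (List.mem_cons_of_mem _ hs)) ?_
    refine KR (WW l T hTl) c ⟨gel t, gel_mem_suppAlg htT⟩ (JJ T hT L) (JJ T hT (t :: L))
      ?_ ?_ ?_ ?_ base
    · intro a ha s
      rw [mem_JJ] at ha ⊢
      refine SIn.mul (Y := (T : Set G)) ha s.2 ?_
      rintro x ⟨t', ht', hx⟩ y hy
      refine ⟨t', ht', ?_⟩
      rw [← mul_assoc]
      exact T.mul_mem hx hy
    · intro a
      constructor
      · intro ha
        rw [mem_JJ] at ha
        have h1 := sub_restr_sin {g | ∃ t ∈ L, t⁻¹ * g ∈ T} ha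
        have hr : restr {g | ∃ t ∈ L, t⁻¹ * g ∈ T} a.1 ∈ suppAlg T := by
          intro g hg
          by_cases hgX : g ∈ {g | ∃ t ∈ L, t⁻¹ * g ∈ T}
          · rw [coeff_restr_mem hgX] at hg
            exact a.2 g hg
          · exact absurd (coeff_restr_not hgX) hg
        have hs : gel t⁻¹ * (a.1 - restr {g | ∃ t ∈ L, t⁻¹ * g ∈ T} a.1) ∈ suppAlg T := by
          intro g hg
          rw [coeff_gel_mul, inv_inv] at hg
          obtain ⟨⟨t', ht', h2⟩, h3⟩ := h1 _ hg
          rcases List.mem_cons.1 ht' with rfl | h4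
          · simpa using h2
          · exact absurd ⟨t', h4, h2⟩ h3
        refine ⟨⟨_, hr⟩, restr_sin _ _, ⟨_, hs⟩, ?_⟩
        apply Subtype.ext
        show a.1 = restr _ a.1 + gel t * (gel t⁻¹ * (a.1 - restr _ a.1))
        rw [gel_mul_assoc_inv']; abel
      · rintro ⟨j, hj, s, rfl⟩
        rw [mem_JJ] at hj ⊢
        show SIn _ (j.1 + gel t * s.1)
        refine SIn.add (hj.mono ?_) ?_
        · rintro g ⟨t', ht', h⟩
          exact ⟨t', List.mem_cons_of_mem _ ht', h⟩
        · intro g hg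
          rw [coeff_gel_mul] at hg
          exact ⟨t, List.mem_cons_self, s.2 _ hg⟩
    · intro s
      have hs' : gel t * s.1 * gel t⁻¹ ∈ suppAlg T := by
        intro g hg
        simp only [coeff_mul_gel, coeff_gel_mul, inv_inv] at hg
        have h1 := hT t _ (s.2 _ hg)
        convert h1 using 1
        group
      refine ⟨⟨_, hs'⟩, ?_, ?_⟩
      · have : (⟨gel t, gel_mem_suppAlg htT⟩ : suppAlg T) * s -
            ⟨gel t * s.1 * gel t⁻¹, hs'⟩ * ⟨gel t, gel_mem_suppAlg htT⟩ = 0 := by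
          apply Subtype.ext
          show gel t * s.1 - gel t * s.1 * gel t⁻¹ * gel t = 0
          rw [mul_assoc (gel t * s.1), gel_inv_mul, mul_one, sub_self]
        rw [this]
        exact Ideal.zero_mem _
      · intro hs
        show Pos (d0 l (gel t * s.1 * gel t⁻¹))
        rw [d0_conj]
        exact ((pos_gel t).mul hs).mul (pos_gel _)
    · intro w hw j hj
      show Pos (d0 l (w.1 - j.1))
      rw [d0_sub, d0_of_neg l (f := j.1), sub_zero]
      · exact hw
      · rw [mem_JJ] at hj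
        refine hj.mono ?_
        rintro g ⟨t', ht', h⟩
        have h1 := hTl _ h
        have h2 := (hL t' ht').2
        rw [deg_mul, deg_inv] at h1
        show (l g).toAdd < 0
        linarith

end ideals

section ore
variable {G : Type*} [Group G]

/-- common positive left multiples of finitely many elements -/
theorem ore_common {Y : Subgroup G} (hO : OrePlusOn Y) (m : ℕ) (β : Fin m → RA G)
    (hβ : ∀ i, PosOn (Y : Set G) (β i)) :
    ∃ (B : RA G) (π : Fin m → RA G), PosOn (Y : Set G) B ∧ (∀ i, PosOn (Y : Set G) (π i)) ∧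
      ∀ i, π i * β i = B := by
  induction m with
  | zero => exact ⟨1, fun i => i.elim0, posOn_one, fun i => i.elim0, fun i => i.elim0⟩
  | succ m ih =>
    obtain ⟨B, π, hB, hπ, h⟩ := ih (fun i => β i.castSucc) (fun i => hβ _)
    obtain ⟨c, d, hc, hd, hcd⟩ := hO B (β (Fin.last m)) hB (hβ _)
    refine ⟨c * B, Fin.snoc (fun i => c * π i) d, hc.mul hB, ?_, ?_⟩
    · intro i
      refine Fin.lastCases ?_ (fun i => ?_) i
      · simpa using hd
      · simpa using hc.mul (hπ i)
    · intro i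
      refine Fin.lastCases ?_ (fun i => ?_) i
      · simpa using hcd.symm
      · simp only [Fin.snoc_castSucc]
        rw [mul_assoc, h i]

/-- every element of the group ring of `Y` has a left multiple by a positive element lying in the
left ideal generated by a given positive element -/
theorem ore_any {Y : Subgroup G} (hO : OrePlusOn Y) (β : RA G) (hβ : PosOn (Y : Set G) β)
    (n : RA G) (hn : n ∈ suppAlg Y.toSubmonoid) :
    ∃ s r : RA G, PosOn (Y : Set G) s ∧ r ∈ suppAlg Y.toSubmonoid ∧ s * n = r * β := by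
  have key : ∀ f : RA G, NN f → f ∈ suppAlg Y.toSubmonoid →
      ∃ c d : RA G, PosOn (Y : Set G) c ∧ d ∈ suppAlg Y.toSubmonoid ∧ c * f = d * β := by
    intro f hf hfY
    rcases hf.pos_or with rfl | h
    · exact ⟨1, 0, posOn_one, (suppAlg _).zero_mem, by simp⟩
    · obtain ⟨c, d, hc, hd, hcd⟩ := hO f β ⟨h, hfY⟩ hβ
      exact ⟨c, d, hc, hd.2, hcd⟩
  have hpY : pp n ∈ suppAlg Y.toSubmonoid := by
    intro g hg
    apply hn g
    intro h
    exact hg (by simp [h])
  have hnY : np n ∈ suppAlg Y.toSubmonoid := by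
    intro g hg
    apply hn g
    intro h
    exact hg (by simp [h])
  obtain ⟨c1, d1, hc1, hd1, h1⟩ := key (pp n) (nn_pp n) hpY
  obtain ⟨c2, d2, hc2, hd2, h2⟩ := key (np n) (nn_np n) hnY
  obtain ⟨e1, e2, he1, he2, h3⟩ := hO c1 c2 hc1 hc2
  refine ⟨e1 * c1, e1 * d1 - e2 * d2, he1.mul hc1,
    (suppAlg _).sub_mem ((suppAlg _).mul_mem he1.2 hd1) ((suppAlg _).mul_mem he2.2 hd2), ?_⟩
  calc e1 * c1 * n = e1 * c1 * (pp n - np n) := by rw [pp_sub_np]
    _ = e1 * (c1 * pp n) - e1 * c1 * np n := by noncomm_ring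
    _ = e1 * (d1 * β) - e2 * c2 * np n := by rw [h1, h3]
    _ = e1 * (d1 * β) - e2 * (c2 * np n) := by rw [mul_assoc e2]
    _ = (e1 * d1 - e2 * d2) * β := by rw [h2]; noncomm_ring

end ore

section claims
variable {G : Type*} [Group G]

theorem sin_zero_of_ker (l : G →* Multiplicative ℝ) {f : RA G}
    (hf : f ∈ suppAlg l.ker.toSubmonoid) : SIn {x | (l x).toAdd = 0} f :=
  fun x hx => (mem_ker_iff l x).1 (hf x hx)

theorem sin_le_of_ker (l : G →* Multiplicative ℝ) {f : RA G}
    (hf : f ∈ suppAlg l.ker.toSubmonoid) : SIn {x | (l x).toAdd ≤ 0} f :=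
  (sin_zero_of_ker l hf).mono fun _ hx => le_of_eq hx

theorem d0_mem_ker (l : G →* Multiplicative ℝ) (f : RA G) :
    d0 l f ∈ suppAlg l.ker.toSubmonoid := fun x hx =>
  (mem_ker_iff l x).2 (d0_sin l _ x hx)

/-- every element of the ring has a left multiple by an element with positive degree zero part
which lies in the left ideal generated by `c` -/
theorem al_claim (l : G →* Multiplicative ℝ) (hO : OrePlusOn l.ker) (T : Submonoid G)
    (hT : ∀ g : G, ∀ t ∈ T, g * t * g⁻¹ ∈ T) (hTl : ∀ x ∈ T, (l x).toAdd ≤ 0)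
    (hker : ∀ x ∈ l.ker, x ∈ T) (L : List G) (hL : ∀ t ∈ L, t ∈ T ∧ (l t).toAdd < 0)
    (hcases : ∀ x ∈ T, x ∈ l.ker ∨ ∃ t ∈ L, t⁻¹ * x ∈ T)
    [IsNoetherianRing (suppAlg T)] (B : RA G) (hB : PosOn (l.ker : Set G) B)
    (c : suppAlg T) (hc0 : d0 l c.1 = B) :
    ∀ n : suppAlg T, ∃ s ∈ WW l T hTl, s * n ∈ Ideal.span {c} := by
  refine al_main l T hT hTl c L hL ?_
  intro n
  obtain ⟨s, r, hs, hr, hsr⟩ := ore_any hO B hB (d0 l n.1) (d0_mem_ker l _)
  have hs0 : d0 l s = s := d0_of_sin l (sin_zero_of_ker l hs.2)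
  have hr0 : d0 l r = r := d0_of_sin l (sin_zero_of_ker l hr)
  have hsT : s ∈ suppAlg T := fun x hx => hker x (hs.2 x hx)
  have hrT : r ∈ suppAlg T := fun x hx => hker x (hr x hx)
  let s' : suppAlg T := ⟨s, hsT⟩
  let r' : suppAlg T := ⟨r, hrT⟩
  refine ⟨s', ?_, ?_⟩
  · show Pos (d0 l s)
    rw [hs0]; exact hs.1
  · have hmem : s' * n - r' * c ∈ JJ T hT L := by
      rw [mem_JJ]
      intro x hx
      rcases hcases x ((s' * n - r' * c).2 x hx) with h | h
      · exfalso
        apply hx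
        have h1 : d0 l (s * n.1 - r * c.1) = 0 := by
          rw [d0_sub, d0_mul l (sin_le_of_ker l hs.2) (SIn.mono hTl n.2),
            d0_mul l (sin_le_of_ker l hr) (SIn.mono hTl c.2), hs0, hr0, hc0, hsr, sub_self]
        have h2 : (d0 l (s * n.1 - r * c.1)).coeff x = (s * n.1 - r * c.1).coeff x :=
          coeff_restr_mem ((mem_ker_iff l x).1 h)
        show (s * n.1 - r * c.1).coeff x = 0
        rw [← h2, h1]; simp
      · exact h
    have hspan : r' * c ∈ Ideal.span {c} := Ideal.mul_mem_left _ _ (Ideal.subset_span rfl)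
    have h1 : r' * c ∈ Ideal.span {c} ⊔ JJ T hT L := Ideal.mem_sup_left hspan
    have h2 : s' * n - r' * c ∈ Ideal.span {c} ⊔ JJ T hT L := Ideal.mem_sup_right hmem
    have h3 := Ideal.add_mem _ h1 h2
    rwa [add_sub_cancel] at h3

/-- common multiples -/
theorem al_common (l : G →* Multiplicative ℝ) (hD : NoZeroDivisors (RA G)) (T : Submonoid G)
    (hTl : ∀ x ∈ T, (l x).toAdd ≤ 0) (hker : ∀ x ∈ l.ker, x ∈ T)
    (B : RA G) (hB : PosOn (l.ker : Set G) B)
    (claim : ∀ c : suppAlg T, d0 l c.1 = B → ∀ n : suppAlg T, ∃ s ∈ WW l T hTl,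
      s * n ∈ Ideal.span {c}) (k : ℕ) :
    ∀ c : Fin k → suppAlg T, (∀ i, d0 l (c i).1 = B) → ∃ (y : suppAlg T) (σ : RA G)
      (s : Fin k → suppAlg T), PosOn (l.ker : Set G) σ ∧ d0 l y.1 = σ * B ∧
      (∀ i, Pos (d0 l (s i).1)) ∧ ∀ i, (s i).1 * (c i).1 = y.1 := by
  induction k with
  | zero =>
    intro c _
    refine ⟨⟨B, fun x hx => hker x (hB.2 x hx)⟩, 1, fun i => i.elim0, posOn_one, ?_,
      fun i => i.elim0, fun i => i.elim0⟩
    show d0 l B = 1 * B
    rw [one_mul, d0_of_sin l (sin_zero_of_ker l hB.2)]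
  | succ k ih =>
    intro c hc
    obtain ⟨y, σ, s, hσ, hy, hs, hsy⟩ := ih (fun i => c i.castSucc) (fun i => hc _)
    obtain ⟨w, hw, hwy⟩ := claim (c (Fin.last k)) (hc _) y
    obtain ⟨t, ht⟩ := Ideal.mem_span_singleton'.1 hwy
    have ht' : t.1 * (c (Fin.last k)).1 = w.1 * y.1 := congrArg Subtype.val ht
    have hw' : Pos (d0 l w.1) := hw
    have hwker : PosOn (l.ker : Set G) (d0 l w.1) := ⟨hw', d0_mem_ker l _⟩
    have ht0 : d0 l t.1 = d0 l w.1 * σ := by
      have h1 : d0 l (t.1 * (c (Fin.last k)).1) = d0 l (w.1 * y.1) := by rw [ht']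
      rw [d0_mul l (SIn.mono hTl t.2) (SIn.mono hTl (c _).2), d0_mul l (SIn.mono hTl w.2)
        (SIn.mono hTl y.2), hc, hy, ← mul_assoc] at h1
      have h2 : (d0 l t.1 - d0 l w.1 * σ) * B = 0 := by rw [sub_mul, h1, sub_self]
      rcases mul_eq_zero.1 h2 with h3 | h3
      · exact sub_eq_zero.1 h3
      · exact absurd h3 hB.1.1
    refine ⟨w * y, d0 l w.1 * σ, Fin.snoc (fun i => w * s i) t, hwker.mul hσ, ?_, ?_, ?_⟩
    · show d0 l (w.1 * y.1) = _
      rw [d0_mul l (SIn.mono hTl w.2) (SIn.mono hTl y.2), hy, mul_assoc]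
    · intro i
      refine Fin.lastCases ?_ (fun i => ?_) i
      · simp only [Fin.snoc_last]
        rw [ht0]; exact hw'.mul hσ.1
      · simp only [Fin.snoc_castSucc]
        show Pos (d0 l (w.1 * (s i).1))
        rw [d0_mul l (SIn.mono hTl w.2) (SIn.mono hTl (s i).2)]
        exact hw'.mul (hs i)
    · intro i
      refine Fin.lastCases ?_ (fun i => ?_) i
      · simp only [Fin.snoc_last]
        rw [ht']; rfl
      · simp only [Fin.snoc_castSucc]
        show w.1 * (s i).1 * (c i.castSucc).1 = w.1 * y.1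
        rw [mul_assoc, hsy i]

end claims

/-- The statement of the module, assuming that the rings `suppAlg (TT l L)` are noetherian. -/
theorem alam_aux {G : Type*} [Group G]
    (hD : NoZeroDivisors (RA G)) (l : G →* Multiplicative ℝ) (hO : OrePlusOn l.ker)
    (hN : ∀ L : List G, IsNoetherianRing (suppAlg (TT l L)))
    (b : RA G) (hb : Pos b) (m : ℕ) (g : Fin m → G) :
    ∃ u : Fin m → RA G,
      (∀ i j, u i * (gel (g i) * b * gel (g i)⁻¹) = u j * (gel (g j) * b * gel (g j)⁻¹)) ∧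
      ∃ d : ℝ, ∀ i, (∀ x, (u i).coeff x < 0 → (l x).toAdd < d) ∧
        ∃ x, (l x).toAdd = d ∧ 0 < (u i).coeff x := by
  classical
  -- the maximal degree
  obtain ⟨x0, hx0⟩ := hb.exists_pos
  obtain ⟨γ, hγ, hmax⟩ := Finset.exists_max_image b.coeff.support (fun x => (l x).toAdd)
    ⟨x0, by simpa using hx0.ne'⟩
  have hγ0 : 0 < b.coeff γ :=
    lt_of_le_of_ne (hb.2 γ) (Finsupp.mem_support_iff.1 hγ).symm
  have hsuppb : ∀ x, b.coeff x ≠ 0 → (l x).toAdd ≤ (l γ).toAdd := fun x hx =>
    hmax x (by simpa using hx)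
  -- shifted conjugates
  obtain ⟨bb, hbbdef⟩ : ∃ bb : Fin m → RA G,
      ∀ i, bb i = gel γ⁻¹ * (gel (g i) * b * gel (g i)⁻¹) := ⟨_, fun _ => rfl⟩
  have hbb : ∀ i x, (bb i).coeff x = b.coeff ((g i)⁻¹ * (γ * x) * g i) := by
    intro i x
    simp only [hbbdef, coeff_gel_mul, coeff_mul_gel, inv_inv, mul_assoc]
  have hbbnn : ∀ i, NN (bb i) := fun i x => by rw [hbb]; exact hb.2 _
  have hbbdeg : ∀ i, SIn {x | (l x).toAdd ≤ 0} (bb i) := by
    intro i x hx
    rw [hbb] at hx
    have h1 := hsuppb _ hx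
    have h2 := deg_conj l (g i)⁻¹ (γ * x)
    rw [inv_inv] at h2
    rw [h2, deg_mul] at h1
    show (l x).toAdd ≤ 0
    linarith
  have hβ : ∀ i, PosOn (l.ker : Set G) (d0 l (bb i)) := by
    intro i
    refine ⟨pos_of (restr_nn (hbbnn i)) (γ⁻¹ * (g i * γ * (g i)⁻¹)) ?_, d0_mem_ker l _⟩
    rw [d0, coeff_restr_mem, hbb]
    · convert hγ0 using 2; group
    · show (l _).toAdd = 0
      rw [deg_mul, deg_conj, deg_inv]; ring
  obtain ⟨B, π, hB, hπ, hπB⟩ := ore_common hO m (fun i => d0 l (bb i)) hβ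
  have hcdeg : ∀ i, SIn {x | (l x).toAdd ≤ 0} (π i * bb i) := fun i => by
    refine (sin_le_of_ker l (hπ i).2).mul (hbbdeg i) ?_
    intro x hx y hy
    simp only [Set.mem_ofPred_eq] at hx hy ⊢
    rw [deg_mul]; linarith
  have hc0 : ∀ i, d0 l (π i * bb i) = B := fun i => by
    rw [d0_mul l (sin_le_of_ker l (hπ i).2) (hbbdeg i),
      d0_of_sin l (sin_zero_of_ker l (hπ i).2)]
    exact hπB i
  -- the list of elements of negative degree
  obtain ⟨L, hLdef⟩ : ∃ L : List G, L = ((Finset.univ.biUnion fun i =>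
    (π i * bb i).coeff.support).filter fun x => (l x).toAdd < 0).toList := ⟨_, rfl⟩
  have hLneg : ∀ t ∈ L, (l t).toAdd < 0 := fun t ht => by
    rw [hLdef, Finset.mem_toList, Finset.mem_filter] at ht
    exact ht.2
  have hTl := TT_le l L fun t ht => (hLneg t ht).le
  have hT := conj_mem_TT l L
  have hker := ker_le_TT l L
  have hLT : ∀ t ∈ L, t ∈ TT l L ∧ (l t).toAdd < 0 := fun t ht =>
    ⟨mem_TT_of_mem l L t ht, hLneg t ht⟩
  have hcases := mem_TT_cases l L
  have hcT : ∀ i, π i * bb i ∈ suppAlg (TT l L) := by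
    intro i x hx
    rcases lt_or_eq_of_le (show (l x).toAdd ≤ 0 from hcdeg i x hx) with h | h
    · apply mem_TT_of_mem
      rw [hLdef, Finset.mem_toList, Finset.mem_filter, Finset.mem_biUnion]
      exact ⟨⟨i, Finset.mem_univ i, Finsupp.mem_support_iff.2 hx⟩, h⟩
    · exact hker x ((mem_ker_iff l x).2 h)
  have hNL := hN L
  generalize TT l L = T at *
  obtain ⟨y, σ, s, hσ, hy, hs, hsy⟩ := al_common l hD T hTl hker B hB
    (fun c hc => al_claim l hO T hT hTl hker L hLT hcases B hB c hc) m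
    (fun i => ⟨π i * bb i, hcT i⟩) hc0
  have hprod : ∀ i, (s i).1 * π i * gel γ⁻¹ * (gel (g i) * b * gel (g i)⁻¹) = y.1 := by
    intro i
    rw [← show (s i).1 * (π i * bb i) = y.1 from hsy i, hbbdef i]
    simp only [mul_assoc]
  have hcoef : ∀ i x, ((s i).1 * π i * gel γ⁻¹).coeff x = ((s i).1 * π i).coeff (x * γ) := by
    intro i x
    rw [coeff_mul_gel, inv_inv]
  have hdeg : ∀ i, SIn {x | (l x).toAdd ≤ 0} ((s i).1 * π i) := by
    intro i
    refine (SIn.mono (Y := {x | (l x).toAdd ≤ 0}) hTl (s i).2).mul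
      (sin_le_of_ker l (hπ i).2) ?_
    intro x hx y hy
    simp only [Set.mem_ofPred_eq] at hx hy ⊢
    rw [deg_mul]; linarith
  have hd0pos : ∀ i, Pos (d0 l ((s i).1 * π i)) := by
    intro i
    rw [d0_mul l (SIn.mono hTl (s i).2) (sin_le_of_ker l (hπ i).2),
      d0_of_sin l (sin_zero_of_ker l (hπ i).2)]
    exact (hs i).mul (hπ i).1
  refine ⟨fun i => (s i).1 * π i * gel γ⁻¹, fun i j => by rw [hprod i, hprod j],
    -(l γ).toAdd, fun i => ⟨fun x hx => ?_, ?_⟩⟩
  · rw [hcoef] at hx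
    have h1 : (l (x * γ)).toAdd ≤ 0 := hdeg i (x * γ) hx.ne
    have h2 : (l (x * γ)).toAdd ≠ 0 := by
      intro h
      have h3 := (hd0pos i).2 (x * γ)
      rw [d0, coeff_restr_mem (by exact h)] at h3
      linarith
    have h3 : (l (x * γ)).toAdd < 0 := lt_of_le_of_ne h1 h2
    rw [deg_mul] at h3
    linarith
  · obtain ⟨z, hz⟩ := (hd0pos i).exists_pos
    have hz0 : (l z).toAdd = 0 := d0_sin l _ z hz.ne'
    refine ⟨z * γ⁻¹, ?_, ?_⟩
    · rw [deg_mul, deg_inv, hz0, zero_add]
    · rw [hcoef]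
      rw [d0, coeff_restr_mem (by exact hz0)] at hz
      simpa using hz

theorem noeth_TT {G : Type*} [Group G] {n : ℕ} (h : CCh n (⊤ : Subgroup G))
    (l : G →* Multiplicative ℝ) (L : List G) : IsNoetherianRing (suppAlg (TT l L)) := by
  induction L with
  | nil =>
    obtain ⟨m, -, hm⟩ := h.inf l.ker inferInstance
    rw [inf_top_eq] at hm
    exact noeth_chain hm
  | cons t L ih =>
    refine noeth_step (TT l L) t (fun x hx => conj_mem_TT l L t x hx) (fun x hx => ?_) ih
    have := conj_mem_TT l L t⁻¹ x hx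
    rwa [inv_inv] at this

/-- MODULE AL -/
theorem alam {G : Type*} [Group G] {n : ℕ} (h : CCh n (⊤ : Subgroup G))
    (hD : NoZeroDivisors (RA G)) (l : G →* Multiplicative ℝ) (hO : OrePlusOn l.ker)
    (b : RA G) (hb : Pos b) (m : ℕ) (g : Fin m → G) :
    ∃ u : Fin m → RA G,
      (∀ i j, u i * (gel (g i) * b * gel (g i)⁻¹) = u j * (gel (g j) * b * gel (g j)⁻¹)) ∧
      ∃ d : ℝ, ∀ i, (∀ x, (u i).coeff x < 0 → (l x).toAdd < d) ∧
        ∃ x, (l x).toAdd = d ∧ 0 < (u i).coeff x :=
  alam_aux hD l hO (noeth_TT h l) b hb m g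

end Bludov
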