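import Pool.Agent.helper77.Bludov.Defs

/-!
# Basic lemmas: positive elements of the real group ring, maximal cones
-/

set_option linter.unusedSectionVars false

namespace Bludov

section ring
variable {G : Type*} [Group G]

@[simp] theorem coeff_gel_mul (g : G) (f : RA G) (h : G) :
    (gel g * f).coeff h = f.coeff (g⁻¹ * h) := by
  simp [gel, MonoidAlgebra.coeff_single_mul_apply]

@[simp] theorem coeff_mul_gel (f : RA G) (g h : G) :
    (f * gel g).coeff h = f.coeff (h * g⁻¹) := by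
  simp [gel, MonoidAlgebra.coeff_mul_single_apply]

@[simp] theorem coeff_sc_mul (r : ℝ) (f : RA G) (h : G) :
    (sc r * f).coeff h = r * f.coeff h := by
  simp [sc, MonoidAlgebra.coeff_single_mul_apply]

@[simp] theorem coeff_mul_sc (r : ℝ) (f : RA G) (h : G) :
    (f * sc r).coeff h = f.coeff h * r := by
  simp [sc, MonoidAlgebra.coeff_mul_single_apply]

theorem coeff_gel [DecidableEq G] (g h : G) :
    (gel g : RA G).coeff h = if h = g then 1 else 0 := by
  simp [gel, Finsupp.single_apply, eq_comm]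

theorem coeff_sc [DecidableEq G] (r : ℝ) (h : G) :
    (sc r : RA G).coeff h = if h = 1 then r else 0 := by
  simp [sc, Finsupp.single_apply, eq_comm]

theorem gel_mul (g h : G) : (gel (g * h) : RA G) = gel g * gel h := by
  simp [gel, MonoidAlgebra.single_mul_single]

@[simp] theorem gel_one : (gel 1 : RA G) = 1 := rfl

@[simp] theorem sc_one : (sc 1 : RA G) = 1 := rfl

@[simp] theorem sc_zero : (sc 0 : RA G) = 0 := by simp [sc]

theorem sc_mul (r s : ℝ) : (sc (r * s) : RA G) = sc r * sc s := by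
  simp [sc, MonoidAlgebra.single_mul_single]

theorem sc_add (r s : ℝ) : (sc (r + s) : RA G) = sc r + sc s := by
  simp [sc, MonoidAlgebra.single_add]

theorem sc_sub (r s : ℝ) : (sc (r - s) : RA G) = sc r - sc s := by
  simp [sc, MonoidAlgebra.single_sub]

theorem sc_neg (r : ℝ) : (sc (-r) : RA G) = -sc r := by
  simp [sc, MonoidAlgebra.single_neg]

theorem sc_comm (r : ℝ) (f : RA G) : sc r * f = f * sc r := by
  ext h; simp [mul_comm]

@[simp] theorem gel_inv_mul (g : G) : (gel g⁻¹ * gel g : RA G) = 1 := by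
  rw [← gel_mul]; simp

@[simp] theorem gel_mul_inv (g : G) : (gel g * gel g⁻¹ : RA G) = 1 := by
  rw [← gel_mul]; simp

theorem single_eq (g : G) (r : ℝ) : (MonoidAlgebra.single g r : RA G) = sc r * gel g := by
  simp [sc, gel, MonoidAlgebra.single_mul_single]

theorem eq_sum (f : RA G) : f = ∑ g ∈ f.coeff.support, sc (f.coeff g) * gel g := by
  conv_lhs => rw [← MonoidAlgebra.sum_coeff_single f]
  simp only [Finsupp.sum, single_eq]

/-! ### nonnegative elements -/

/-- elements with nonnegative coefficients, possibly zero -/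
def NN (f : RA G) : Prop := ∀ g, 0 ≤ f.coeff g

theorem Pos.nn {f : RA G} (h : Pos f) : NN f := h.2

theorem NN.pos_or {f : RA G} (h : NN f) : f = 0 ∨ Pos f := by
  by_cases h0 : f = 0
  · exact Or.inl h0
  · exact Or.inr ⟨h0, h⟩

theorem nn_zero : NN (0 : RA G) := fun g => by simp

theorem NN.add {a b : RA G} (ha : NN a) (hb : NN b) : NN (a + b) := fun g => by
  simpa using add_nonneg (ha g) (hb g)

theorem NN.mul {a b : RA G} (ha : NN a) (hb : NN b) : NN (a * b) := by
  classical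
  intro g
  rw [MonoidAlgebra.coeff_mul_apply_left]
  exact Finsupp.sum_nonneg (fun h _ => mul_nonneg (ha h) (hb _))

theorem nn_sum {ι : Type*} (s : Finset ι) (f : ι → RA G) (h : ∀ i ∈ s, NN (f i)) :
    NN (∑ i ∈ s, f i) := by
  intro g
  rw [MonoidAlgebra.coeff_sum, Finsupp.finsetSum_apply]
  exact Finset.sum_nonneg fun i hi => h i hi g

theorem nn_sc {r : ℝ} (hr : 0 ≤ r) : NN (sc r : RA G) := by
  classical
  intro g; rw [coeff_sc]; split_ifs <;> simp [hr]

theorem Pos.ne {f : RA G} (h : Pos f) : f ≠ 0 := h.1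

theorem Pos.exists_pos {f : RA G} (h : Pos f) : ∃ g, 0 < f.coeff g := by
  by_contra hc
  push Not at hc
  exact h.1 (by ext g; exact le_antisymm (hc g) (h.2 g))

theorem pos_of {f : RA G} (h : NN f) (g : G) (hg : 0 < f.coeff g) : Pos f :=
  ⟨by rintro rfl; simp at hg, h⟩

theorem Pos.add_nn {a b : RA G} (ha : Pos a) (hb : NN b) : Pos (a + b) := by
  obtain ⟨g, hg⟩ := ha.exists_pos
  refine pos_of (ha.nn.add hb) g ?_
  simpa using add_pos_of_pos_of_nonneg hg (hb g)

theorem Pos.nn_add {a b : RA G} (ha : NN a) (hb : Pos b) : Pos (a + b) := by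
  rw [add_comm]; exact hb.add_nn ha

theorem Pos.add {a b : RA G} (ha : Pos a) (hb : Pos b) : Pos (a + b) := ha.add_nn hb.nn

theorem pos_gel (g : G) : Pos (gel g : RA G) := by
  classical
  refine pos_of (fun h => ?_) g ?_
  · rw [coeff_gel]; split_ifs <;> norm_num
  · rw [coeff_gel]; simp

theorem pos_one : Pos (1 : RA G) := by simpa using pos_gel (1 : G)

theorem pos_sc {r : ℝ} (hr : 0 < r) : Pos (sc r : RA G) := by
  classical
  refine pos_of (fun h => ?_) 1 ?_
  · rw [coeff_sc]; split_ifs <;> simp [hr.le]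
  · rw [coeff_sc]; simp [hr]

theorem Pos.mul {a b : RA G} (ha : Pos a) (hb : Pos b) : Pos (a * b) := by
  classical
  obtain ⟨g, hg⟩ := ha.exists_pos
  obtain ⟨h, hh⟩ := hb.exists_pos
  refine pos_of (ha.nn.mul hb.nn) (g * h) ?_
  rw [MonoidAlgebra.coeff_mul_apply_left, Finsupp.sum]
  refine Finset.sum_pos' (fun x _ => mul_nonneg (ha.2 x) (hb.2 _)) ⟨g, ?_, ?_⟩
  · simpa using hg.ne'
  · simpa using mul_pos hg hh

theorem pos_sum {ι : Type*} (s : Finset ι) (f : ι → RA G) (h : ∀ i ∈ s, NN (f i))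
    (i : ι) (hi : i ∈ s) (hp : Pos (f i)) : Pos (∑ i ∈ s, f i) := by
  classical
  rw [← Finset.add_sum_erase s f hi]
  exact hp.add_nn (nn_sum _ _ fun j hj => h j (Finset.mem_of_mem_erase hj))

/-! ### elements supported on a subset -/

theorem PosOn.pos {Y : Set G} {f : RA G} (h : PosOn Y f) : Pos f := h.1

theorem PosOn.mono {Y Y' : Set G} (hY : Y ⊆ Y') {f : RA G} (h : PosOn Y f) : PosOn Y' f :=
  ⟨h.1, fun g hg => hY (h.2 g hg)⟩

theorem mem_suppAlg {T : Submonoid G} {f : RA G} :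
    f ∈ suppAlg T ↔ ∀ g, f.coeff g ≠ 0 → g ∈ T := Iff.rfl

theorem gel_mem_suppAlg {T : Submonoid G} {g : G} (hg : g ∈ T) : (gel g : RA G) ∈ suppAlg T := by
  classical
  intro h hh
  rw [coeff_gel] at hh
  split_ifs at hh with h1
  · rw [h1]; exact hg
  · exact absurd rfl hh

theorem sc_mem_suppAlg {T : Submonoid G} (r : ℝ) : (sc r : RA G) ∈ suppAlg T := by
  classical
  intro h hh
  rw [coeff_sc] at hh
  split_ifs at hh with h1
  · rw [h1]; exact T.one_mem
  · exact absurd rfl hh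

theorem posOn_iff {Y : Subgroup G} {f : RA G} :
    PosOn (Y : Set G) f ↔ Pos f ∧ f ∈ suppAlg Y.toSubmonoid := Iff.rfl

theorem posOn_top {f : RA G} : PosOn ((⊤ : Subgroup G) : Set G) f ↔ Pos f :=
  ⟨fun h => h.1, fun h => ⟨h, fun _ _ => trivial⟩⟩

variable {Y : Subgroup G}

theorem PosOn.mul {a b : RA G} (ha : PosOn (Y : Set G) a) (hb : PosOn (Y : Set G) b) :
    PosOn (Y : Set G) (a * b) :=
  posOn_iff.2 ⟨ha.1.mul hb.1, (suppAlg Y.toSubmonoid).mul_mem ha.2 hb.2⟩

theorem PosOn.add {a b : RA G} (ha : PosOn (Y : Set G) a) (hb : PosOn (Y : Set G) b) :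
    PosOn (Y : Set G) (a + b) :=
  posOn_iff.2 ⟨ha.1.add hb.1, (suppAlg Y.toSubmonoid).add_mem ha.2 hb.2⟩

theorem posOn_gel {g : G} (hg : g ∈ Y) : PosOn (Y : Set G) (gel g) :=
  posOn_iff.2 ⟨pos_gel g, gel_mem_suppAlg hg⟩

theorem posOn_sc {r : ℝ} (hr : 0 < r) : PosOn (Y : Set G) (sc r : RA G) :=
  posOn_iff.2 ⟨pos_sc hr, sc_mem_suppAlg r⟩

theorem posOn_one : PosOn (Y : Set G) (1 : RA G) := by
  simpa using posOn_gel Y.one_mem

theorem posOn_sum {ι : Type*} (s : Finset ι) (f : ι → RA G) (h : ∀ i ∈ s, PosOn (Y : Set G) (f i))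
    (hs : s.Nonempty) : PosOn (Y : Set G) (∑ i ∈ s, f i) := by
  obtain ⟨i, hi⟩ := hs
  refine posOn_iff.2 ⟨pos_sum s f (fun j hj => (h j hj).1.nn) i hi (h i hi).1, ?_⟩
  exact (suppAlg Y.toSubmonoid).sum_mem fun j hj => (h j hj).2

theorem PosOn.conj [Y.Normal] {s : RA G} (hs : PosOn (Y : Set G) s) (g : G) :
    PosOn (Y : Set G) (gel g * s * gel g⁻¹) := by
  refine ⟨((pos_gel g).mul hs.1).mul (pos_gel g⁻¹), fun h hh => ?_⟩
  simp only [coeff_mul_gel, coeff_gel_mul, inv_inv] at hh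
  have h1 := hs.2 _ hh
  have h2 := (inferInstance : Y.Normal).conj_mem _ h1 g
  simpa [mul_assoc] using h2

/-! ### positive and negative parts -/

/-- positive part -/
noncomputable def pp (f : RA G) : RA G :=
  MonoidAlgebra.ofCoeff (f.coeff.mapRange (fun r => max r 0) (by simp))

/-- negative part -/
noncomputable def np (f : RA G) : RA G :=
  MonoidAlgebra.ofCoeff (f.coeff.mapRange (fun r => max (-r) 0) (by simp))

@[simp] theorem coeff_pp (f : RA G) (g : G) : (pp f).coeff g = max (f.coeff g) 0 := by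
  simp [pp]

@[simp] theorem coeff_np (f : RA G) (g : G) : (np f).coeff g = max (-f.coeff g) 0 := by
  simp [np]

theorem nn_pp (f : RA G) : NN (pp f) := fun g => by simp

theorem nn_np (f : RA G) : NN (np f) := fun g => by simp

theorem pp_sub_np (f : RA G) : pp f - np f = f := by
  ext g
  simp only [MonoidAlgebra.coeff_sub, Finsupp.sub_apply, coeff_pp, coeff_np]
  rcases le_total 0 (f.coeff g) with h | h
  · rw [max_eq_left h, max_eq_right (by linarith)]; ring
  · rw [max_eq_right h, max_eq_left (by linarith)]; ring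

end ring

section cone
variable {G V : Type*} [Group G] [AddCommGroup V] [Module (RA G) V]
  {K : AddSubmonoid V} {ε : V}

theorem IsMaxCone.nn_smul (h : IsMaxCone G K ε) {a : RA G} (ha : NN a) {v : V} (hv : v ∈ K) :
    a • v ∈ K := by
  rcases ha.pos_or with rfl | ha
  · simp
  · exact h.smul a ha v hv

/-- one term of a positive element is dominated by the element -/
theorem IsMaxCone.term_le (h : IsMaxCone G K ε) {a : RA G} (ha : NN a) {v : V} (hv : v ∈ K)
    (g : G) : a • v - (sc (a.coeff g) * gel g) • v ∈ K := by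
  classical
  rw [← sub_smul]
  refine h.nn_smul (fun x => ?_) hv
  simp only [MonoidAlgebra.coeff_sub, Finsupp.sub_apply, coeff_sc_mul, coeff_gel]
  split_ifs with hx
  · subst hx; simp
  · simpa using ha x

/-- if `0 < a(g)` then `v ≤ a(g)⁻¹ g⁻¹ a v` -/
theorem IsMaxCone.le_of_term (h : IsMaxCone G K ε) {a : RA G} (ha : NN a) {v : V} (hv : v ∈ K)
    (g : G) (hg : 0 < a.coeff g) :
    (sc (a.coeff g)⁻¹ * gel g⁻¹ * a) • v - v ∈ K := by
  have h1 := h.term_le ha hv g
  have h2 := h.smul (sc (a.coeff g)⁻¹ * gel g⁻¹)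
    ((pos_sc (inv_pos.2 hg)).mul (pos_gel _)) _ h1
  rw [smul_sub, smul_smul, smul_smul] at h2
  have h3 : sc (a.coeff g)⁻¹ * gel g⁻¹ * (sc (a.coeff g) * gel g) = (1 : RA G) := by
    rw [mul_assoc, ← mul_assoc (gel g⁻¹), ← sc_comm (a.coeff g), mul_assoc (sc (a.coeff g)),
      gel_inv_mul, mul_one, ← sc_mul, inv_mul_cancel₀ hg.ne', sc_one]
  rwa [h3, one_smul] at h2

theorem IsMaxCone.neg_smul_eps (h : IsMaxCone G K ε) {a : RA G} (ha : Pos a) :
    -(a • ε) ∉ K := by
  intro hn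
  obtain ⟨g, hg⟩ := ha.exists_pos
  have h1 := h.le_of_term ha.nn h.eps_mem g hg
  have h2 := h.smul (sc (a.coeff g)⁻¹ * gel g⁻¹)
    ((pos_sc (inv_pos.2 hg)).mul (pos_gel _)) _ hn
  have h3 := K.add_mem h1 h2
  rw [smul_neg, smul_smul] at h3
  apply h.neg_eps
  convert h3 using 1
  abel

/-- maximality with respect to the unit `a₀ • ε` -/
theorem IsMaxCone.max' (h : IsMaxCone G K ε) {a₀ : RA G} (ha₀ : Pos a₀) {w : V} (hw : w ∉ K) :
    ∃ k ∈ K, ∃ a : RA G, Pos a ∧ -(a₀ • ε) = k + a • w := by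
  obtain ⟨k, hk, a, ha, he⟩ := h.max w hw
  refine ⟨a₀ • k, h.smul _ ha₀ _ hk, a₀ * a, ha₀.mul ha, ?_⟩
  rw [← smul_neg, he, smul_add, smul_smul]

theorem IsMaxCone.gen' (h : IsMaxCone G K ε) (w : V) :
    ∃ a : RA G, Pos a ∧ a • ε + w ∈ K ∧ a • ε - w ∈ K := by
  obtain ⟨a, ha, h1⟩ := h.gen w
  obtain ⟨b, hb, h2⟩ := h.gen (-w)
  refine ⟨a + b, ha.add hb, ?_, ?_⟩
  · have := K.add_mem h1 (h.smul b hb _ h.eps_mem)
    rw [add_smul]
    convert this using 1
    abel
  · have := K.add_mem h2 (h.smul a ha _ h.eps_mem)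
    rw [add_smul]
    convert this using 1
    abel

end cone

end Bludov
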