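import Pool.Agent.helper77.Bludov.Basic
import Pool.Agent.helper14.FA.MaxCond

/-!
# C1 : finitely generated nilpotent groups have central cyclic chains
-/

namespace Bludov

open Pool.Agent.helper14.FA

theorem normal_sup_zpowers {G : Type*} [Group G] {Y : Subgroup G} (hY : Y.Normal) (z : G)
    (hz : ∀ g : G, g * z * g⁻¹ * z⁻¹ ∈ Y) : (Y ⊔ Subgroup.zpowers z).Normal := by
  haveI := hY
  refine ⟨fun n hn g => ?_⟩
  rw [Subgroup.mem_sup_of_normal_left] at hn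
  obtain ⟨y, hy, w, hw, rfl⟩ := hn
  obtain ⟨k, rfl⟩ := Subgroup.mem_zpowers_iff.1 hw
  have h1 : g * (y * z ^ k) * g⁻¹ = (g * y * g⁻¹) * (g * z * g⁻¹) ^ k := by
    rw [conj_zpow]; group
  rw [h1]
  apply mul_mem
  · exact Subgroup.mem_sup_left (hY.conj_mem y hy g)
  · apply zpow_mem
    have h2 : g * z * g⁻¹ = (g * z * g⁻¹ * z⁻¹) * z := by group
    rw [h2]
    exact mul_mem (Subgroup.mem_sup_left (hz g)) (Subgroup.mem_sup_right (Subgroup.mem_zpowers z))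

theorem CCh.normal_aux {G : Type*} [Group G] {n : ℕ} {Y : Subgroup G} (h : CCh n Y) :
    Y.Normal := by
  induction h with
  | bot => infer_instance
  | step z _ hz ih => exact normal_sup_zpowers ih z hz

/-- C1 -/
theorem exists_cch (G : Type*) [Group G] [Group.FG G] [Group.IsNilpotent G] :
    ∃ n, CCh n (⊤ : Subgroup G) := by
  have hwf := (maxCond_of_nilpotent G inferInstance).wf
  obtain ⟨Y, ⟨n, hY⟩, hmax⟩ := hwf.wf.has_min {Y : Subgroup G | ∃ n, CCh n Y} ⟨⊥, 0, CCh.bot⟩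
  by_cases hT : Y = ⊤
  · exact ⟨n, hT ▸ hY⟩
  exfalso
  haveI := hY.normal_aux
  have hx : ∃ x : G, x ∉ Y := by
    by_contra hc
    push Not at hc
    exact hT (eq_top_iff.2 fun x _ => hc x)
  obtain ⟨x, hx⟩ := hx
  haveI : Nontrivial (G ⧸ Y) := ⟨(x : G ⧸ Y), 1, fun h => hx ((QuotientGroup.eq_one_iff x).1 h)⟩
  have hc : Subgroup.center (G ⧸ Y) ≠ ⊥ := Group.IsNilpotent.center_ne_bot (G ⧸ Y)
  obtain ⟨⟨c, hc⟩, hc1⟩ := Subgroup.ne_bot_iff_exists_ne_one.1 hc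
  obtain ⟨z, rfl⟩ := QuotientGroup.mk_surjective c
  have hzY : z ∉ Y := fun h => hc1 (Subtype.ext ((QuotientGroup.eq_one_iff z).2 h))
  have hz : ∀ g : G, g * z * g⁻¹ * z⁻¹ ∈ Y := by
    intro g
    rw [← QuotientGroup.eq_one_iff]
    have h1 := Subgroup.mem_center_iff.1 hc (g : G ⧸ Y)
    rw [QuotientGroup.mk_mul, QuotientGroup.mk_mul, QuotientGroup.mk_mul, QuotientGroup.mk_inv,
      QuotientGroup.mk_inv, h1]
    group
  refine hmax (Y ⊔ Subgroup.zpowers z) ⟨n + 1, CCh.step z hY hz⟩ ?_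
  refine lt_of_le_of_ne le_sup_left fun h => hzY ?_
  rw [h]
  exact Subgroup.mem_sup_right (Subgroup.mem_zpowers z)

end Bludov
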