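import Pool.Agent.helper77.Bludov.Basic

/-!
# The free abelianization of a finitely generated group
-/

namespace Bludov

/-- C3 -/
theorem free_quot (G : Type*) [Group G] [Group.FG G] :
    ∃ (r : ℕ) (φ : G →* Multiplicative (Fin r → ℤ)), Function.Surjective φ ∧
      ∀ (l : G →* Multiplicative ℝ) (g : G), φ g = 1 → l g = 1 := by
  let A := Additive (Abelianization G)
  have : Group.FG (Abelianization G) :=
    Group.fg_of_surjective (f := (Abelianization.of : G →* Abelianization G))
      (QuotientGroup.mk'_surjective _)
  have : AddGroup.FG A := inferInstance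
  have : Module.Finite ℤ A := Module.Finite.iff_addGroup_fg.2 inferInstance
  let B := A ⧸ Submodule.torsion ℤ A
  have : Module.Finite ℤ B := inferInstance
  have : Module.Free ℤ B := inferInstance
  let e : B ≃ₗ[ℤ] (Fin (Module.finrank ℤ B) → ℤ) := (Module.finBasis ℤ B).equivFun
  let ψ : A →ₗ[ℤ] (Fin (Module.finrank ℤ B) → ℤ) := e.toLinearMap.comp (Submodule.mkQ _)
  let φ : G →* Multiplicative (Fin (Module.finrank ℤ B) → ℤ) :=
    (AddMonoidHom.toMultiplicative ψ.toAddMonoidHom).comp
      ((MulEquiv.multiplicativeAdditive (Abelianization G)).symm.toMonoidHom.comp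
        (Abelianization.of : G →* Abelianization G))
  refine ⟨Module.finrank ℤ B, φ, ?_, ?_⟩
  · intro v
    obtain ⟨b, hb⟩ := e.surjective v.toAdd
    obtain ⟨a, rfl⟩ := Submodule.mkQ_surjective _ b
    obtain ⟨g, hg⟩ := (QuotientGroup.mk'_surjective (commutator G)) a.toMul
    refine ⟨g, ?_⟩
    have h1 : (φ g).toAdd = ψ (Additive.ofMul (Abelianization.of g)) := rfl
    have h2 : Additive.ofMul (Abelianization.of g) = a := by
      apply Additive.toMul.injective
      exact hg
    have h3 : (φ g).toAdd = v.toAdd := by
      rw [h1, h2]; exact hb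
    exact Multiplicative.toAdd.injective h3
  · intro l g hg
    have h1 : ψ (Additive.ofMul (Abelianization.of g)) = 0 := by
      have : (φ g).toAdd = ψ (Additive.ofMul (Abelianization.of g)) := rfl
      rw [← this, hg]; rfl
    have h2 : (Submodule.mkQ (Submodule.torsion ℤ A)) (Additive.ofMul (Abelianization.of g)) = 0 := by
      apply e.injective
      rw [map_zero]
      exact h1
    rw [Submodule.mkQ_apply, Submodule.Quotient.mk_eq_zero, Submodule.mem_torsion_iff] at h2
    obtain ⟨a, ha⟩ := h2
    have ha0 : (a : ℤ) ≠ 0 := nonZeroDivisors.coe_ne_zero a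
    have h3 : (Abelianization.of g) ^ (a : ℤ) = 1 := by
      apply Additive.ofMul.injective
      exact ha
    have h4 : (l g) ^ (a : ℤ) = 1 := by
      have := congrArg (Abelianization.lift l) h3
      simpa using this
    have h5 : ((a : ℤ) : ℝ) * (l g).toAdd = 0 := by
      have := congrArg Multiplicative.toAdd h4
      simpa [toAdd_zpow] using this
    rcases mul_eq_zero.1 h5 with h6 | h6
    · exact absurd (by exact_mod_cast h6) ha0
    · rw [← ofAdd_toAdd (l g), h6]; rfl

end Bludov
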