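import Pool.Agent.helper77.Bludov.Basic

/-!
# CORE2 : a maximal invariant cone is total (positive Ore lemma)
-/

namespace Bludov

universe u v

section act

variable {Q V : Type*} [Group Q] [AddCommGroup V] [DistribMulAction Q V]

/-- the action of `ℕ[Q]` on `V` -/
noncomputable def actN : MonoidAlgebra ℕ Q →ₐ[ℕ] AddMonoid.End V :=
  MonoidAlgebra.lift ℕ (AddMonoid.End V) Q (DistribMulAction.toAddMonoidEnd Q V)

theorem actN_add (a b : MonoidAlgebra ℕ Q) (v : V) : actN (a + b) v = actN a v + actN b v := by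
  rw [map_add]; rfl

theorem actN_zero (v : V) : actN (0 : MonoidAlgebra ℕ Q) v = 0 := by
  rw [map_zero]; rfl

theorem actN_mul (a b : MonoidAlgebra ℕ Q) (v : V) : actN (a * b) v = actN a (actN b v) := by
  rw [map_mul]; rfl

theorem actN_one (v : V) : actN (1 : MonoidAlgebra ℕ Q) v = v := by
  rw [map_one]; rfl

theorem actN_apply (a : MonoidAlgebra ℕ Q) (v : V) :
    actN a v = a.coeff.sum fun q n => n • (q • v) := by
  classical
  have key : ∀ s : Finset Q,
      (∑ q ∈ s, a.coeff q • DistribMulAction.toAddMonoidEnd Q V q : AddMonoid.End V) v =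
        ∑ q ∈ s, a.coeff q • (q • v) := by
    intro s
    induction s using Finset.induction_on with
    | empty => rfl
    | insert x s hx IH =>
      rw [Finset.sum_insert hx, Finset.sum_insert hx, ← IH]
      rfl
  rw [actN, MonoidAlgebra.lift_apply]
  exact key _

variable {K : AddSubmonoid V} (hK : ∀ (q : Q), ∀ v ∈ K, q • v ∈ K)

include hK

theorem actN_mem (a : MonoidAlgebra ℕ Q) {v : V} (hv : v ∈ K) : actN a v ∈ K := by
  rw [actN_apply]
  exact K.sum_mem fun q _ => K.nsmul_mem (hK q v hv) _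

/-- one term is dominated by the whole -/
theorem actN_term (a : MonoidAlgebra ℕ Q) (q : Q) (hq : a.coeff q ≠ 0) {v : V} (hv : v ∈ K) :
    ∃ k ∈ K, actN a v = q • v + k := by
  classical
  have hmem : q ∈ a.coeff.support := by simpa using hq
  rw [actN_apply, Finsupp.sum, ← Finset.add_sum_erase _ _ hmem]
  obtain ⟨n, hn⟩ : ∃ n, a.coeff q = n + 1 := ⟨a.coeff q - 1, by omega⟩
  refine ⟨n • (q • v) + ∑ x ∈ a.coeff.support.erase q, a.coeff x • (x • v), ?_, ?_⟩
  · exact K.add_mem (K.nsmul_mem (hK q v hv) _)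
      (K.sum_mem fun x _ => K.nsmul_mem (hK x v hv) _)
  · rw [hn, succ_nsmul]
    abel

end act

/-- CORE2 : maximal invariant cone, total by the positive Ore lemma. -/
theorem total_cone {Q : Type u} [Group Q] {V : Type u} [AddCommGroup V]
    [DistribMulAction Q V] (K₀ : AddSubmonoid V) (hK₀ : ∀ (q : Q), ∀ v ∈ K₀, q • v ∈ K₀)
    (Φ : Set V) (hΦ : ∀ f ∈ Φ, f ∈ K₀ ∧ -f ∉ K₀)
    (ore : ∀ a b : MonoidAlgebra ℕ Q, a ≠ 0 → b ≠ 0 →
      ∃ c d : MonoidAlgebra ℕ Q, c ≠ 0 ∧ d ≠ 0 ∧ c * a = d * b) :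
    ∃ K : AddSubmonoid V, K₀ ≤ K ∧ (∀ (q : Q), ∀ v ∈ K, q • v ∈ K) ∧ (∀ f ∈ Φ, -f ∉ K) ∧
      ∀ v, v ∈ K ∨ -v ∈ K := by
  classical
  let S : Set (AddSubmonoid V) :=
    {K | K₀ ≤ K ∧ (∀ (q : Q), ∀ v ∈ K, q • v ∈ K) ∧ ∀ f ∈ Φ, -f ∉ K}
  have hS₀ : K₀ ∈ S := ⟨le_rfl, hK₀, fun f hf => (hΦ f hf).2⟩
  obtain ⟨K, _, hmax⟩ := zorn_le_nonempty₀ S (by
    intro c hcS hc K hKc
    refine ⟨sSup c, ⟨?_, ?_, ?_⟩, fun z hz => le_sSup hz⟩
    · exact (hcS hKc).1.trans (le_sSup hKc)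
    · intro q v hv
      rw [AddSubmonoid.mem_sSup_of_directedOn ⟨K, hKc⟩ hc.directedOn] at hv ⊢
      obtain ⟨L, hL, hvL⟩ := hv
      exact ⟨L, hL, (hcS hL).2.1 q v hvL⟩
    · intro f hf hv
      rw [AddSubmonoid.mem_sSup_of_directedOn ⟨K, hKc⟩ hc.directedOn] at hv
      obtain ⟨L, hL, hvL⟩ := hv
      exact (hcS hL).2.2 f hf hvL) K₀ hS₀
  obtain ⟨⟨h1, h2, h3⟩, hmax⟩ := hmax
  have key : ∀ w, w ∉ K → ∃ f ∈ Φ, ∃ k ∈ K, ∃ a : MonoidAlgebra ℕ Q, a ≠ 0 ∧
      -f = k + actN a w := by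
    intro w hw
    by_contra hcon
    push Not at hcon
    let L : AddSubmonoid V :=
      { carrier := {v | ∃ k ∈ K, ∃ a : MonoidAlgebra ℕ Q, v = k + actN a w}
        zero_mem' := ⟨0, K.zero_mem, 0, by rw [actN_zero, add_zero]⟩
        add_mem' := by
          rintro _ _ ⟨k, hk, a, rfl⟩ ⟨k', hk', a', rfl⟩
          refine ⟨k + k', K.add_mem hk hk', a + a', ?_⟩
          rw [actN_add]
          abel }
    have hKL : K ≤ L := fun k hk => ⟨k, hk, 0, by rw [actN_zero, add_zero]⟩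
    have hLS : L ∈ S := by
      refine ⟨h1.trans hKL, ?_, ?_⟩
      · rintro q _ ⟨k, hk, a, rfl⟩
        refine ⟨q • k, h2 q k hk, MonoidAlgebra.single q 1 * a, ?_⟩
        rw [smul_add, actN_mul]
        congr 1
        have : actN (MonoidAlgebra.single q 1 : MonoidAlgebra ℕ Q) =
            DistribMulAction.toAddMonoidEnd Q V q := by
          rw [actN, MonoidAlgebra.lift_single, one_smul]
        rw [this]
        rfl
      · rintro f hf ⟨k, hk, a, he⟩
        by_cases ha : a = 0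
        · subst ha
          rw [actN_zero, add_zero] at he
          exact h3 f hf (he ▸ hk)
        · exact hcon f hf k hk a ha he
    have hwL : w ∈ L := ⟨0, K.zero_mem, 1, by rw [actN_one, zero_add]⟩
    exact hw (hmax hLS hKL hwL)
  refine ⟨K, h1, h2, h3, fun w => ?_⟩
  by_contra hcon
  rw [not_or] at hcon
  obtain ⟨f, hf, k, hk, a, ha, he⟩ := key w hcon.1
  obtain ⟨f', hf', k', hk', b, hb, he'⟩ := key (-w) hcon.2
  obtain ⟨c, d, hc, hd, hcd⟩ := ore a b ha hb
  have hfK : f ∈ K := h1 (hΦ f hf).1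
  have hfK' : f' ∈ K := h1 (hΦ f' hf').1
  have e1 : actN c (-f) + actN d (-f') = actN c k + actN d k' := by
    rw [he, he', map_add, map_add, map_neg, map_neg]
    have : actN c (actN a w) = actN d (actN b w) := by
      have h4 : actN (c * a) w = actN (d * b) w := by rw [hcd]
      rwa [actN_mul, actN_mul] at h4
    rw [this]
    abel
  have e2 : actN c k + actN d k' ∈ K := K.add_mem (actN_mem h2 c hk) (actN_mem h2 d hk')
  obtain ⟨q, hq⟩ : ∃ q, c.coeff q ≠ 0 := by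
    by_contra hcon2
    push Not at hcon2
    exact hc (by ext q; simpa using hcon2 q)
  obtain ⟨r, hr, he3⟩ := actN_term h2 c q hq hfK
  have e3 : -(q • f) ∈ K := by
    have h5 : -(q • f) = (actN c k + actN d k') + r + actN d f' := by
      rw [← e1, map_neg, map_neg, he3]
      abel
    rw [h5]
    exact K.add_mem (K.add_mem e2 hr) (actN_mem h2 d hfK')
  have e4 := h2 q⁻¹ _ e3
  rw [smul_neg, inv_smul_smul] at e4
  exact h3 f hf e4

end Bludov
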