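import Pool.Agent.helper77.Bludov.Defs

/-!
# COREa : the lexicographically ordered semidirect product
-/

namespace Bludov

universe u

/-- The set `V × Q` with the multiplication `(v, q) (v', q') = (v + q v', q q')`. -/
structure Lx (V Q : Type u) where
  v : V
  q : Q

namespace Lx

variable {V Q : Type u} [Group Q] [AddCommGroup V] [DistribMulAction Q V]

omit [Group Q] [AddCommGroup V] [DistribMulAction Q V] in
@[ext] theorem ext' {x y : Lx V Q} (h1 : x.v = y.v) (h2 : x.q = y.q) : x = y := by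
  cases x; cases y; simp_all

instance : Group (Lx V Q) where
  mul x y := ⟨x.v + x.q • y.v, x.q * y.q⟩
  one := ⟨0, 1⟩
  inv x := ⟨-(x.q⁻¹ • x.v), x.q⁻¹⟩
  mul_assoc x y z := by
    apply ext'
    · change x.v + x.q • y.v + (x.q * y.q) • z.v = x.v + x.q • (y.v + y.q • z.v)
      rw [smul_add, mul_smul, add_assoc]
    · exact mul_assoc _ _ _
  one_mul x := by
    apply ext'
    · change 0 + (1 : Q) • x.v = x.v
      simp
    · exact one_mul _
  mul_one x := by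
    apply ext'
    · change x.v + x.q • (0 : V) = x.v
      simp
    · exact mul_one _
  inv_mul_cancel x := by
    apply ext'
    · change -(x.q⁻¹ • x.v) + x.q⁻¹ • x.v = 0
      simp
    · exact inv_mul_cancel _

@[simp] theorem mul_v (x y : Lx V Q) : (x * y).v = x.v + x.q • y.v := rfl
@[simp] theorem mul_q (x y : Lx V Q) : (x * y).q = x.q * y.q := rfl
@[simp] theorem one_v : (1 : Lx V Q).v = 0 := rfl
@[simp] theorem one_q : (1 : Lx V Q).q = 1 := rfl
@[simp] theorem inv_v (x : Lx V Q) : (x⁻¹).v = -(x.q⁻¹ • x.v) := rfl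
@[simp] theorem inv_q (x : Lx V Q) : (x⁻¹).q = x.q⁻¹ := rfl

theorem pow_eq (x : Lx V Q) (n : ℕ) :
    (x ^ n).q = x.q ^ n ∧ (x ^ n).v = ∑ i ∈ Finset.range n, (x.q ^ i) • x.v := by
  induction n with
  | zero => simp
  | succ n ih =>
    rw [pow_succ, Finset.sum_range_succ]
    simp [ih.1, ih.2, pow_succ]

/-- The elements `(v, 1)` with `v` and `-v` in `K`. -/
def ker (K : AddSubmonoid V) : Subgroup (Lx V Q) where
  carrier := {x | x.q = 1 ∧ x.v ∈ K ∧ -x.v ∈ K}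
  mul_mem' := by
    rintro a b ⟨h1, h2, h3⟩ ⟨h1', h2', h3'⟩
    refine ⟨by simp [h1, h1'], ?_, ?_⟩
    · simp only [mul_v, h1, one_smul]
      exact K.add_mem h2 h2'
    · simp only [mul_v, h1, one_smul, neg_add]
      exact K.add_mem h3 h3'
  one_mem' := by simp [K.zero_mem]
  inv_mem' := by
    rintro a ⟨h1, h2, h3⟩
    refine ⟨by simp [h1], ?_, ?_⟩
    · simpa [h1] using h3
    · simpa [h1] using h2

theorem mem_ker {K : AddSubmonoid V} {x : Lx V Q} :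
    x ∈ ker K ↔ x.q = 1 ∧ x.v ∈ K ∧ -x.v ∈ K := Iff.rfl

theorem ker_normal {K : AddSubmonoid V} (hK : ∀ (q : Q), ∀ v ∈ K, q • v ∈ K) :
    (ker K : Subgroup (Lx V Q)).Normal := by
  refine ⟨?_⟩
  rintro n ⟨h1, h2, h3⟩ g
  have e : (g * n * g⁻¹).v = g.q • n.v := by
    simp [h1]
  refine ⟨by simp [h1], ?_, ?_⟩
  · rw [e]; exact hK _ _ h2
  · rw [e, ← smul_neg]; exact hK _ _ h3

end Lx

theorem lex_semidirect {Q : Type u} [Group Q] {PQ : Set Q} (hQ : IsBO PQ) (hdiv : Divi Q)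
    {V : Type u} [AddCommGroup V] [DistribMulAction Q V] (K : AddSubmonoid V)
    (hK : ∀ (q : Q), ∀ v ∈ K, q • v ∈ K) (htot : ∀ v, v ∈ K ∨ -v ∈ K)
    (hgeom : ∀ (r : Q) (k : ℕ), k ≠ 0 → ∀ w : V, ∃ w' : V,
      ∑ i ∈ Finset.range k, (r ^ i) • w' = w) :
    ∃ (H : Type u) (_ : Group H) (PH : Set H), IsBO PH ∧ Divi H ∧
      ∃ Φ : V → Q → H, (∀ v q v' q', Φ (v + q • v') (q * q') = Φ v q * Φ v' q') ∧
        ∀ v, -v ∉ K → Φ v 1 ∈ PH := by
  have hn : (Lx.ker K : Subgroup (Lx V Q)).Normal := Lx.ker_normal hK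
  -- the positive set upstairs
  let P' : Set (Lx V Q) := {x | x.q ∈ PQ ∨ (x.q = 1 ∧ -x.v ∉ K)}
  have hpq1 : (1 : Q) ∉ PQ := hQ.one
  have hinvK : ∀ (q : Q) (v : V), q • v ∈ K → v ∈ K := by
    intro q v h
    have := hK q⁻¹ _ h
    rwa [inv_smul_smul] at this
  refine ⟨Lx V Q ⧸ (Lx.ker K : Subgroup (Lx V Q)), inferInstance,
    {h | ∃ x ∈ P', (QuotientGroup.mk x : Lx V Q ⧸ (Lx.ker K : Subgroup (Lx V Q))) = h},
    ⟨?_, ?_, ?_, ?_⟩, ?_, fun v q => QuotientGroup.mk ⟨v, q⟩, ?_, ?_⟩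
  · rintro ⟨x, hx, hx1⟩
    rw [QuotientGroup.eq_one_iff, Lx.mem_ker] at hx1
    rcases hx with h | ⟨_, h⟩
    · rw [hx1.1] at h; exact hpq1 h
    · exact h hx1.2.2
  · rintro _ ⟨x, hx, rfl⟩ _ ⟨y, hy, rfl⟩
    refine ⟨x * y, ?_, rfl⟩
    rcases hx with hx | ⟨hx, hx'⟩
    · rcases hy with hy | ⟨hy, hy'⟩
      · exact Or.inl (hQ.mul _ hx _ hy)
      · refine Or.inl ?_
        simpa [hy] using hx
    · rcases hy with hy | ⟨hy, hy'⟩
      · refine Or.inl ?_
        simpa [hx] using hy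
      · refine Or.inr ⟨by simp [hx, hy], ?_⟩
        intro hc
        simp only [Lx.mul_v, hx, one_smul, neg_add] at hc
        apply hx'
        have h1 : y.v ∈ K := (htot y.v).resolve_right hy'
        have := K.add_mem hc h1
        simpa using this
  · rintro _ ⟨x, hx, rfl⟩ g
    obtain ⟨g, rfl⟩ := QuotientGroup.mk_surjective g
    refine ⟨g * x * g⁻¹, ?_, rfl⟩
    rcases hx with hx | ⟨hx, hx'⟩
    · exact Or.inl (hQ.conj _ hx _)
    · refine Or.inr ⟨by simp [hx], ?_⟩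
      have e : (g * x * g⁻¹).v = g.q • x.v := by simp [hx]
      rw [e, ← smul_neg]
      exact fun hc => hx' (hinvK _ _ hc)
  · intro a ha
    obtain ⟨x, rfl⟩ := QuotientGroup.mk_surjective a
    have hx : x ∉ (Lx.ker K : Subgroup (Lx V Q)) := by
      intro hx
      exact ha ((QuotientGroup.eq_one_iff x).2 hx)
    rw [Lx.mem_ker] at hx
    by_cases hq : x.q = 1
    · by_cases hv : -x.v ∈ K
      · right
        refine ⟨x⁻¹, Or.inr ⟨by simp [hq], ?_⟩, rfl⟩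
        intro hc
        simp only [Lx.inv_v, hq, inv_one, one_smul, neg_neg] at hc
        exact hx ⟨hq, hc, hv⟩
      · left
        exact ⟨x, Or.inr ⟨hq, hv⟩, rfl⟩
    · rcases hQ.tri x.q hq with h | h
      · exact Or.inl ⟨x, Or.inl h, rfl⟩
      · exact Or.inr ⟨x⁻¹, Or.inl h, rfl⟩
  · intro n hn0 a
    obtain ⟨x, rfl⟩ := QuotientGroup.mk_surjective a
    obtain ⟨r, hr⟩ := hdiv n hn0 x.q
    obtain ⟨w, hw⟩ := hgeom r n hn0 x.v
    refine ⟨QuotientGroup.mk ⟨w, r⟩, ?_⟩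
    rw [← QuotientGroup.mk_pow]
    congr 1
    have := Lx.pow_eq (⟨w, r⟩ : Lx V Q) n
    apply Lx.ext'
    · rw [this.2]; exact hw
    · rw [this.1]; exact hr
  · intro v q v' q'
    rfl
  · intro v hv
    exact ⟨⟨v, 1⟩, Or.inr ⟨rfl, hv⟩, rfl⟩

end Bludov
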