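import Pool.Agent.helper77.Bludov.CORE1
import Pool.Agent.helper77.Bludov.CORE2
import Pool.Agent.helper77.Bludov.COREa

/-!
# Krasner–Kaloujnine embedding and the proof of `core`
-/

namespace Bludov

universe u v

/-- ordered divisible hull of an abelian (normal) subgroup -/
theorem exists_hull_cone {G : Type u} [Group G] {P : Set G} (hP : IsBO P) (N : Subgroup G)
    (hab : ∀ a ∈ N, ∀ b ∈ N, a * b = b * a) :
    ∃ (D : Type u) (_ : AddCommGroup D) (_ : Module ℚ D) (C : AddSubmonoid D) (j : N → D),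
      (∀ a b, j (a * b) = j a + j b) ∧ (∀ c, c ∈ C → -c ∈ C → c = 0) ∧
      ∀ m : N, (m : G) ∈ P → j m ∈ C ∧ j m ≠ 0 := by
  classical
  let _ : CommGroup N := { (inferInstance : Group N) with
    mul_comm := fun a b => Subtype.ext (hab a a.2 b b.2) }
  let _ : LinearOrder (Additive N) :=
    { le := fun a b => a = b ∨ ((a.toMul⁻¹ * b.toMul : N) : G) ∈ P
      le_refl := fun a => Or.inl rfl
      le_trans := by
        rintro a b c (rfl | h1) (rfl | h2)
        · exact Or.inl rfl
        · exact Or.inr h2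
        · exact Or.inr h1
        · refine Or.inr ?_
          have := hP.mul _ h1 _ h2
          simpa [mul_assoc] using this
      le_antisymm := by
        rintro a b (rfl | h1) (h2 | h2)
        · rfl
        · rfl
        · exact h2.symm
        · exfalso
          have := hP.mul _ h1 _ h2
          apply hP.one
          simpa [mul_assoc] using this
      le_total := by
        intro a b
        by_cases hab' : a = b
        · exact Or.inl (Or.inl hab')
        · have h1 : ((a.toMul⁻¹ * b.toMul : N) : G) ≠ 1 := by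
            intro h
            apply hab'
            have h2 : a.toMul⁻¹ * b.toMul = 1 := Subtype.ext h
            have h3 := inv_mul_eq_one.1 h2
            exact h3
          rcases hP.tri _ h1 with h | h
          · exact Or.inl (Or.inr h)
          · refine Or.inr (Or.inr ?_)
            simpa using h
      toDecidableLE := Classical.decRel _ }
  have hle : ∀ a b : Additive N, a ≤ b ↔ (a = b ∨ ((a.toMul⁻¹ * b.toMul : N) : G) ∈ P) :=
    fun a b => Iff.rfl
  have : IsOrderedAddMonoid (Additive N) :=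
    { add_le_add_left := by
        rintro a b h c
        rw [hle] at h ⊢
        rcases h with rfl | h
        · exact Or.inl rfl
        · refine Or.inr ?_
          have e : ((a + c).toMul⁻¹ * (b + c).toMul : N) = a.toMul⁻¹ * b.toMul := by
            rw [toMul_add, toMul_add]
            rw [mul_inv, mul_mul_mul_comm, inv_mul_cancel, mul_one]
          rw [e]; exact h }
  refine ⟨DivisibleHull (Additive N), inferInstance, inferInstance,
    AddSubmonoid.nonneg (DivisibleHull (Additive N)),
    fun m => DivisibleHull.coeAddMonoidHom (Additive N) (Additive.ofMul m), ?_, ?_, ?_⟩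
  · intro a b
    exact map_add (DivisibleHull.coeAddMonoidHom (Additive N)) (Additive.ofMul a)
      (Additive.ofMul b)
  · intro c hc hc'
    rw [AddSubmonoid.mem_nonneg] at hc hc'
    exact le_antisymm (neg_nonneg.1 hc') hc
  · intro m hm
    have h0 : (0 : Additive N) < Additive.ofMul m := by
      refine lt_of_le_of_ne ((hle _ _).2 (Or.inr (by simpa using hm))) ?_
      intro h
      have : m = 1 := by
        have := congrArg Additive.toMul h
        simpa using this.symm
      rw [this] at hm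
      exact hP.one (by simpa using hm)
    have h1 : (0 : DivisibleHull (Additive N)) <
        DivisibleHull.coeAddMonoidHom (Additive N) (Additive.ofMul m) := by
      have := DivisibleHull.mk_lt_mk (M := Additive N) (m := 0) (m' := Additive.ofMul m)
        (s := 1) (s' := 1)
      simp only [PNat.one_coe, one_smul] at this
      have := this.2 h0
      simpa using this
    exact ⟨AddSubmonoid.mem_nonneg.2 h1.le, h1.ne'⟩

theorem core {G : Type u} [Group G] {P : Set G} (hP : IsBO P) (N : Subgroup G) [N.Normal]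
    (hab : ∀ a ∈ N, ∀ b ∈ N, a * b = b * a)
    {Q : Type u} [Group Q] {PQ : Set Q} (hQ : IsBO PQ) (hdiv : Divi Q)
    (ore : ∀ a b : MonoidAlgebra ℕ Q, a ≠ 0 → b ≠ 0 →
      ∃ c d : MonoidAlgebra ℕ Q, c ≠ 0 ∧ d ≠ 0 ∧ c * a = d * b)
    (ι : G ⧸ N →* Q) (hι : Function.Injective ι) :
    ∃ (H : Type u) (_ : Group H) (PH : Set H), IsBO PH ∧ Divi H ∧
      ∃ φ : G →* H, ∀ x ∈ N, x ∈ P → φ x ∈ PH := by
  classical
  obtain ⟨D, _, _, C, j, hj, hC, hjP⟩ := exists_hull_cone hP N hab
  -- the action by translation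
  let act : DistribMulAction Q (Q → D) :=
    { smul := fun q f y => f (q⁻¹ * y)
      one_smul := fun f => by
        funext y
        change f (1⁻¹ * y) = f y
        simp
      mul_smul := fun q q' f => by
        funext y
        change f ((q * q')⁻¹ * y) = f (q'⁻¹ * (q⁻¹ * y))
        rw [mul_inv_rev, mul_assoc]
      smul_zero := fun q => rfl
      smul_add := fun q f f' => rfl }
  have hact : ∀ (q : Q) (f : Q → D) (y : Q), (q • f) y = f (q⁻¹ * y) := fun _ _ _ => rfl
  -- the cocycle
  let t : G ⧸ N → G := Quotient.out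
  have ht : ∀ x : G ⧸ N, (QuotientGroup.mk (t x) : G ⧸ N) = x := fun x => QuotientGroup.out_eq' x
  let cc : G → G ⧸ N → G := fun g x => (t x)⁻¹ * g * t ((QuotientGroup.mk g : G ⧸ N)⁻¹ * x)
  have hcc : ∀ g x, cc g x ∈ N := by
    intro g x
    rw [← QuotientGroup.eq_one_iff]
    simp only [cc, QuotientGroup.mk_mul, QuotientGroup.mk_inv, ht]
    group
  let F : G → G ⧸ N → D := fun g x => j ⟨cc g x, hcc g x⟩
  let f : G → Q → D := fun g => Function.extend ι (F g) 0
  have hf1 : ∀ g x, f g (ι x) = F g x := fun g x => hι.extend_apply _ _ _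
  have hf2 : ∀ g y, (¬ ∃ x, ι x = y) → f g y = 0 := by
    intro g y hy
    exact Function.extend_apply' _ _ _ hy
  have hF : ∀ g h x, F (g * h) x = F g x + F h ((QuotientGroup.mk g : G ⧸ N)⁻¹ * x) := by
    intro g h x
    simp only [F]
    rw [← hj]
    congr 1
    apply Subtype.ext
    simp only [cc, Subgroup.coe_mul, QuotientGroup.mk_mul, mul_inv_rev]
    rw [mul_assoc (QuotientGroup.mk h)⁻¹ (QuotientGroup.mk g)⁻¹ x]
    group
  have hcoc : ∀ g h, f (g * h) = f g + ι (QuotientGroup.mk g) • f h := by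
    intro g h
    funext y
    rw [Pi.add_apply, hact]
    by_cases hy : ∃ x, ι x = y
    · obtain ⟨x, rfl⟩ := hy
      rw [hf1, hf1, ← map_inv, ← map_mul, hf1, hF]
    · rw [hf2 _ _ hy, hf2 _ _ hy, hf2, add_zero]
      rintro ⟨x, hx⟩
      exact hy ⟨QuotientGroup.mk g * x, by rw [map_mul, hx]; group⟩
  -- the cone
  let K₀ : AddSubmonoid (Q → D) :=
    { carrier := {f | ∀ y, f y ∈ C}
      add_mem' := fun {a b} ha hb y => C.add_mem (ha y) (hb y)
      zero_mem' := fun y => C.zero_mem }
  have hK₀ : ∀ f : Q → D, f ∈ K₀ ↔ ∀ y, f y ∈ C := fun f => Iff.rfl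
  have hmkN : ∀ n ∈ N, (QuotientGroup.mk n : G ⧸ N) = 1 := fun n hn =>
    (QuotientGroup.eq_one_iff n).2 hn
  have hccN : ∀ n ∈ N, ∀ x, cc n x = (t x)⁻¹ * n * t x := by
    intro n hn x
    simp only [cc, hmkN n hn, inv_one, one_mul]
  have hccP : ∀ n ∈ N, n ∈ P → ∀ x, cc n x ∈ P := by
    intro n hn hnP x
    rw [hccN n hn x]
    simpa using hP.conj n hnP (t x)⁻¹
  obtain ⟨K, hKK, hKq, hKn, hKt⟩ := total_cone K₀
    (fun q v hv => (hK₀ _).2 fun y => by rw [hact]; exact (hK₀ _).1 hv _)
    {v | ∃ n ∈ N, n ∈ P ∧ v = f n}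
    (by
      rintro _ ⟨n, hn, hnP, rfl⟩
      refine ⟨(hK₀ _).2 fun y => ?_, fun hneg => ?_⟩
      · by_cases hy : ∃ x, ι x = y
        · obtain ⟨x, rfl⟩ := hy
          rw [hf1]
          exact (hjP ⟨cc n x, hcc n x⟩ (hccP n hn hnP x)).1
        · rw [hf2 _ _ hy]; exact C.zero_mem
      · have h1 := (hK₀ _).1 hneg (ι 1)
        rw [Pi.neg_apply, hf1] at h1
        obtain ⟨h2, h3⟩ := hjP ⟨cc n 1, hcc n 1⟩ (hccP n hn hnP 1)
        exact h3 (hC _ h2 h1))
    ore
  obtain ⟨H, _, PH, hPH, hdH, Φ, hΦ, hΦP⟩ := lex_semidirect hQ hdiv K hKq hKt (by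
    intro r k hk w
    obtain ⟨w', hw'⟩ := geom_surj hQ r k hk w
    refine ⟨w', ?_⟩
    funext y
    rw [Finset.sum_apply]
    exact hw' y)
  refine ⟨H, inferInstance, PH, hPH, hdH,
    MonoidHom.mk' (fun g => Φ (f g) (ι (QuotientGroup.mk g))) ?_, ?_⟩
  · intro g h
    rw [hcoc, QuotientGroup.mk_mul, map_mul, hΦ]
  · intro x hx hxP
    change Φ (f x) (ι (QuotientGroup.mk x)) ∈ PH
    rw [hmkN x hx, map_one]
    exact hΦP _ (hKn _ ⟨x, hx, hxP, rfl⟩)

end Bludov
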