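import Pool.Agent.helper77.Bludov.ON

/-!
# CORE1 : `1 + r + ... + r^(k-1)` acts surjectively on functions with values in a rational space
-/

namespace Bludov

universe u v

/-- CORE1 : `1 + r + ... + r^(k-1)` acts surjectively on all functions `Q → D`, `D` a rational
vector space (`r` acts by translation) -/
theorem geom_surj {Q : Type u} [Group Q] {P : Set Q} (hP : IsBO P) {D : Type u} [AddCommGroup D]
    [Module ℚ D] (r : Q) (k : ℕ) (hk : k ≠ 0) (w : Q → D) :
    ∃ w' : Q → D, ∀ x, ∑ i ∈ Finset.range k, w' ((r ^ i)⁻¹ * x) = w x := by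
  classical
  have hnz : NoZeroDivisors (MonoidAlgebra ℚ Q) := noZeroDivisors_of_isBO hP ℚ
  let τ : MonoidAlgebra ℚ Q := ∑ i ∈ Finset.range k, MonoidAlgebra.single (r ^ i)⁻¹ 1
  have hτ : τ ≠ 0 := by
    intro h
    have h1 : MonoidAlgebra.lift ℚ ℚ Q (1 : Q →* ℚ) τ = 0 := by rw [h, map_zero]
    simp only [τ, map_sum, MonoidAlgebra.lift_single, MonoidHom.one_apply, smul_eq_mul, mul_one,
      Finset.sum_const, Finset.card_range, nsmul_eq_mul] at h1
    exact hk (by exact_mod_cast h1)
  let m : MonoidAlgebra ℚ Q →ₗ[ℚ] MonoidAlgebra ℚ Q := LinearMap.mulLeft ℚ τ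
  have hm : m.ker = ⊥ := by
    rw [LinearMap.ker_eq_bot']
    intro f hf
    have : τ * f = 0 := hf
    exact (mul_eq_zero.1 this).resolve_left hτ
  obtain ⟨σ, hσ⟩ := LinearMap.exists_leftInverse_of_injective m hm
  let e : MonoidAlgebra ℚ Q → D := fun f => f.coeff.sum fun q a => a • w q
  have he_add : ∀ f g, e (f + g) = e f + e g := by
    intro f g
    simp only [e, MonoidAlgebra.coeff_add]
    exact Finsupp.sum_add_index' (fun q => zero_smul _ _) (fun q a b => add_smul _ _ _)
  have he_zero : e 0 = 0 := by simp [e]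
  have he_single : ∀ q, e (MonoidAlgebra.single q 1) = w q := by
    intro q
    simp [e, Finsupp.sum_single_index]
  have he_sum : ∀ (s : Finset ℕ) (F : ℕ → MonoidAlgebra ℚ Q), e (∑ i ∈ s, F i) = ∑ i ∈ s, e (F i) := by
    intro s F
    induction s using Finset.induction_on with
    | empty => simpa using he_zero
    | insert a s ha IH => rw [Finset.sum_insert ha, Finset.sum_insert ha, he_add, IH]
  refine ⟨fun q => e (σ (MonoidAlgebra.single q 1)), fun x => ?_⟩
  have h1 : ∑ i ∈ Finset.range k, (MonoidAlgebra.single ((r ^ i)⁻¹ * x) 1 : MonoidAlgebra ℚ Q) =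
      m (MonoidAlgebra.single x 1) := by
    show _ = τ * MonoidAlgebra.single x 1
    simp only [τ, Finset.sum_mul, MonoidAlgebra.single_mul_single, mul_one]
  rw [← he_sum, ← map_sum, h1]
  have h2 : σ (m (MonoidAlgebra.single x 1)) = MonoidAlgebra.single x 1 := by
    have := congrArg (fun l => l (MonoidAlgebra.single x 1)) hσ
    exact this
  rw [h2, he_single]

end Bludov
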