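import Pool.Agent.helper77.Bludov.Basic

/-!
# Convex normal subgroups of bi-ordered groups (definition)
-/

namespace Bludov

/-- convex normal subgroups -/
def Conv {G : Type*} [Group G] (P : Set G) (C : Subgroup G) : Prop :=
  C.Normal ∧ ∀ x ∈ P, ∀ y ∈ C, x⁻¹ * y ∈ P → x ∈ C

end Bludov
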