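import Pool.Agent.helper77.Bludov.M

/-!
# Module D : descending the support of the constants
-/

namespace Bludov

open scoped Pointwise

namespace ModD

variable {G V : Type*} [Group G] [AddCommGroup V] [Module (RA G) V] {K : AddSubmonoid V} {ε : V}

/-- the preorder given by a cone -/
def cle (K : AddSubmonoid V) (u v : V) : Prop := v - u ∈ K

theorem cle_refl (K : AddSubmonoid V) (u : V) : cle K u u := by simp [cle, K.zero_mem]

theorem cle_trans {u v w : V} (h : cle K u v) (h' : cle K v w) : cle K u w := by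
  have h1 := K.add_mem h h'
  have h2 : v - u + (w - v) = w - u := by abel
  rw [h2] at h1
  exact h1

theorem cle_sum {ι : Type*} (s : Finset ι) (f g : ι → V) (h : ∀ i ∈ s, cle K (f i) (g i)) :
    cle K (∑ i ∈ s, f i) (∑ i ∈ s, g i) := by
  unfold cle
  rw [← Finset.sum_sub_distrib]
  exact K.sum_mem h

theorem cle_smul (hK : IsMaxCone G K ε) {a : RA G} (ha : NN a) {u v : V} (h : cle K u v) :
    cle K (a • u) (a • v) := by
  unfold cle
  rw [← smul_sub]
  exact hK.nn_smul ha h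

/-- bounding the action of a positive element term by term -/
theorem bound (hK : IsMaxCone G K ε) {Y : Subgroup G} {a : RA G} (ha : Pos a) {u w : V}
    (h : ∀ g, a.coeff g ≠ 0 → ∃ s, PosOn (Y : Set G) s ∧ cle K (gel g • u) (s • w)) :
    ∃ s, PosOn (Y : Set G) s ∧ cle K (a • u) (s • w) := by
  classical
  choose! s hs hs' using h
  refine ⟨∑ g ∈ a.coeff.support, sc (a.coeff g) * s g, ?_, ?_⟩
  · refine posOn_sum _ _ (fun g hg => ?_) ?_
    · have hg' : a.coeff g ≠ 0 := by simpa using hg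
      exact (posOn_sc (lt_of_le_of_ne (ha.2 g) (Ne.symm hg'))).mul (hs g hg')
    · obtain ⟨g, hg⟩ := ha.exists_pos
      exact ⟨g, by simpa using hg.ne'⟩
  · conv =>
      arg 2
      rw [eq_sum a]
    rw [Finset.sum_smul, Finset.sum_smul]
    refine cle_sum _ _ _ fun g hg => ?_
    have hg' : a.coeff g ≠ 0 := by simpa using hg
    rw [mul_smul, mul_smul]
    exact cle_smul hK (nn_sc (ha.2 g)) (hs' g hg')

/-- one term of a positive element is dominated -/
theorem term_cle (hK : IsMaxCone G K ε) {a : RA G} (ha : NN a) {v : V} (hv : v ∈ K)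
    (g : G) (hg : 0 < a.coeff g) : cle K (gel g • v) ((sc (a.coeff g)⁻¹ : RA G) • a • v) := by
  have h1 := hK.term_le ha hv g
  have h2 := hK.smul (sc (a.coeff g)⁻¹) (pos_sc (inv_pos.2 hg)) _ h1
  rw [smul_sub, smul_smul, smul_smul, ← mul_assoc, ← sc_mul, inv_mul_cancel₀ hg.ne', sc_one,
    one_mul, ← smul_smul] at h2
  exact h2

theorem gel_smul_smul (g : G) (s : RA G) (v : V) :
    gel g • s • v = (gel g * s * gel g⁻¹) • gel g • v := by
  rw [smul_smul, smul_smul, mul_assoc, gel_inv_mul, mul_one]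

/-- everything on `e` is bounded with constants supported on `Y` -/
def Bo (K : AddSubmonoid V) (Y : Subgroup G) (e : V) : Prop :=
  ∀ g : G, ∃ s : RA G, PosOn (Y : Set G) s ∧ cle K (gel g • e) (s • e)

/-- `t` on `e` is bounded with constants supported on `Y` -/
def Tb (K : AddSubmonoid V) (Y : Subgroup G) (t : G) (e : V) : Prop :=
  ∃ s : RA G, PosOn (Y : Set G) s ∧ cle K (gel t • e) (s • e)

theorem Tb_of (hK : IsMaxCone G K ε) {Y : Subgroup G} [hY : Y.Normal] {t : G}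
    (ht : ∀ g : G, g * t * g⁻¹ * t⁻¹ ∈ Y) {e : V} (he : e ∈ K) {a s' : RA G} (ha : Pos a)
    (hs' : PosOn (Y : Set G) s') (h : cle K (a • gel t • e) (a • s' • e)) : Tb K Y t (a • e) := by
  -- step 1
  have hte : gel t • e ∈ K := hK.smul _ (pos_gel t) _ he
  obtain ⟨c1, hc1, h1⟩ : ∃ s, PosOn (Y : Set G) s ∧
      cle K ((gel t * a * gel t⁻¹) • gel t • e) (s • a • gel t • e) := by
    refine bound hK (((pos_gel t).mul ha).mul (pos_gel _)) fun h hh => ?_
    simp only [coeff_mul_gel, coeff_gel_mul, inv_inv] at hh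
    set g := t⁻¹ * (h * t) with hg
    have hg' : 0 < a.coeff g := lt_of_le_of_ne (ha.2 g) (Ne.symm hh)
    have hh2 : h = (t * g * t⁻¹ * g⁻¹) * g := by rw [hg]; group
    refine ⟨gel (t * g * t⁻¹ * g⁻¹) * sc (a.coeff g)⁻¹, (posOn_gel ?_).mul
      (posOn_sc (inv_pos.2 hg')), ?_⟩
    · have h1 := Y.inv_mem (ht g)
      have h2 : (g * t * g⁻¹ * t⁻¹)⁻¹ = t * g * t⁻¹ * g⁻¹ := by group
      rwa [h2] at h1
    · have h3 : (gel h : RA G) = gel (t * g * t⁻¹ * g⁻¹) * gel g := by rw [← gel_mul, ← hh2]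
      rw [h3, mul_smul, mul_smul]
      exact cle_smul hK (pos_gel _).nn (term_cle hK ha.nn hte g hg')
  -- step 2
  obtain ⟨c2, hc2, h2⟩ : ∃ s, PosOn (Y : Set G) s ∧ cle K (a • s' • e) (s • a • e) := by
    refine bound hK ha fun g hg => ?_
    have hg' : 0 < a.coeff g := lt_of_le_of_ne (ha.2 g) (Ne.symm hg)
    refine ⟨(gel g * s' * gel g⁻¹) * sc (a.coeff g)⁻¹, (hs'.conj g).mul
      (posOn_sc (inv_pos.2 hg')), ?_⟩
    rw [gel_smul_smul g s' e, mul_smul (gel g * s' * gel g⁻¹)]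
    exact cle_smul hK (hs'.conj g).1.nn (term_cle hK ha.nn he g hg')
  refine ⟨c1 * c2, hc1.mul hc2, ?_⟩
  rw [gel_smul_smul t a e, mul_smul c1 c2]
  exact cle_trans h1 (cle_smul hK hc1.1.nn (cle_trans h h2))

theorem Tb.smul (hK : IsMaxCone G K ε) {Y : Subgroup G} [hY : Y.Normal] {t : G}
    (ht : ∀ g : G, g * t * g⁻¹ * t⁻¹ ∈ Y) {e : V} (he : e ∈ K) {a : RA G} (ha : Pos a)
    (h : Tb K Y t e) : Tb K Y t (a • e) := by
  obtain ⟨s, hs, hs'⟩ := h
  exact Tb_of hK ht he ha hs (cle_smul hK ha.nn hs')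

theorem Bo.smul (hK : IsMaxCone G K ε) {Y : Subgroup G} [hY : Y.Normal] {e : V} (he : e ∈ K)
    {a : RA G} (ha : Pos a) (h : Bo K Y e) : Bo K Y (a • e) := by
  intro g
  obtain ⟨s, hs, h1⟩ : ∃ s, PosOn (Y : Set G) s ∧ cle K ((gel g * a) • e) (s • e) :=
    bound hK ((pos_gel g).mul ha) fun x _ => h x
  obtain ⟨x, hx⟩ := ha.exists_pos
  obtain ⟨s0, hs0, h2⟩ := h x⁻¹
  refine ⟨s * ((gel x * s0 * gel x⁻¹) * sc (a.coeff x)⁻¹),
    hs.mul ((hs0.conj x).mul (posOn_sc (inv_pos.2 hx))), ?_⟩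
  rw [smul_smul, mul_smul s]
  refine cle_trans h1 (cle_smul hK hs.1.nn ?_)
  have h3 := cle_smul hK (pos_gel x).nn h2
  rw [smul_smul, gel_mul_inv, one_smul, gel_smul_smul x s0 e] at h3
  refine cle_trans h3 ?_
  rw [mul_smul (gel x * s0 * gel x⁻¹)]
  exact cle_smul hK (hs0.conj x).1.nn (term_cle hK ha.nn he x hx)

theorem neg_smul_notMem (hK : IsMaxCone G K ε) {b s : RA G} (hb : Pos b) (hs : Pos s) :
    -(s • b • ε) ∉ K := by
  rw [smul_smul]
  exact hK.neg_smul_eps (hs.mul hb)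

/-- the submonoid of elements bounded by a power of `z` -/
def Rk (K : AddSubmonoid V) (Y : Subgroup G) (e : V) (z g : G) (k : ℤ) : Prop :=
  ∃ s : RA G, PosOn (Y : Set G) s ∧ cle K (gel g • e) (s • gel (z ^ k) • e)

theorem Rk.mul (hK : IsMaxCone G K ε) {Y : Subgroup G} [hY : Y.Normal] {z : G}
    (hz : ∀ g : G, g * z * g⁻¹ * z⁻¹ ∈ Y) {e : V} {g h : G} {k l : ℤ}
    (hg : Rk K Y e z g k) (hh : Rk K Y e z h l) : Rk K Y e z (g * h) (k + l) := by
  obtain ⟨s, hs, h1⟩ := hg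
  obtain ⟨s', hs', h2⟩ := hh
  have h3 := cle_smul hK (pos_gel g).nn h2
  rw [smul_smul, ← gel_mul, gel_smul_smul g s' (gel (z ^ l) • e)] at h3
  -- g z^l = [g,z^l] z^l g
  have hc : g * z ^ l * g⁻¹ * (z ^ l)⁻¹ ∈ Y := ModM.central_zpow hz l g
  have h4 : (gel g * gel (z ^ l) : RA G) =
      gel (g * z ^ l * g⁻¹ * (z ^ l)⁻¹) * gel (z ^ l) * gel g := by
    rw [← gel_mul, ← gel_mul, ← gel_mul]; congr 1; group
  have h5 := cle_smul hK (pos_gel (z ^ l)).nn h1
  rw [gel_smul_smul (z ^ l) s] at h5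
  have h6 : (gel (z ^ l) • gel (z ^ k) • e : V) = gel (z ^ (k + l)) • e := by
    rw [smul_smul, ← gel_mul, ← zpow_add, add_comm]
  rw [h6] at h5
  refine ⟨(gel g * s' * gel g⁻¹) * (gel (g * z ^ l * g⁻¹ * (z ^ l)⁻¹) *
    (gel (z ^ l) * s * gel (z ^ l)⁻¹)), (hs'.conj g).mul ((posOn_gel hc).mul (hs.conj _)), ?_⟩
  refine cle_trans h3 ?_
  rw [mul_smul _ (gel (g * z ^ l * g⁻¹ * (z ^ l)⁻¹) *
    (gel (z ^ l) * s * gel (z ^ l)⁻¹))]
  refine cle_smul hK (hs'.conj g).1.nn ?_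
  rw [smul_smul, h4, mul_smul, mul_smul, mul_smul]
  exact cle_smul hK (pos_gel _).nn h5

theorem Rk.mono (hK : IsMaxCone G K ε) {Y : Subgroup G} {z : G} {e : V}
    (h1 : cle K e (gel z • e)) {g : G} {k l : ℤ} (hkl : k ≤ l)
    (hg : Rk K Y e z g k) : Rk K Y e z g l := by
  obtain ⟨s, hs, h2⟩ := hg
  have key : ∀ j : ℕ, cle K e (gel (z ^ (j : ℤ)) • e) := by
    intro j
    induction j with
    | zero => simpa using cle_refl K e
    | succ j ih =>
      have h3 := cle_smul hK (pos_gel z).nn ih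
      rw [smul_smul, ← gel_mul, ← zpow_one_add] at h3
      have h4 : (1 + (j : ℤ)) = ((j + 1 : ℕ) : ℤ) := by push_cast; ring
      rw [h4] at h3
      exact cle_trans h1 h3
  obtain ⟨j, hj⟩ := Int.eq_ofNat_of_zero_le (sub_nonneg.2 hkl)
  refine ⟨s, hs, cle_trans h2 (cle_smul hK hs.1.nn ?_)⟩
  have h3 := cle_smul hK (pos_gel (z ^ k)).nn (key j)
  rw [smul_smul, ← gel_mul, ← zpow_add] at h3
  have h4 : k + (j : ℤ) = l := by rw [← hj]; ring
  rwa [h4] at h3

/-- the contradiction in case (B) -/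
theorem caseB (hK : IsMaxCone G K ε) {n : ℕ} (hc : CCh n (⊤ : Subgroup G))
    (Y : Subgroup G) [hY : Y.Normal] (z : G) (hz : ∀ g : G, g * z * g⁻¹ * z⁻¹ ∈ Y)
    (hl : ∀ l : G →* Multiplicative ℝ, l z = 1) {b : RA G} (hb : Pos b)
    (hB : Bo K (Y ⊔ Subgroup.zpowers z) (b • ε))
    (h : ∀ s : RA G, PosOn (Y : Set G) s → cle K (s • b • ε) (gel z • b • ε)) : False := by
  classical
  set e := b • ε with he
  have heK : e ∈ K := hK.smul b hb _ hK.eps_mem
  have h1 : cle K e (gel z • e) := by simpa using h 1 posOn_one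
  have hY1 : ∀ y ∈ Y, Rk K Y e z y 0 := fun y hy =>
    ⟨gel y, posOn_gel hy, by simpa using cle_refl K (gel y • e)⟩
  have hz1 : ∀ k : ℤ, Rk K Y e z (z ^ k) k := fun k =>
    ⟨1, posOn_one, by simpa using cle_refl K _⟩
  -- every element is bounded by a power of z
  have hex : ∀ g : G, ∃ k : ℤ, Rk K Y e z g k := by
    intro g
    obtain ⟨s, hs, h2⟩ := hB g
    have h3 : ∀ x, s.coeff x ≠ 0 → ∃ k : ℤ, Rk K Y e z x k := by
      intro x hx
      have hx' : x ∈ ((Y : Set G) * (Subgroup.zpowers z : Set G)) := by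
        rw [← Subgroup.normal_mul]; exact hs.2 x hx
      obtain ⟨y, hy, w, hw, rfl⟩ := Set.mem_mul.1 hx'
      obtain ⟨k, rfl⟩ := Subgroup.mem_zpowers_iff.1 hw
      exact ⟨0 + k, (hY1 y hy).mul hK hz (hz1 k)⟩
    choose! k hk using h3
    obtain ⟨M, hM⟩ := (s.coeff.support.image k).exists_le
    have hM' : ∀ x, s.coeff x ≠ 0 → Rk K Y e z x M := fun x hx =>
      (hk x hx).mono hK h1 (hM _ (Finset.mem_image_of_mem k (by simpa using hx)))
    obtain ⟨s', hs', h4⟩ := bound hK hs.1 (Y := Y) (u := e) (w := gel (z ^ M) • e) hM'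
    exact ⟨M, s', hs', cle_trans h2 h4⟩
  -- not less than e
  have hneg : ∀ k : ℤ, k < 0 → ¬ Rk K Y e z 1 k := by
    intro k hk hr
    obtain ⟨s, hs, h2⟩ := hr.mono hK h1 (show k ≤ -1 by omega)
    have h3 := cle_smul hK (pos_gel z).nn h2
    have h4 : (gel z * gel (z ^ (-1 : ℤ)) : RA G) = 1 := by
      rw [← gel_mul, zpow_neg_one, mul_inv_cancel, gel_one]
    rw [gel_one, one_smul, gel_smul_smul z s, smul_smul (gel z) (gel (z ^ (-1 : ℤ))), h4,
      one_smul] at h3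
    set s4 := gel z * s * gel z⁻¹ with hs4
    have hs4' : PosOn (Y : Set G) s4 := hs.conj z
    have h5 := h (s4 + s4) (hs4'.add hs4')
    have h6 := cle_trans h5 h3
    apply neg_smul_notMem hK hb hs4'.1
    have h7 : s4 • e - (s4 + s4) • e = -(s4 • b • ε) := by rw [add_smul, he]; abel
    rw [← h7]
    exact h6
  -- the value function
  have hne : ∀ g : G, {k : ℤ | Rk K Y e z g k}.Nonempty := hex
  have hbd : ∀ g : G, BddBelow {k : ℤ | Rk K Y e z g k} := by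
    intro g
    obtain ⟨k', hk'⟩ := hex g⁻¹
    refine ⟨-k', fun k hk => ?_⟩
    by_contra hlt
    push Not at hlt
    have h2 := Rk.mul hK hz hk hk'
    rw [mul_inv_cancel] at h2
    exact hneg (k + k') (by omega) h2
  set v : G → ℤ := fun g => sInf {k : ℤ | Rk K Y e z g k} with hv
  have hvm : ∀ g, Rk K Y e z g (v g) := fun g => Int.csInf_mem (hne g) (hbd g)
  have hvl : ∀ g k, Rk K Y e z g k → v g ≤ k := fun g k hk => csInf_le (hbd g) hk
  have hsub : ∀ g g', v (g * g') ≤ v g + v g' := fun g g' =>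
    hvl _ _ ((hvm g).mul hK hz (hvm g'))
  obtain ⟨q, hq⟩ := subadd_hom hc (fun g => (v g : ℝ)) (by exact_mod_cast hsub)
  have hq1 := hq z⁻¹
  have hv1 : v z⁻¹ ≤ -1 := hvl _ _ (by simpa using hz1 (-1))
  rw [map_inv, hl q] at hq1
  have hv2 : ((v z⁻¹ : ℤ) : ℝ) ≤ -1 := by exact_mod_cast hv1
  simp at hq1
  linarith

end ModD

open ModD in
theorem descend_step {G : Type*} {V : Type*} [Group G] [AddCommGroup V] [Module (RA G) V]
    {K : AddSubmonoid V} {ε : V} (hK : IsMaxCone G K ε) {n : ℕ} (hc : CCh n (⊤ : Subgroup G))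
    (Y : Subgroup G) (hY : Y.Normal) (z : G) (hz : ∀ g : G, g * z * g⁻¹ * z⁻¹ ∈ Y)
    (hl : ∀ l : G →* Multiplicative ℝ, l z = 1)
    (hb : Bd K ε (Y ⊔ Subgroup.zpowers z)) : Bd K ε Y := by
  classical
  have hzi : ∀ g : G, g * z⁻¹ * g⁻¹ * z⁻¹⁻¹ ∈ Y := by
    intro g
    have := ModM.central_zpow hz (-1) g
    simpa using this
  have hli : ∀ l : G →* Multiplicative ℝ, l z⁻¹ = 1 := by
    intro l; rw [map_inv, hl l, inv_one]
  have hsup : Y ⊔ Subgroup.zpowers z⁻¹ = Y ⊔ Subgroup.zpowers z := by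
    rw [Subgroup.zpowers_inv]
  have hYn : (Y ⊔ Subgroup.zpowers z).Normal := ModM.sup_zpowers_normal hz
  obtain ⟨a, ha, hB⟩ := hb
  have hB0 : Bo K (Y ⊔ Subgroup.zpowers z) (a • ε) := hB
  -- step A for a given t
  have stepA : ∀ (t : G), (∀ g : G, g * t * g⁻¹ * t⁻¹ ∈ Y) →
      (∀ l : G →* Multiplicative ℝ, l t = 1) →
      Y ⊔ Subgroup.zpowers t = Y ⊔ Subgroup.zpowers z →
      ∀ b : RA G, Pos b → Bo K (Y ⊔ Subgroup.zpowers z) (b • ε) →
      ∃ a' : RA G, Pos a' ∧ Tb K Y t ((a' * b) • ε) := by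
    intro t ht hlt hsupt b hb hBo
    by_contra hno
    push Not at hno
    refine caseB hK hc Y t ht hlt hb (by rw [hsupt]; exact hBo) fun s hs => ?_
    by_contra hnm
    unfold cle at hnm
    obtain ⟨k, hk, a', ha', h1⟩ := hK.max' hb hnm
    refine hno a' ha' ?_
    rw [mul_smul]
    refine Tb_of hK ht (hK.smul b hb _ hK.eps_mem) ha' hs ?_
    have h2 : a' • s • b • ε - a' • gel t • b • ε = k + b • ε := by
      rw [smul_sub] at h1
      have h3 : b • ε = -(k + (a' • gel t • b • ε - a' • s • b • ε)) := by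
        rw [← h1, neg_neg]
      conv_rhs => rw [h3]
      abel
    unfold cle
    rw [h2]
    exact K.add_mem hk (hK.smul b hb _ hK.eps_mem)
  obtain ⟨a1, ha1, hT1⟩ := stepA z hz hl rfl a ha hB0
  have hp1 : Pos (a1 * a) := ha1.mul ha
  have hB1 : Bo K (Y ⊔ Subgroup.zpowers z) ((a1 * a) • ε) := by
    rw [mul_smul]; exact hB0.smul hK (hK.smul a ha _ hK.eps_mem) ha1
  obtain ⟨a2, ha2, hT2⟩ := stepA z⁻¹ hzi hli hsup (a1 * a) hp1 hB1
  have hp2 : Pos (a2 * (a1 * a)) := ha2.mul hp1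
  have hT1' : Tb K Y z ((a2 * (a1 * a)) • ε) := by
    rw [mul_smul]; exact hT1.smul hK hz (hK.smul _ hp1 _ hK.eps_mem) ha2
  have hB2 : Bo K (Y ⊔ Subgroup.zpowers z) ((a2 * (a1 * a)) • ε) := by
    rw [mul_smul]; exact hB1.smul hK (hK.smul _ hp1 _ hK.eps_mem) ha2
  set c := a2 * (a1 * a) with hcdef
  refine ⟨c, hp2, ?_⟩
  -- all elements of `Y⟨z⟩` are bounded
  have hsubm : ∀ g ∈ Y ⊔ Subgroup.zpowers z, Tb K Y g (c • ε) := by
    have hmul : ∀ g h : G, Tb K Y g (c • ε) → Tb K Y h (c • ε) → Tb K Y (g * h) (c • ε) := by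
      rintro g h ⟨s, hs, h1⟩ ⟨s', hs', h2⟩
      have h3 := cle_smul hK (pos_gel g).nn h2
      rw [smul_smul, ← gel_mul, gel_smul_smul g s' (c • ε)] at h3
      refine ⟨(gel g * s' * gel g⁻¹) * s, (hs'.conj g).mul hs, cle_trans h3 ?_⟩
      rw [mul_smul (gel g * s' * gel g⁻¹)]
      exact cle_smul hK (hs'.conj g).1.nn h1
    have hone : Tb K Y 1 (c • ε) := ⟨1, posOn_one, by simpa using cle_refl K _⟩
    have hpow : ∀ (t : G), Tb K Y t (c • ε) → ∀ j : ℕ, Tb K Y (t ^ j) (c • ε) := by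
      intro t ht j
      induction j with
      | zero => simpa using hone
      | succ j ih => rw [pow_succ]; exact hmul _ _ ih ht
    intro g hg
    have hx' : g ∈ ((Y : Set G) * (Subgroup.zpowers z : Set G)) := by
      rw [← Subgroup.normal_mul]; exact hg
    obtain ⟨y, hy, w, hw, rfl⟩ := Set.mem_mul.1 hx'
    obtain ⟨k, rfl⟩ := Subgroup.mem_zpowers_iff.1 hw
    refine hmul _ _ ⟨gel y, posOn_gel hy, cle_refl K _⟩ ?_
    rcases le_total 0 k with hk | hk
    · obtain ⟨j, rfl⟩ := Int.eq_ofNat_of_zero_le hk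
      have := hpow z hT1' j
      simpa using this
    · obtain ⟨j, hj⟩ := Int.eq_ofNat_of_zero_le (neg_nonneg.2 hk)
      have := hpow z⁻¹ hT2 j
      have h2 : z ^ k = z⁻¹ ^ j := by
        rw [show k = -(j : ℤ) by omega, zpow_neg, zpow_natCast, inv_pow]
      rw [h2]; exact this
  intro g
  obtain ⟨s, hs, h1⟩ := hB2 g
  obtain ⟨s', hs', h2⟩ := bound hK hs.1 (Y := Y) (u := c • ε) (w := c • ε)
    (fun x hx => hsubm x (hs.2 x hx))
  exact ⟨s', hs', cle_trans h1 h2⟩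

end Bludov
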