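import Mathlib

/-!
# Definitions for the positive Ore lemma for nilpotent groups
(used for `MP_fa2194_al`: abelian-by-nilpotent ordered groups)
-/

namespace Bludov

/-- The real group ring. -/
abbrev RA (G : Type*) := MonoidAlgebra ℝ G

/-- Group element as an element of the group ring. -/
noncomputable def gel {G : Type*} (g : G) : RA G := MonoidAlgebra.single g 1

/-- Real scalar as an element of the group ring. -/
noncomputable def sc {G : Type*} [One G] (r : ℝ) : RA G := MonoidAlgebra.single 1 r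

/-- Nonzero elements with nonnegative coefficients. -/
def Pos {G : Type*} (f : RA G) : Prop := f ≠ 0 ∧ ∀ g, 0 ≤ f.coeff g

/-- Nonzero elements with nonnegative coefficients and support in `Y`. -/
def PosOn {G : Type*} (Y : Set G) (f : RA G) : Prop := Pos f ∧ ∀ g, f.coeff g ≠ 0 → g ∈ Y

/-- Positive left Ore condition for elements supported on a subgroup. -/
def OrePlusOn {G : Type*} [Group G] (Y : Subgroup G) : Prop :=
  ∀ a b : RA G, PosOn (Y : Set G) a → PosOn (Y : Set G) b →
    ∃ c d : RA G, PosOn (Y : Set G) c ∧ PosOn (Y : Set G) d ∧ c * a = d * b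

/-- Positive left Ore condition. -/
def OrePlus (G : Type*) [Group G] : Prop :=
  ∀ a b : RA G, Pos a → Pos b → ∃ c d : RA G, Pos c ∧ Pos d ∧ c * a = d * b

/-- `CCh n Y`: there is a chain `1 = Y₀ ≤ ... ≤ Yₙ = Y` with
`Y_{k+1} = Y_k ⟨z_k⟩` and `z_k` central in `G` modulo `Y_k`. -/
inductive CCh {G : Type*} [Group G] : ℕ → Subgroup G → Prop
  | bot : CCh 0 ⊥
  | step {n : ℕ} {Y : Subgroup G} (z : G) :
      CCh n Y → (∀ g : G, g * z * g⁻¹ * z⁻¹ ∈ Y) → CCh (n + 1) (Y ⊔ Subgroup.zpowers z)

/-- A maximal proper cone (invariant under positive elements) with (weak) order unit `ε`. -/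
structure IsMaxCone (G : Type*) {V : Type*} [Group G] [AddCommGroup V] [Module (RA G) V]
    (K : AddSubmonoid V) (ε : V) : Prop where
  smul : ∀ a : RA G, Pos a → ∀ v ∈ K, a • v ∈ K
  eps_mem : ε ∈ K
  neg_eps : -ε ∉ K
  max : ∀ w, w ∉ K → ∃ k ∈ K, ∃ a : RA G, Pos a ∧ -ε = k + a • w
  gen : ∀ w : V, ∃ a : RA G, Pos a ∧ a • ε + w ∈ K

/-- Boundedness of the unit `a • ε` with constants supported on `Y`. -/
def Bd {G V : Type*} [Group G] [AddCommGroup V] [Module (RA G) V]
    (K : AddSubmonoid V) (ε : V) (Y : Subgroup G) : Prop :=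
  ∃ a : RA G, Pos a ∧ ∀ g : G, ∃ s : RA G, PosOn (Y : Set G) s ∧
    s • a • ε - gel g • a • ε ∈ K

/-- Elements of the group ring with support in a submonoid. -/
noncomputable def suppAlg {G : Type*} [Group G] (T : Submonoid G) : Subring (RA G) where
  carrier := {f | ∀ g, f.coeff g ≠ 0 → g ∈ T}
  mul_mem' := by
    classical
    intro a b ha hb g hg
    have h1 : g ∈ (a * b).coeff.support := by simpa using hg
    have h2 := MonoidAlgebra.support_coeff_mul_subset a b h1
    obtain ⟨x, hx, y, hy, rfl⟩ := Finset.mem_mul.1 h2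
    exact T.mul_mem (ha x (by simpa using hx)) (hb y (by simpa using hy))
  one_mem' := by
    classical
    intro g hg
    by_cases h : g = 1
    · rw [h]; exact T.one_mem
    · exact absurd (by simp [MonoidAlgebra.one_def, Ne.symm h]) hg
  add_mem' := by
    intro a b ha hb g hg
    by_contra h
    have h1 : a.coeff g = 0 := by by_contra h'; exact h (ha g h')
    have h2 : b.coeff g = 0 := by by_contra h'; exact h (hb g h')
    exact hg (by simp [h1, h2])
  zero_mem' := by
    intro g hg
    exact absurd (by simp) hg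
  neg_mem' := by
    intro a ha g hg
    exact ha g (by intro h; exact hg (by simp [h]))

/-- Bi-orders on a group, given by the set of elements `> 1`. -/
structure IsBO {G : Type*} [Group G] (P : Set G) : Prop where
  one : (1 : G) ∉ P
  mul : ∀ a ∈ P, ∀ b ∈ P, a * b ∈ P
  conj : ∀ a ∈ P, ∀ g : G, g * a * g⁻¹ ∈ P
  tri : ∀ a : G, a ≠ 1 → a ∈ P ∨ a⁻¹ ∈ P

/-- Torsion-free groups. -/
def TorFree (G : Type*) [Group G] : Prop := ∀ (x : G) (n : ℕ), n ≠ 0 → x ^ n = 1 → x = 1

/-- Divisible groups (every element has all roots). -/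
def Divi (G : Type*) [Group G] : Prop := ∀ (n : ℕ), n ≠ 0 → ∀ x : G, ∃ y : G, y ^ n = x

end Bludov
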