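import Pool.Agent.helper77.Bludov.J1

/-!
# Everything together (modules J2 and F)
-/

namespace Bludov

universe u

theorem Conv.bot {G : Type*} [Group G] {P : Set G} (hP : IsBO P) :
    Conv P (⊥ : Subgroup G) := by
  refine ⟨inferInstance, ?_⟩
  intro x hx y hy hxy
  rw [Subgroup.mem_bot] at hy
  rw [hy, mul_one] at hxy
  exact absurd hxy (hP.inv_notMem hx)

theorem Conv.chain {G : Type*} [Group G] {P : Set G} (hP : IsBO P) {M N : Subgroup G}
    (hM : Conv P M) (hN : Conv P N) : M ≤ N ∨ N ≤ M := by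
  by_contra hcon
  rw [not_or, SetLike.not_le_iff_exists, SetLike.not_le_iff_exists] at hcon
  -- positive elements outside
  have key : ∀ {M N : Subgroup G}, (∃ a ∈ M, a ∉ N) → ∃ a ∈ M, a ∉ N ∧ a ∈ P := by
    rintro M N ⟨a, ha, ha'⟩
    have h1 : a ≠ 1 := fun e => ha' (e ▸ N.one_mem)
    rcases hP.tri a h1 with h | h
    · exact ⟨a, ha, ha', h⟩
    · exact ⟨a⁻¹, M.inv_mem ha, fun h2 => ha' (by simpa using N.inv_mem h2), h⟩
  obtain ⟨a, ha, ha', hap⟩ := key hcon.1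
  obtain ⟨b, hb, hb', hbp⟩ := key hcon.2
  have h1 : a⁻¹ * b ≠ 1 := by
    intro h
    rw [inv_mul_eq_one] at h
    exact ha' (h ▸ hb)
  rcases hP.tri _ h1 with h | h
  · exact ha' (hN.2 a hap b hb h)
  · refine hb' (hM.2 b hbp a ha ?_)
    rwa [show b⁻¹ * a = (a⁻¹ * b)⁻¹ by group]

/-- The largest convex normal subgroup without `x`. -/
theorem Conv.exists_largest {G : Type*} [Group G] {P : Set G} (hP : IsBO P) {x : G}
    (hx : x ≠ 1) : ∃ F : Subgroup G, Conv P F ∧ x ∉ F ∧ ∀ C, Conv P C → x ∉ C → C ≤ F := by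
  let S : Set (Subgroup G) := {C | Conv P C ∧ x ∉ C}
  have hne : S.Nonempty := ⟨⊥, Conv.bot hP, by simpa using hx⟩
  have hdir : DirectedOn (· ≤ ·) S := by
    intro M hM N hN
    rcases hM.1.chain hP hN.1 with h | h
    · exact ⟨N, hN, h, le_rfl⟩
    · exact ⟨M, hM, le_rfl, h⟩
  have hmem : ∀ y, y ∈ sSup S ↔ ∃ C ∈ S, y ∈ C := fun y =>
    Subgroup.mem_sSup_of_directedOn hne hdir
  refine ⟨sSup S, ⟨⟨?_⟩, ?_⟩, ?_, ?_⟩
  · intro y hy g
    obtain ⟨C, hC, hyC⟩ := (hmem y).mp hy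
    exact (hmem _).mpr ⟨C, hC, hC.1.1.conj_mem y hyC g⟩
  · intro z hz y hy hzy
    obtain ⟨C, hC, hyC⟩ := (hmem y).mp hy
    exact (hmem _).mpr ⟨C, hC, hC.1.2 z hz y hyC hzy⟩
  · intro hxS
    obtain ⟨C, hC, hxC⟩ := (hmem x).mp hxS
    exact hC.2 hxC
  · intro C hC hxC
    exact le_sSup ⟨hC, hxC⟩

/-- preimages of convex normal subgroups -/
theorem Conv.comap {G : Type*} [Group G] {P : Set G} (F : Subgroup G) [F.Normal]
    {C : Subgroup (G ⧸ F)}
    (hC : Conv {x : G ⧸ F | x ≠ 1 ∧ ∃ g ∈ P, (QuotientGroup.mk g : G ⧸ F) = x} C) :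
    Conv P (C.comap (QuotientGroup.mk' F)) := by
  have := hC.1
  refine ⟨inferInstance, ?_⟩
  intro x hx y hy hxy
  rw [Subgroup.mem_comap] at hy ⊢
  by_cases h1 : (QuotientGroup.mk' F) x = 1
  · rw [h1]; exact C.one_mem
  by_cases h2 : ((QuotientGroup.mk' F) x)⁻¹ * (QuotientGroup.mk' F) y = 1
  · rw [inv_mul_eq_one] at h2
    rw [h2]; exact hy
  · exact hC.2 _ ⟨h1, x, hx, rfl⟩ _ hy ⟨h2, x⁻¹ * y, hxy, rfl⟩

/-- J2 : everything together -/
theorem embed_BO (hore : OreNatAll.{u}) (G : Type u) [Group G] {P : Set G} (hP : IsBO P) (A : Subgroup G) [A.Normal]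
    (hab : ∀ a ∈ A, ∀ b ∈ A, a * b = b * a) (hnil : Group.IsNilpotent (G ⧸ A)) :
    ∃ (H : Type u) (_ : Group H) (PH : Set H), IsBO PH ∧ Divi H ∧
      ∃ φ : G →* H, ∀ x ∈ P, φ x ∈ PH := by
  classical
  let J := {F : Subgroup G // Conv P F}
  let lin : LinearOrder J :=
    { (inferInstance : PartialOrder J) with
      le_total := fun M N => Conv.chain hP M.2 N.2
      toDecidableLE := fun _ _ => Classical.propDecidable _ }
  have hlt : ∀ i j : J, i < j → i.1 ≤ j.1 ∧ ¬ j.1 ≤ i.1 := by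
    intro i j hij
    exact ⟨le_of_lt hij, not_le_of_gt hij⟩
  -- one jump for each convex normal subgroup
  have hjump : ∀ F : J, ∃ (H : Type u) (_ : Group H) (PH : Set H), IsBO PH ∧ Divi H ∧
      ∃ φ : G →* H, (∀ x ∈ F.1, φ x = 1) ∧
        ∀ x ∈ P, x ∉ F.1 → (∀ C : Subgroup G, Conv P C → F.1 ≤ C → ¬ C ≤ F.1 → x ∈ C) →
          φ x ∈ PH := by
    rintro ⟨F, hF⟩
    have hFn : F.Normal := hF.1
    have hA' : (A.map (QuotientGroup.mk' F)).Normal :=
      Subgroup.Normal.map inferInstance _ (QuotientGroup.mk'_surjective F)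
    have hab' : ∀ a ∈ A.map (QuotientGroup.mk' F), ∀ b ∈ A.map (QuotientGroup.mk' F),
        a * b = b * a := by
      rintro _ ⟨a, ha, rfl⟩ _ ⟨b, hb, rfl⟩
      rw [← map_mul, ← map_mul, hab a ha b hb]
    have hnil' : Group.IsNilpotent ((G ⧸ F) ⧸ A.map (QuotientGroup.mk' F)) := by
      have hsurj : Function.Surjective
          (QuotientGroup.map A (A.map (QuotientGroup.mk' F)) (QuotientGroup.mk' F)
            (Subgroup.le_comap_map _ _)) := by
        intro x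
        obtain ⟨y, rfl⟩ := QuotientGroup.mk_surjective x
        obtain ⟨g, rfl⟩ := QuotientGroup.mk_surjective y
        exact ⟨QuotientGroup.mk g, rfl⟩
      exact Group.nilpotent_of_surjective _ hsurj
    obtain ⟨H, _, PH, hPH, hdiv, φ, hφ⟩ := one_jump hore (G ⧸ F) (quot_isBO hP F hF)
      (A.map (QuotientGroup.mk' F)) hab' hnil'
    refine ⟨H, inferInstance, PH, hPH, hdiv, φ.comp (QuotientGroup.mk' F), ?_, ?_⟩
    · intro x hx
      have : (QuotientGroup.mk' F) x = 1 := (QuotientGroup.eq_one_iff x).mpr hx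
      rw [MonoidHom.comp_apply, this, map_one]
    · intro x hx hxF hxC
      have h1 : (QuotientGroup.mk' F) x ≠ 1 := fun h => hxF ((QuotientGroup.eq_one_iff x).mp h)
      refine hφ _ ⟨h1, x, hx, rfl⟩ ?_
      intro C hC hC'
      have h2 := hC.comap F
      refine Subgroup.mem_comap.mp (hxC _ h2 ?_ ?_)
      · intro y hy
        have h3 : (QuotientGroup.mk' F) y = 1 := (QuotientGroup.eq_one_iff y).mpr hy
        rw [Subgroup.mem_comap, h3]
        exact C.one_mem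
      · intro hle
        apply hC'
        rw [eq_bot_iff]
        intro y hy
        obtain ⟨g, rfl⟩ := QuotientGroup.mk_surjective y
        exact Subgroup.mem_bot.mpr ((QuotientGroup.eq_one_iff g).mpr
          (hle (Subgroup.mem_comap.mpr hy)))
  choose H hG PH hPH hdiv φ hφ1 hφ2 using hjump
  obtain ⟨PP, hPP, hPP'⟩ := prod_isBO (J := J) PH hPH
  refine ⟨∀ F : J, H F, inferInstance, PP, hPP, ?_, MonoidHom.pi φ, ?_⟩
  · intro n hn x
    choose y hy using fun F => hdiv F n hn (x F)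
    exact ⟨y, funext hy⟩
  · intro x hx
    obtain ⟨F, hF, hxF, hFmax⟩ := Conv.exists_largest hP (hP.ne_one hx)
    refine hPP' _ ⟨F, hF⟩ ?_ ?_
    · intro i hi
      refine hφ1 i x ?_
      by_contra hcon
      exact (hlt _ _ hi).2 (hFmax _ i.2 hcon)
    · refine hφ2 ⟨F, hF⟩ x hx hxF ?_
      intro C hC h1 h2
      by_contra hcon
      exact h2 (hFmax C hC hcon)

/-- F : final statement -/
theorem final_of (hore : OreNatAll.{u}) : ∀ (G : Type u) [Group G] [LinearOrder G] [MulLeftMono G] [MulRightMono G]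
    (A : Subgroup G) [A.Normal], (∀ a ∈ A, ∀ b ∈ A, a * b = b * a) →
    Group.IsNilpotent (G ⧸ A) →
    ∃ (H : Type u) (_ : Group H) (_ : LinearOrder H), MulLeftMono H ∧ MulRightMono H ∧
      (∀ (n : ℕ), n ≠ 0 → ∀ x : H, ∃ y : H, y ^ n = x) ∧
      ∃ φ : G →* H, StrictMono φ := by
  intro G _ _ _ _ A _ hab hnil
  obtain ⟨H, _, PH, hPH, hdiv, φ, hφ⟩ := embed_BO hore G (isBO_of_order G) A hab hnil
  refine ⟨H, inferInstance, hPH.linearOrder, hPH.mulLeftMono, hPH.mulRightMono, hdiv, φ, ?_⟩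
  intro a b hab
  show (φ a)⁻¹ * φ b ∈ PH
  rw [← map_inv, ← map_mul]
  apply hφ
  show (1 : G) < a⁻¹ * b
  rw [lt_inv_mul_iff_mul_lt, mul_one]
  exact hab

end Bludov
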