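import Pool.Agent.helper77.Bludov.Basic

/-!
# ON : rational functionals, domains, natural coefficients
-/

namespace Bludov

universe u v

/-- ON1: rational version of positivity -/
theorem exists_rat_functional (F : Finset ℝ) (hF : ∀ r ∈ F, 0 < r) :
    ∃ L : ℝ →ₗ[ℚ] ℚ, ∀ r ∈ F, 0 < L r := by
  classical
  let W : Submodule ℚ ℝ := Submodule.span ℚ (F : Set ℝ)
  have hW : Module.Finite ℚ W := Module.Finite.span_of_finite ℚ (Finset.finite_toSet F)
  let B := Module.finBasis ℚ W
  have hFW : ∀ r ∈ F, r ∈ W := fun r hr => Submodule.subset_span hr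
  let U : Set (Fin (Module.finrank ℚ W) → ℝ) :=
    {θ | ∀ r : F, 0 < ∑ i, ((B.repr ⟨r.1, hFW r.1 r.2⟩ i : ℚ) : ℝ) * θ i}
  have hUo : IsOpen U := by
    have : U = ⋂ r : F, {θ | 0 < ∑ i, ((B.repr ⟨r.1, hFW r.1 r.2⟩ i : ℚ) : ℝ) * θ i} := by
      ext θ; simp [U]
    rw [this]
    exact isOpen_iInter_of_finite fun r => isOpen_lt continuous_const (by fun_prop)
  have hUn : (fun i => ((B i : W) : ℝ)) ∈ U := by
    intro r
    have h1 : ∑ i, (B.repr ⟨r.1, hFW r.1 r.2⟩ i) • B i = ⟨r.1, hFW r.1 r.2⟩ :=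
      B.sum_repr _
    have h2 := congrArg (fun w : W => (w : ℝ)) h1
    simp only [Submodule.coe_sum, Submodule.coe_smul] at h2
    have h3 : ∑ i, ((B.repr ⟨r.1, hFW r.1 r.2⟩ i : ℚ) : ℝ) * ((B i : W) : ℝ) = r.1 := by
      refine Eq.trans (Finset.sum_congr rfl fun i _ => ?_) h2
      rw [Rat.smul_def]
    show 0 < ∑ i, ((B.repr ⟨r.1, hFW r.1 r.2⟩ i : ℚ) : ℝ) * ((B i : W) : ℝ)
    rw [h3]
    exact hF r.1 r.2
  have hdense : DenseRange (Pi.map (fun (_ : Fin (Module.finrank ℚ W)) (q : ℚ) => (q : ℝ))) :=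
    DenseRange.piMap fun _ => Rat.denseRange_cast
  obtain ⟨_, hθ, θ, rfl⟩ := hdense.exists_mem_open hUo ⟨_, hUn⟩ |>.elim fun θ hθ =>
    (⟨_, hθ, θ, rfl⟩ : ∃ x ∈ U, ∃ θ, Pi.map (fun (_ : Fin (Module.finrank ℚ W)) (q : ℚ) =>
      (q : ℝ)) θ = x)
  obtain ⟨L, hL⟩ := LinearMap.exists_extend (B.constr ℚ θ : W →ₗ[ℚ] ℚ)
  refine ⟨L, fun r hr => ?_⟩
  have h1 : L r = (B.constr ℚ θ : W →ₗ[ℚ] ℚ) ⟨r, hFW r hr⟩ := by
    rw [← hL]; rfl
  have h2 := hθ ⟨r, hr⟩
  rw [h1, Module.Basis.constr_apply_fintype]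
  have h3 : (0 : ℝ) < ((∑ i, B.equivFun ⟨r, hFW r hr⟩ i • θ i : ℚ) : ℝ) := by
    push_cast
    simpa [Pi.map, smul_eq_mul] using h2
  exact_mod_cast h3

/-- the linear order of a bi-order -/
@[instance_reducible]
noncomputable def boOrder {G : Type*} [Group G] {P : Set G} (hP : IsBO P) : LinearOrder G :=
  { le := fun a b => a = b ∨ a⁻¹ * b ∈ P
    lt := fun a b => a⁻¹ * b ∈ P
    le_refl := fun a => Or.inl rfl
    le_trans := by
      rintro a b c (rfl | h1) (rfl | h2)
      · exact Or.inl rfl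
      · exact Or.inr h2
      · exact Or.inr h1
      · right
        have := hP.mul _ h1 _ h2
        have h3 : a⁻¹ * b * (b⁻¹ * c) = a⁻¹ * c := by group
        rwa [h3] at this
    lt_iff_le_not_ge := by
      intro a b
      constructor
      · intro h
        refine ⟨Or.inr h, ?_⟩
        rintro (rfl | h2)
        · rw [inv_mul_cancel] at h; exact hP.one h
        · have := hP.mul _ h _ h2
          have h3 : a⁻¹ * b * (b⁻¹ * a) = 1 := by group
          rw [h3] at this
          exact hP.one this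
      · rintro ⟨rfl | h, h2⟩
        · exact absurd (Or.inl rfl) h2
        · exact h
    le_antisymm := by
      rintro a b (rfl | h1) (h2 | h2)
      · rfl
      · rfl
      · exact h2.symm
      · have := hP.mul _ h1 _ h2
        have h3 : a⁻¹ * b * (b⁻¹ * a) = 1 := by group
        rw [h3] at this
        exact absurd this hP.one
    le_total := by
      intro a b
      by_cases hab : a = b
      · exact Or.inl (Or.inl hab)
      · have h1 : a⁻¹ * b ≠ 1 := by
          intro h; apply hab; exact (inv_mul_eq_one.1 h)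
        rcases hP.tri _ h1 with h | h
        · exact Or.inl (Or.inr h)
        · right; right
          have h3 : (a⁻¹ * b)⁻¹ = b⁻¹ * a := by group
          rwa [h3] at h
    toDecidableLE := Classical.decRel _ }

/-- ON2: the bi-ordered group ring is a domain -/
theorem noZeroDivisors_of_isBO {G : Type*} [Group G] {P : Set G} (hP : IsBO P)
    (R : Type*) [Semiring R] [NoZeroDivisors R] : NoZeroDivisors (MonoidAlgebra R G) := by
  let _ := boOrder hP
  have : MulLeftStrictMono G := ⟨by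
    intro a b c h
    show (a * b)⁻¹ * (a * c) ∈ P
    have h3 : (a * b)⁻¹ * (a * c) = b⁻¹ * c := by group
    rw [h3]
    exact h⟩
  have : MulRightStrictMono G := ⟨by
    intro a b c h
    show (b * a)⁻¹ * (c * a) ∈ P
    have h3 : (b * a)⁻¹ * (c * a) = a⁻¹ * (b⁻¹ * c) * a⁻¹⁻¹ := by group
    rw [h3]
    exact hP.conj _ h _⟩
  infer_instance

/-- natural coefficients from real ones -/
theorem nat_of_real {G : Type*} [Group G] (a b : MonoidAlgebra ℕ G) (c d : RA G)
    (hc : Pos c) (hd : Pos d)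
    (h : c * MonoidAlgebra.mapRingHom G (Nat.castRingHom ℝ) a =
      d * MonoidAlgebra.mapRingHom G (Nat.castRingHom ℝ) b) :
    ∃ c' d' : MonoidAlgebra ℕ G, c' ≠ 0 ∧ d' ≠ 0 ∧ c' * a = d' * b := by
  classical
  let F : Finset ℝ := (c.coeff.support.image c.coeff) ∪ (d.coeff.support.image d.coeff)
  obtain ⟨L, hL⟩ := exists_rat_functional F (by
    intro r hr
    rcases Finset.mem_union.1 hr with hr | hr
    · obtain ⟨g, hg, rfl⟩ := Finset.mem_image.1 hr
      exact lt_of_le_of_ne (hc.2 g) (Ne.symm (by simpa using hg))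
    · obtain ⟨g, hg, rfl⟩ := Finset.mem_image.1 hr
      exact lt_of_le_of_ne (hd.2 g) (Ne.symm (by simpa using hg)))
  let M : ℕ := ∏ r ∈ F, (L r).den
  have hM : 0 < M := Finset.prod_pos fun r _ => (L r).pos
  have hval : ∀ r, r ∈ F ∨ r = 0 → ∃ n : ℕ, (n : ℚ) = M * L r ∧ (r ∈ F → 0 < n) := by
    intro r hr
    rcases hr with hr | rfl
    · obtain ⟨m, hm⟩ : (L r).den ∣ M := Finset.dvd_prod_of_mem _ hr
      have hpos := hL r hr
      have hnum : 0 < (L r).num := Rat.num_pos.2 hpos
      refine ⟨m * (L r).num.toNat, ?_, fun _ => ?_⟩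
      · push_cast
        have h1 : (((L r).num.toNat : ℕ) : ℚ) = ((L r).num : ℚ) := by
          have : (((L r).num.toNat : ℕ) : ℤ) = (L r).num := Int.toNat_of_nonneg hnum.le
          exact_mod_cast this
        rw [h1, hm]
        push_cast
        have h2 := Rat.mul_den_eq_num (L r)
        linear_combination (-(m : ℚ)) * h2
      · refine Nat.mul_pos ?_ (by omega)
        rcases Nat.eq_zero_or_pos m with h0 | h0
        · rw [h0, mul_zero] at hm; omega
        · exact h0
    · by_cases h0 : (0 : ℝ) ∈ F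
      · have := hL 0 h0
        rw [map_zero] at this
        exact absurd this (lt_irrefl _)
      · exact ⟨0, by simp, fun h => absurd h h0⟩
  have hcF : ∀ g, c.coeff g ∈ F ∨ c.coeff g = 0 := by
    intro g
    by_cases h0 : c.coeff g = 0
    · exact Or.inr h0
    · exact Or.inl (Finset.mem_union_left _ (Finset.mem_image.2 ⟨g, by simpa using h0, rfl⟩))
  have hdF : ∀ g, d.coeff g ∈ F ∨ d.coeff g = 0 := by
    intro g
    by_cases h0 : d.coeff g = 0
    · exact Or.inr h0
    · exact Or.inl (Finset.mem_union_right _ (Finset.mem_image.2 ⟨g, by simpa using h0, rfl⟩))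
  choose nc hnc hnc' using fun g => hval _ (hcF g)
  choose nd hnd hnd' using fun g => hval _ (hdF g)
  have hMq : (M : ℚ) ≠ 0 := by exact_mod_cast hM.ne'
  have hnc0 : ∀ g, c.coeff g = 0 → nc g = 0 := by
    intro g h0
    have := hnc g
    rw [h0, map_zero, mul_zero] at this
    exact_mod_cast this
  have hnd0 : ∀ g, d.coeff g = 0 → nd g = 0 := by
    intro g h0
    have := hnd g
    rw [h0, map_zero, mul_zero] at this
    exact_mod_cast this
  let c' : MonoidAlgebra ℕ G := MonoidAlgebra.ofCoeff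
    (Finsupp.onFinset c.coeff.support nc fun g hg => by
      simp only [Finsupp.mem_support_iff]; exact fun h0 => hg (hnc0 g h0))
  let d' : MonoidAlgebra ℕ G := MonoidAlgebra.ofCoeff
    (Finsupp.onFinset d.coeff.support nd fun g hg => by
      simp only [Finsupp.mem_support_iff]; exact fun h0 => hg (hnd0 g h0))
  have hc' : ∀ g, c'.coeff g = nc g := fun g => rfl
  have hd' : ∀ g, d'.coeff g = nd g := fun g => rfl
  refine ⟨c', d', ?_, ?_, ?_⟩
  · intro h0
    obtain ⟨g, hg⟩ := hc.exists_pos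
    have h1 : nc g = 0 := by rw [← hc', h0]; rfl
    have h2 := hnc' g ((hcF g).resolve_right hg.ne')
    omega
  · intro h0
    obtain ⟨g, hg⟩ := hd.exists_pos
    have h1 : nd g = 0 := by rw [← hd', h0]; rfl
    have h2 := hnd' g ((hdF g).resolve_right hg.ne')
    omega
  · -- the general formula
    have key : ∀ (e : RA G) (ne : G → ℕ) (e' : MonoidAlgebra ℕ G) (f : MonoidAlgebra ℕ G),
        (∀ g, e'.coeff g = ne g) → (∀ g, (ne g : ℚ) = M * L (e.coeff g)) →
        (∀ g, e.coeff g = 0 → ne g = 0) →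
        ∀ g, (((e' * f).coeff g : ℕ) : ℚ) =
          M * L ((e * MonoidAlgebra.mapRingHom G (Nat.castRingHom ℝ) f).coeff g) := by
      intro e ne e' f h1 h2 h3 g
      have hsub : e'.coeff.support ⊆ e.coeff.support := by
        intro x hx
        rw [Finsupp.mem_support_iff] at hx ⊢
        intro h0
        exact hx (by rw [h1, h3 x h0])
      rw [MonoidAlgebra.coeff_mul_apply_left, MonoidAlgebra.coeff_mul_apply_left,
        Finsupp.sum_of_support_subset _ hsub _ (fun x _ => by simp), Finsupp.sum, map_sum,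
        Nat.cast_sum, Finset.mul_sum]
      refine Finset.sum_congr rfl fun x _ => ?_
      have h4 : (MonoidAlgebra.mapRingHom G (Nat.castRingHom ℝ) f).coeff (x⁻¹ * g) =
          (f.coeff (x⁻¹ * g) : ℝ) := by
        simp
      rw [h4, h1, Nat.cast_mul, h2]
      have h5 : e.coeff x * ((f.coeff (x⁻¹ * g) : ℕ) : ℝ) =
          ((f.coeff (x⁻¹ * g) : ℕ) : ℚ) • e.coeff x := by
        rw [Rat.smul_def, mul_comm]
        push_cast
        rfl
      rw [h5, map_smul, smul_eq_mul]
      ring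
    ext g
    have h1 := key c nc c' a hc' hnc hnc0 g
    have h2 := key d nd d' b hd' hnd hnd0 g
    rw [h] at h1
    have h3 : (((c' * a).coeff g : ℕ) : ℚ) = (((d' * b).coeff g : ℕ) : ℚ) := by rw [h1, h2]
    exact_mod_cast h3

/-- the positive Ore lemma over `ℕ`, from the real one for finitely generated nilpotent groups -/
theorem oreNat_of
    (hcch : ∀ (G : Type u) [Group G] [Group.FG G] [Group.IsNilpotent G],
      ∃ n, CCh n (⊤ : Subgroup G))
    (hore : ∀ (n : ℕ) (G : Type u) [Group G], CCh n (⊤ : Subgroup G) →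
      NoZeroDivisors (RA G) → OrePlus G)
    (Q : Type u) [Group Q] [Group.IsNilpotent Q] {P : Set Q} (hP : IsBO P)
    (a b : MonoidAlgebra ℕ Q) (ha : a ≠ 0) (hb : b ≠ 0) :
    ∃ c d : MonoidAlgebra ℕ Q, c ≠ 0 ∧ d ≠ 0 ∧ c * a = d * b := by
  classical
  let S : Finset Q := a.coeff.support ∪ b.coeff.support
  let H : Subgroup Q := Subgroup.closure (S : Set Q)
  have : Group.FG H := by
    have : H.FG := ⟨S, rfl⟩
    exact (Group.fg_iff_subgroup_fg H).2 this
  obtain ⟨n, hn⟩ := hcch H
  have hPH : IsBO {x : H | (x : Q) ∈ P} := by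
    refine ⟨hP.one, fun a ha b hb => hP.mul _ ha _ hb, fun a ha g => hP.conj _ ha _, ?_⟩
    intro x hx
    have h1 : (x : Q) ≠ 1 := fun h => hx (Subtype.ext h)
    exact hP.tri _ h1
  have hnz : NoZeroDivisors (RA H) := noZeroDivisors_of_isBO hPH ℝ
  have hinj : Function.Injective (Subtype.val : H → Q) := Subtype.val_injective
  have hlift : ∀ x : MonoidAlgebra ℕ Q, x.coeff.support ⊆ S →
      ∃ y : MonoidAlgebra ℕ H, MonoidAlgebra.mapDomainRingHom ℕ H.subtype y = x := by
    intro x hx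
    refine ⟨MonoidAlgebra.comapDomain Subtype.val hinj x, ?_⟩
    refine MonoidAlgebra.mapDomain_comapDomain ?_ hinj
    intro q hq
    exact ⟨⟨q, Subgroup.subset_closure (hx hq)⟩, rfl⟩
  obtain ⟨a', hea⟩ := hlift a Finset.subset_union_left
  obtain ⟨b', heb⟩ := hlift b Finset.subset_union_right
  have ha' : a' ≠ 0 := by rintro rfl; exact ha (by rw [← hea, map_zero])
  have hb' : b' ≠ 0 := by rintro rfl; exact hb (by rw [← heb, map_zero])
  have hpos : ∀ x : MonoidAlgebra ℕ H, x ≠ 0 →
      Pos (MonoidAlgebra.mapRingHom H (Nat.castRingHom ℝ) x) := by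
    intro x hx
    obtain ⟨g, hg⟩ : ∃ g, x.coeff g ≠ 0 := by
      by_contra hcon
      push Not at hcon
      exact hx (by ext g; simpa using hcon g)
    refine pos_of (fun h => ?_) g ?_
    · simp
    · have : (MonoidAlgebra.mapRingHom H (Nat.castRingHom ℝ) x).coeff g = (x.coeff g : ℝ) := by
        simp
      rw [this]
      exact_mod_cast Nat.pos_of_ne_zero hg
  obtain ⟨c, d, hc, hd, hcd⟩ := hore n H hn hnz _ _ (hpos a' ha') (hpos b' hb')
  obtain ⟨c', d', h1, h2, h3⟩ := nat_of_real a' b' c d hc hd hcd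
  have hinj' : Function.Injective (MonoidAlgebra.mapDomainRingHom ℕ H.subtype) :=
    MonoidAlgebra.mapDomain_injective hinj
  refine ⟨MonoidAlgebra.mapDomainRingHom ℕ H.subtype c',
    MonoidAlgebra.mapDomainRingHom ℕ H.subtype d', ?_, ?_, ?_⟩
  · intro h; exact h1 (hinj' (h.trans (map_zero _).symm))
  · intro h; exact h2 (hinj' (h.trans (map_zero _).symm))
  · rw [← hea, ← heb, ← map_mul, h3, map_mul]

end Bludov
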