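import Pool.Agent.helper77.Bludov.O
import Pool.Agent.helper77.Bludov.C1
import Pool.Agent.helper77.Bludov.ON
import Pool.Agent.helper77.Bludov.J2

/-!
# Final theorem
-/

namespace Bludov

universe u

theorem oreNat (Q : Type u) [Group Q] [Group.IsNilpotent Q] {P : Set Q} (hP : IsBO P)
    (a b : MonoidAlgebra ℕ Q) (ha : a ≠ 0) (hb : b ≠ 0) :
    ∃ c d : MonoidAlgebra ℕ Q, c ≠ 0 ∧ d ≠ 0 ∧ c * a = d * b :=
  oreNat_of @exists_cch @orePlus_of_cch Q hP a b ha hb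

theorem final : ∀ (G : Type u) [Group G] [LinearOrder G] [MulLeftMono G] [MulRightMono G]
    (A : Subgroup G) [A.Normal], (∀ a ∈ A, ∀ b ∈ A, a * b = b * a) →
    Group.IsNilpotent (G ⧸ A) →
    ∃ (H : Type u) (_ : Group H) (_ : LinearOrder H), MulLeftMono H ∧ MulRightMono H ∧
      (∀ (n : ℕ), n ≠ 0 → ∀ x : H, ∃ y : H, y ^ n = x) ∧
      ∃ φ : G →* H, StrictMono φ :=
  final_of fun Q _ _ _ hP => oreNat Q hP

end Bludov
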