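import Pool.Agent.helper77.Bludov.Lin

/-!
# Convex normal subgroups and the smallest jump in abelian-by-nilpotent ordered groups (module G1)
-/

namespace Bludov

open scoped commutatorElement

universe u

namespace Jmp

section

variable {G : Type u} [Group G] [LinearOrder G]

/-- Convexity of a subgroup. -/
def Cvx (N : Subgroup G) : Prop := ∀ a ∈ N, ∀ x, 1 ≤ x → x ≤ a → x ∈ N

variable [MulLeftMono G] [MulRightMono G]

theorem Cvx.inv {N : Subgroup G} (h : Cvx N) : ∀ a ∈ N, ∀ x, a ≤ x → x ≤ 1 → x ∈ N := by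
  intro a ha x h1 h2
  have := h a⁻¹ (N.inv_mem ha) x⁻¹ (by simpa using h2) (by simpa using h1)
  simpa using this

theorem Cvx.between {N : Subgroup G} (h : Cvx N) {a b x : G} (ha : a ∈ N) (hb : b ∈ N)
    (h1 : a ≤ x) (h2 : x ≤ b) : x ∈ N := by
  rcases le_total 1 x with h3 | h3
  · exact h b hb x h3 h2
  · exact h.inv a ha x h1 h3

theorem Cvx.chain {N M : Subgroup G} (hN : Cvx N) (hM : Cvx M) : N ≤ M ∨ M ≤ N := by
  by_contra hcon
  rw [not_or] at hcon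
  obtain ⟨h1, h2⟩ := hcon
  rw [SetLike.not_le_iff_exists] at h1 h2
  have key : ∀ {N : Subgroup G} {a : G}, a ∈ N → |a|ₘ ∈ N := by
    intro N a ha
    rcases le_total 1 a with h | h
    · rwa [mabs_of_one_le h]
    · rw [mabs_of_le_one h]; exact N.inv_mem ha
  have key2 : ∀ {N : Subgroup G} {a : G}, |a|ₘ ∈ N → a ∈ N := by
    intro N a ha
    rcases le_total 1 a with h | h
    · rwa [mabs_of_one_le h] at ha
    · rw [mabs_of_le_one h] at ha; simpa using N.inv_mem ha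
  obtain ⟨a, ha, ha'⟩ := h1
  obtain ⟨b, hb, hb'⟩ := h2
  have a1 := key ha
  have b1 := key hb
  have ea : (1 : G) ≤ |a|ₘ := by
    rcases le_total 1 a with h | h
    · rwa [mabs_of_one_le h]
    · rw [mabs_of_le_one h]; simpa using h
  have eb : (1 : G) ≤ |b|ₘ := by
    rcases le_total 1 b with h | h
    · rwa [mabs_of_one_le h]
    · rw [mabs_of_le_one h]; simpa using h
  rcases le_total |a|ₘ |b|ₘ with h | h
  · exact ha' (key2 (hM _ b1 _ ea h))
  · exact hb' (key2 (hN _ a1 _ eb h))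

/-- The convex hull of a subgroup. -/
def hull (T : Subgroup G) : Subgroup G where
  carrier := {y | ∃ t₁ ∈ T, ∃ t₂ ∈ T, t₁ ≤ y ∧ y ≤ t₂}
  mul_mem' := by
    rintro a b ⟨s₁, h1, s₂, h2, h3, h4⟩ ⟨t₁, h1', t₂, h2', h3', h4'⟩
    exact ⟨s₁ * t₁, T.mul_mem h1 h1', s₂ * t₂, T.mul_mem h2 h2', mul_le_mul' h3 h3',
      mul_le_mul' h4 h4'⟩
  one_mem' := ⟨1, T.one_mem, 1, T.one_mem, le_rfl, le_rfl⟩
  inv_mem' := by
    rintro a ⟨s₁, h1, s₂, h2, h3, h4⟩
    exact ⟨s₂⁻¹, T.inv_mem h2, s₁⁻¹, T.inv_mem h1, by simpa using h4, by simpa using h3⟩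

theorem hull_cvx (T : Subgroup G) : Cvx (hull T) := by
  rintro a ⟨s₁, h1, s₂, h2, h3, h4⟩ x hx hxa
  exact ⟨1, T.one_mem, s₂, h2, hx, hxa.trans h4⟩

theorem le_hull (T : Subgroup G) : T ≤ hull T := fun t ht => ⟨t, ht, t, ht, le_rfl, le_rfl⟩

theorem hull_le {T N : Subgroup G} (hN : Cvx N) (h : T ≤ N) : hull T ≤ N := by
  rintro a ⟨s₁, h1, s₂, h2, h3, h4⟩
  exact hN.between (h h1) (h h2) h3 h4

theorem hull_normal (T : Subgroup G) (hT : T.Normal) : (hull T).Normal := by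
  refine ⟨?_⟩
  rintro a ⟨s₁, h1, s₂, h2, h3, h4⟩ g
  refine ⟨g * s₁ * g⁻¹, hT.conj_mem _ h1 g, g * s₂ * g⁻¹, hT.conj_mem _ h2 g, ?_, ?_⟩
  · exact mul_le_mul_left (mul_le_mul_right h3 g) g⁻¹
  · exact mul_le_mul_left (mul_le_mul_right h4 g) g⁻¹

/-- The commutator trick: in a minimal convex normal subgroup, an element that is central modulo
the centralizer of `X` centralizes `X`. -/
theorem commute_of_min {X E : Subgroup G} (hX : X.Normal)
    (hmin : ∀ F : Subgroup G, F.Normal → Cvx F → F = ⊥ ∨ E ≤ F)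
    {s : G} (hs : s ∈ E) (hcomm : ∀ g : G, ∀ x ∈ X, Commute ⁅s, g⁆ x) :
    ∀ x ∈ X, Commute s x := by
  wlog hs1 : 1 ≤ s generalizing s
  · have h1 : 1 ≤ s⁻¹ := by
      rw [Left.one_le_inv_iff]; exact (not_le.mp hs1).le
    have h2 := this (s := s⁻¹) (E.inv_mem hs) (by
      intro g x hx
      have e : ⁅s⁻¹, g⁆ = s⁻¹ * ⁅s, g⁆⁻¹ * s := by
        simp only [commutatorElement_def]; group
      rw [e]
      have h3 : Commute ⁅s, g⁆ (s * x * s⁻¹) := hcomm g _ (hX.conj_mem x hx s)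
      have h4 : Commute (s⁻¹ * ⁅s, g⁆ * s) x := by
        have : s⁻¹ * ⁅s, g⁆ * s * x = s⁻¹ * (⁅s, g⁆ * (s * x * s⁻¹)) * s := by group
        show s⁻¹ * ⁅s, g⁆ * s * x = x * (s⁻¹ * ⁅s, g⁆ * s)
        rw [this, h3.eq]
        group
      have h5 := h4.inv_left
      rwa [show (s⁻¹ * ⁅s, g⁆ * s)⁻¹ = s⁻¹ * ⁅s, g⁆⁻¹ * s by group] at h5) h1
    intro x hx
    have := (h2 x hx).inv_left
    rwa [inv_inv] at this
  -- the subgroup of commutators `⁅s, x⁆`
  have hmul : ∀ x ∈ X, ∀ y ∈ X, ⁅s, x * y⁆ = ⁅s, x⁆ * ⁅s, y⁆ := by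
    intro x hx y hy
    have h1 : ⁅s, x * y⁆ = ⁅s, x⁆ * (x * ⁅s, y⁆ * x⁻¹) := by
      simp only [commutatorElement_def]; group
    rw [h1]
    congr 1
    rw [← (hcomm y x hx).eq]
    group
  let T : Subgroup G :=
    { carrier := {t | ∃ x ∈ X, ⁅s, x⁆ = t}
      mul_mem' := by
        rintro _ _ ⟨x, hx, rfl⟩ ⟨y, hy, rfl⟩
        exact ⟨x * y, X.mul_mem hx hy, hmul x hx y hy⟩
      one_mem' := ⟨1, X.one_mem, by simp [commutatorElement_def]⟩
      inv_mem' := by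
        rintro _ ⟨x, hx, rfl⟩
        refine ⟨x⁻¹, X.inv_mem hx, ?_⟩
        have := hmul x hx x⁻¹ (X.inv_mem hx)
        rw [mul_inv_cancel, commutatorElement_one_right] at this
        exact (inv_eq_of_mul_eq_one_right this.symm).symm }
  have hTn : T.Normal := by
    refine ⟨?_⟩
    rintro _ ⟨x, hx, rfl⟩ g
    refine ⟨g * x * g⁻¹, hX.conj_mem x hx g, ?_⟩
    -- `g s g⁻¹ = c s` with `c = ⁅g, s⁆`, and `c` commutes with `X`
    have hc : ∀ y ∈ X, Commute (⁅s, g⁆⁻¹) y := fun y hy => (hcomm g y hy).inv_left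
    have e1 : g * s * g⁻¹ = ⁅s, g⁆⁻¹ * s := by
      simp only [commutatorElement_def]; group
    have hy : g * x * g⁻¹ ∈ X := hX.conj_mem x hx g
    have e2 : g * ⁅s, x⁆ * g⁻¹ = ⁅⁅s, g⁆⁻¹ * s, g * x * g⁻¹⁆ := by
      rw [← e1]; simp only [commutatorElement_def]; group
    rw [e2]
    set c := ⁅s, g⁆⁻¹ with hcdef
    set y := g * x * g⁻¹ with hydef
    have e3 : ⁅c * s, y⁆ = c * ⁅s, y⁆ * (y * c⁻¹ * y⁻¹) := by
      simp only [commutatorElement_def]; group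
    rw [e3]
    have e4 : y * c⁻¹ * y⁻¹ = c⁻¹ := by
      rw [← ((hc y hy).inv_left).eq]; group
    rw [e4]
    have hsy : ⁅s, y⁆ ∈ X := by
      have : ⁅s, y⁆ = (s * y * s⁻¹) * y⁻¹ := by simp only [commutatorElement_def]
      rw [this]
      exact X.mul_mem (hX.conj_mem y hy s) (X.inv_mem hy)
    rw [(hc _ hsy).eq]
    group
  rcases hmin (hull T) (hull_normal T hTn) (hull_cvx T) with h | h
  · intro x hx
    have h1 : ⁅s, x⁆ ∈ hull T := le_hull T ⟨x, hx, rfl⟩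
    rw [h, Subgroup.mem_bot] at h1
    exact commutatorElement_eq_one_iff_commute.mp h1
  · -- `s ∈ hull T` is impossible unless `s = 1`
    have hsT : s ∈ hull T := h hs
    obtain ⟨t₁, _, t₂, ⟨x, hx, rfl⟩, _, h2⟩ := hsT
    have h3 : x * s * x⁻¹ = ⁅s, x⁆⁻¹ * s := by simp only [commutatorElement_def]; group
    have h4 : x * s * x⁻¹ ≤ 1 := by
      rw [h3, inv_mul_le_iff_le_mul, mul_one]; exact h2
    have h5 : s ≤ 1 := by
      have := mul_le_mul_left (mul_le_mul_right h4 x⁻¹) x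
      simpa [mul_assoc] using this
    have h6 : s = 1 := le_antisymm h5 hs1
    intro x _
    rw [h6]
    exact Commute.one_left x

end

section

variable {G : Type u} [Group G]

theorem exists_central {N E C : Subgroup G} [N.Normal] (hE : E.Normal)
    (hnil : Group.IsNilpotent (G ⧸ N)) (hC : E ⊓ N ≤ C) (hne : ¬ E ≤ C) :
    ∃ s ∈ E, s ∉ C ∧ ∀ g : G, ⁅s, g⁆ ∈ C := by
  classical
  obtain ⟨n, hn⟩ := Subgroup.nilpotent_iff_lowerCentralSeries.mp hnil
  let K : ℕ → Subgroup G := fun k =>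
    E ⊓ ((⊤ : Subgroup (G ⧸ N)).lowerCentralSeries k).comap (QuotientGroup.mk' N)
  have hex : ∃ k, K k ≤ C := by
    refine ⟨n, ?_⟩
    rintro x ⟨hx1, hx2⟩
    refine hC ⟨hx1, ?_⟩
    have hx3 : (QuotientGroup.mk' N) x ∈ (⊤ : Subgroup (G ⧸ N)).lowerCentralSeries n := hx2
    rw [hn, Subgroup.mem_bot] at hx3
    exact (QuotientGroup.eq_one_iff x).mp hx3
  obtain ⟨k, hk, hmin⟩ : ∃ k, K k ≤ C ∧ ∀ m < k, ¬ K m ≤ C :=
    ⟨Nat.find hex, Nat.find_spec hex, fun m hm => Nat.find_min hex hm⟩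
  rcases k with _ | k
  · exfalso
    refine hne (le_trans ?_ hk)
    intro x hx
    exact ⟨hx, by simp⟩
  · have h1 := hmin k (Nat.lt_succ_self k)
    rw [SetLike.not_le_iff_exists] at h1
    obtain ⟨s, ⟨hs1, hs2⟩, hs3⟩ := h1
    refine ⟨s, hs1, hs3, fun g => hk ⟨?_, ?_⟩⟩
    · have : ⁅s, g⁆ = s * (g * s⁻¹ * g⁻¹) := by simp only [commutatorElement_def]; group
      rw [this]
      exact E.mul_mem hs1 (hE.conj_mem _ (E.inv_mem hs1) g)
    · show (QuotientGroup.mk' N) ⁅s, g⁆ ∈ (⊤ : Subgroup (G ⧸ N)).lowerCentralSeries (k + 1)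
      rw [map_commutatorElement]
      exact Subgroup.commutator_mem_commutator hs2 (Subgroup.mem_top _)

end

section

variable {G : Type u} [Group G] [LinearOrder G] [MulLeftMono G] [MulRightMono G]

/-- A minimal convex normal subgroup centralizes the abelian normal subgroup `N`, and it is
abelian. -/
theorem min_abelian {N E : Subgroup G} [hN : N.Normal] (hNc : ∀ a ∈ N, ∀ b ∈ N, Commute a b)
    (hnil : Group.IsNilpotent (G ⧸ N)) (hEn : E.Normal)
    (hmin : ∀ F : Subgroup G, F.Normal → Cvx F → F = ⊥ ∨ E ≤ F) :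
    (∀ e ∈ E, ∀ x ∈ N, Commute e x) ∧ ∀ e ∈ E, ∀ x ∈ E, Commute e x := by
  have key : ∀ X : Subgroup G, X.Normal → (∀ e ∈ E ⊓ N, ∀ x ∈ X, Commute e x) →
      ∀ e ∈ E, ∀ x ∈ X, Commute e x := by
    intro X hX hXN
    by_contra hcon
    let C : Subgroup G := E ⊓ Subgroup.centralizer (X : Set G)
    have hmemC : ∀ e, e ∈ C ↔ e ∈ E ∧ ∀ x ∈ X, Commute e x := by
      intro e
      simp only [C, Subgroup.mem_inf, Subgroup.mem_centralizer_iff]
      refine and_congr_right fun _ => forall₂_congr fun x _ => ?_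
      exact ⟨fun h => h.symm, fun h => h.symm⟩
    have hC : E ⊓ N ≤ C := fun e he => (hmemC e).mpr ⟨he.1, hXN e he⟩
    have hne : ¬ E ≤ C := fun h => hcon fun e he => ((hmemC e).mp (h he)).2
    obtain ⟨s, hs1, hs2, hs3⟩ := exists_central hEn hnil hC hne
    exact hs2 ((hmemC s).mpr ⟨hs1, commute_of_min hX hmin hs1
      fun g => ((hmemC _).mp (hs3 g)).2⟩)
  have h1 := key N hN fun e he x hx => hNc e he.2 x hx
  refine ⟨h1, key E hEn fun e he x hx => (h1 x hx e he.2).symm⟩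

end

end Jmp

/-- G1 : if `E` is contained in every nontrivial convex normal subgroup, then `E` commutes with
`N` and with itself. -/
theorem minimal_comm {G : Type*} [Group G] {P : Set G} (hP : IsBO P) (N : Subgroup G)
    (hN : N.Normal) (hab : ∀ a ∈ N, ∀ b ∈ N, a * b = b * a) (hnil : Group.IsNilpotent (G ⧸ N))
    (E : Subgroup G) (hE : E.Normal) (hmin : ∀ C : Subgroup G, Conv P C → C ≠ ⊥ → E ≤ C) :
    (∀ x ∈ E, ∀ y ∈ N, x * y = y * x) ∧ (∀ x ∈ E, ∀ y ∈ E, x * y = y * x) := by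
  letI := hP.linearOrder
  haveI := hP.mulLeftMono
  haveI := hP.mulRightMono
  have hlt : ∀ a b : G, a < b ↔ a⁻¹ * b ∈ P := fun a b => Iff.rfl
  refine Jmp.min_abelian (N := N) (E := E) hab hnil hE ?_
  intro F hF hcF
  by_cases h : F = ⊥
  · exact Or.inl h
  · refine Or.inr (hmin F ⟨hF, ?_⟩ h)
    intro x hx y hy hxy
    refine hcF y hy x ?_ ?_
    · exact le_of_lt ((hlt 1 x).mpr (by simpa using hx))
    · exact le_of_lt ((hlt x y).mpr hxy)

end Bludov
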