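import Pool.Agent.helper77.Bludov.Conv

/-!
# G2, G3 : isolator of an abelian normal subgroup, quotient by a convex normal subgroup
-/

namespace Bludov

section
variable {G : Type*} [Group G] {P : Set G}

/-- `a < b` implies `a ^ m < b ^ m` -/
theorem IsBO.pow_lt (hP : IsBO P) {a b : G} (h : a⁻¹ * b ∈ P) (m : ℕ) :
    (a ^ (m + 1))⁻¹ * b ^ (m + 1) ∈ P := by
  induction m with
  | zero => simpa using h
  | succ m ih =>
    have h1 := hP.conj _ ih a⁻¹
    have h2 := hP.mul _ h1 _ h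
    have e : (a ^ (m + 1 + 1))⁻¹ * b ^ (m + 1 + 1)
        = a⁻¹ * ((a ^ (m + 1))⁻¹ * b ^ (m + 1)) * a⁻¹⁻¹ * (a⁻¹ * b) := by
      rw [pow_succ a (m + 1), pow_succ b (m + 1)]
      group
    rw [e]
    exact h2

/-- roots are unique in bi-ordered groups -/
theorem IsBO.eq_of_pow_eq (hP : IsBO P) {a b : G} {m : ℕ} (hm : m ≠ 0) (h : a ^ m = b ^ m) :
    a = b := by
  obtain ⟨k, rfl⟩ := Nat.exists_eq_succ_of_ne_zero hm
  by_contra hne
  have h1 : a⁻¹ * b ≠ 1 := fun h1 => hne (inv_mul_eq_one.1 h1)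
  rcases hP.tri _ h1 with h2 | h2
  · have h3 := hP.pow_lt h2 k
    rw [Nat.succ_eq_add_one] at h
    rw [h] at h3
    exact hP.one (by simpa using h3)
  · have h2' : b⁻¹ * a ∈ P := by
      have e : (a⁻¹ * b)⁻¹ = b⁻¹ * a := by group
      rwa [e] at h2
    have h3 := hP.pow_lt h2' k
    rw [Nat.succ_eq_add_one] at h
    rw [h] at h3
    exact hP.one (by simpa using h3)

/-- if a power of `x` commutes with `y` then `x` commutes with `y` -/
theorem IsBO.commute_of_pow (hP : IsBO P) {x y : G} {m : ℕ} (hm : m ≠ 0)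
    (h : x ^ m * y = y * x ^ m) : x * y = y * x := by
  have h1 : (y * x * y⁻¹) ^ m = x ^ m := by
    rw [conj_pow, ← h]
    group
  have h2 := hP.eq_of_pow_eq hm h1
  calc x * y = (y * x * y⁻¹) * y := by rw [h2]
    _ = y * x := by group

end

/-- G2 : isolator of an abelian normal subgroup -/
theorem isolator {G : Type*} [Group G] {P : Set G} (hP : IsBO P) (N : Subgroup G)
    (hN : N.Normal) (hab : ∀ a ∈ N, ∀ b ∈ N, a * b = b * a) :
    ∃ I : Subgroup G, N ≤ I ∧ I.Normal ∧ (∀ a ∈ I, ∀ b ∈ I, a * b = b * a) ∧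
      ∀ (x : G) (n : ℕ), n ≠ 0 → x ^ n ∈ I → x ∈ I := by
  have comm : ∀ x y : G, (∃ m : ℕ, m ≠ 0 ∧ x ^ m ∈ N) → (∃ m : ℕ, m ≠ 0 ∧ y ^ m ∈ N) →
      x * y = y * x := by
    rintro x y ⟨m, hm, hx⟩ ⟨k, hk, hy⟩
    have h1 : x ^ m * y ^ k = y ^ k * x ^ m := hab _ hx _ hy
    have h2 : y * x ^ m = x ^ m * y := hP.commute_of_pow hk h1.symm
    exact hP.commute_of_pow hm h2.symm
  refine ⟨{ carrier := {x | ∃ m : ℕ, m ≠ 0 ∧ x ^ m ∈ N}, mul_mem' := ?_, one_mem' := ?_,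
            inv_mem' := ?_ }, ?_, ?_, ?_, ?_⟩
  · intro x y hx hy
    have hc : Commute x y := comm x y hx hy
    obtain ⟨m, hm, hx⟩ := hx
    obtain ⟨k, hk, hy⟩ := hy
    refine ⟨m * k, Nat.mul_ne_zero hm hk, ?_⟩
    rw [hc.mul_pow]
    refine N.mul_mem ?_ ?_
    · rw [pow_mul]; exact N.pow_mem hx k
    · rw [mul_comm m k, pow_mul]; exact N.pow_mem hy m
  · exact ⟨1, one_ne_zero, by simp⟩
  · rintro x ⟨m, hm, hx⟩
    exact ⟨m, hm, by rw [inv_pow]; exact N.inv_mem hx⟩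
  · intro x hx
    exact ⟨1, one_ne_zero, by simpa using hx⟩
  · refine ⟨?_⟩
    rintro x ⟨m, hm, hx⟩ g
    refine ⟨m, hm, ?_⟩
    rw [conj_pow]
    exact hN.conj_mem _ hx g
  · intro a ha b hb
    exact comm a b ha hb
  · rintro x n hn ⟨m, hm, hx⟩
    exact ⟨n * m, Nat.mul_ne_zero hn hm, by rw [pow_mul]; exact hx⟩

/-- G3 : quotient by a convex normal subgroup -/
theorem quot_isBO {G : Type*} [Group G] {P : Set G} (hP : IsBO P) (C : Subgroup G) [C.Normal]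
    (hC : Conv P C) : IsBO {x : G ⧸ C | x ≠ 1 ∧ ∃ g ∈ P, (QuotientGroup.mk g : G ⧸ C) = x} := by
  refine ⟨?_, ?_, ?_, ?_⟩
  · rintro ⟨h, -⟩
    exact h rfl
  · rintro a ⟨ha, g, hg, rfl⟩ b ⟨hb, h, hh, rfl⟩
    refine ⟨?_, g * h, hP.mul _ hg _ hh, rfl⟩
    intro h1
    have h2 : g * h ∈ C := (QuotientGroup.eq_one_iff (g * h)).1 h1
    have h3 : g ∈ C := by
      refine hC.2 g hg (g * h) h2 ?_
      rwa [inv_mul_cancel_left]
    exact ha ((QuotientGroup.eq_one_iff g).2 h3)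
  · rintro a ⟨ha, g, hg, rfl⟩ x
    obtain ⟨k, rfl⟩ := QuotientGroup.mk_surjective x
    refine ⟨?_, k * g * k⁻¹, hP.conj _ hg k, rfl⟩
    intro h1
    apply ha
    have h2 : (QuotientGroup.mk k : G ⧸ C) * QuotientGroup.mk g = QuotientGroup.mk k := by
      have := mul_inv_eq_one.1 h1
      exact this
    simpa using h2
  · intro a ha
    obtain ⟨g, rfl⟩ := QuotientGroup.mk_surjective a
    have hg : g ≠ 1 := by
      rintro rfl
      exact ha rfl
    rcases hP.tri g hg with h | h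
    · exact Or.inl ⟨ha, g, h, rfl⟩
    · refine Or.inr ⟨?_, g⁻¹, h, rfl⟩
      intro h1
      exact ha (inv_eq_one.1 h1)

end Bludov
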