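import Pool.Agent.helper77.Bludov.RP

/-!
# MD : torsion-free nilpotent groups embed in divisible torsion-free nilpotent groups
-/

namespace Bludov

open Subgroup Filter

universe u

theorem resid_p_finset {G : Type*} [Group G] [Group.FG G] [Group.IsNilpotent G] (h : TorFree G)
    (p : ℕ) [Fact p.Prime] (S : Finset G) :
    ∃ (N : Subgroup G), N.Normal ∧ (∀ s ∈ S, s ≠ 1 → s ∉ N) ∧ ∀ g : G, ∃ k : ℕ, g ^ p ^ k ∈ N := by
  classical
  induction S using Finset.induction_on with
  | empty => exact ⟨⊤, inferInstance, by simp, fun g => ⟨0, mem_top _⟩⟩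
  | insert s S _ ih =>
    obtain ⟨N, hN, hNS, hNp⟩ := ih
    by_cases hs : s = 1
    · refine ⟨N, hN, fun t ht ht1 => ?_, hNp⟩
      rcases Finset.mem_insert.1 ht with rfl | ht
      · exact absurd hs ht1
      · exact hNS t ht ht1
    · obtain ⟨M, hM, hMs, hMp⟩ := resid_p' h p s hs
      refine ⟨N ⊓ M, Subgroup.normal_inf_normal N M, fun t ht ht1 htm => ?_, fun g => ?_⟩
      · rcases Finset.mem_insert.1 ht with rfl | ht
        · exact hMs htm.2
        · exact hNS t ht ht1 htm.1
      · obtain ⟨k, hk⟩ := hNp g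
        obtain ⟨l, hl⟩ := hMp g
        refine ⟨k + l, ?_, ?_⟩
        · rw [pow_add, pow_mul]; exact pow_mem hk _
        · rw [pow_add, mul_comm, pow_mul]; exact pow_mem hl _

theorem local_quot (Q : Type u) [Group Q] [Group.IsNilpotent Q] (h : TorFree Q)
    (i : Finset Q × ℕ) : ∃ (p : ℕ) (N : Subgroup (Subgroup.closure (i.1 : Set Q))), p.Prime ∧ i.2 < p ∧
      N.Normal ∧ (∀ s ∈ i.1, s ≠ 1 → ∀ hs : s ∈ Subgroup.closure (i.1 : Set Q), (⟨s, hs⟩ : Subgroup.closure _) ∉ N) ∧
      ∀ g : Subgroup.closure (i.1 : Set Q), ∃ k : ℕ, g ^ p ^ k ∈ N := by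
  classical
  obtain ⟨p, hp1, hp⟩ := Nat.exists_infinite_primes (i.2 + 1)
  haveI : Fact p.Prime := ⟨hp⟩
  have htf : TorFree (Subgroup.closure (i.1 : Set Q)) := by
    intro x n hn hx
    apply Subtype.ext
    apply h _ n hn
    have := congrArg Subtype.val hx
    simpa using this
  let T : Finset (Subgroup.closure (i.1 : Set Q)) :=
    i.1.attach.image fun s => ⟨s.1, Subgroup.subset_closure s.2⟩
  obtain ⟨N, hN, hNS, hNp⟩ := resid_p_finset htf p T
  refine ⟨p, N, hp, hp1, hN, fun s hs hs1 hs' => ?_, hNp⟩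
  apply hNS
  · rw [Finset.mem_image]
    exact ⟨⟨s, hs⟩, Finset.mem_attach _ _, rfl⟩
  · intro h1
    exact hs1 (congrArg Subtype.val h1)

/-- MD -/
theorem malcev (Q : Type u) [Group Q] [Group.IsNilpotent Q] (h : TorFree Q) :
    ∃ (Q' : Type u) (_ : Group Q') (ι : Q →* Q'), Function.Injective ι ∧
      Group.IsNilpotent Q' ∧ TorFree Q' ∧ Divi Q' := by
  classical
  choose p N hp hlt hN hNS hNp using local_quot Q h
  haveI : ∀ i, (N i).Normal := hN
  have hF : ∀ i, IsPGroup (p i) (Subgroup.closure (i.1 : Set Q) ⧸ N i) := by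
    intro i x
    obtain ⟨g, rfl⟩ := QuotientGroup.mk_surjective x
    obtain ⟨k, hk⟩ := hNp i g
    exact ⟨k, by rw [← QuotientGroup.mk_pow, QuotientGroup.eq_one_iff]; exact hk⟩
  let R : Subgroup (∀ i : Finset Q × ℕ, Subgroup.closure (i.1 : Set Q) ⧸ N i) :=
    { carrier := {f | ∀ᶠ i in atTop, f i = 1}
      mul_mem' := by
        intro a b ha hb
        filter_upwards [ha, hb] with i h1 h2
        rw [Pi.mul_apply, h1, h2, one_mul]
      one_mem' := Eventually.of_forall fun i => rfl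
      inv_mem' := by
        intro a ha
        filter_upwards [ha] with i h1
        rw [Pi.inv_apply, h1, inv_one] }
  have hR : ∀ f, f ∈ R ↔ ∀ᶠ i in atTop, f i = 1 := fun f => Iff.rfl
  haveI : R.Normal := by
    refine ⟨fun f hf g => ?_⟩
    rw [hR] at hf ⊢
    filter_upwards [hf] with i h1
    rw [Pi.mul_apply, Pi.mul_apply, h1, mul_one, Pi.inv_apply, mul_inv_cancel]
  have hnil : Group.IsNilpotent (∀ i : Finset Q × ℕ, Subgroup.closure (i.1 : Set Q) ⧸ N i) := by
    apply Group.isNilpotent_pi_of_bounded_class (Group.nilpotencyClass Q)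
    intro i
    exact (Group.nilpotencyClass_quotient_le _).trans (Subgroup.nilpotencyClass_le _)
  let φ : Q → ∀ i : Finset Q × ℕ, Subgroup.closure (i.1 : Set Q) ⧸ N i := fun g i =>
    if hg : g ∈ Subgroup.closure (i.1 : Set Q) then ((⟨g, hg⟩ : Subgroup.closure (i.1 : Set Q)) : _ ⧸ N i) else 1
  have hev : ∀ g : Q, ∀ᶠ i : Finset Q × ℕ in atTop, g ∈ i.1 := by
    intro g
    filter_upwards [eventually_ge_atTop (({g}, 0) : Finset Q × ℕ)] with i hi
    exact hi.1 (Finset.mem_singleton_self g)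
  have hev2 : ∀ n : ℕ, ∀ᶠ i : Finset Q × ℕ in atTop, n ≤ i.2 := by
    intro n
    filter_upwards [eventually_ge_atTop ((∅, n) : Finset Q × ℕ)] with i hi
    exact hi.2
  let ι : Q →* (∀ i : Finset Q × ℕ, Subgroup.closure (i.1 : Set Q) ⧸ N i) ⧸ R :=
    MonoidHom.mk' (fun g => (φ g : _ ⧸ R)) (by
      intro a b
      rw [← QuotientGroup.mk_mul, QuotientGroup.eq, hR]
      filter_upwards [hev a, hev b] with i ha hb
      have ha' : a ∈ Subgroup.closure (i.1 : Set Q) := Subgroup.subset_closure ha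
      have hb' : b ∈ Subgroup.closure (i.1 : Set Q) := Subgroup.subset_closure hb
      have hab : a * b ∈ Subgroup.closure (i.1 : Set Q) := mul_mem ha' hb'
      rw [Pi.mul_apply, Pi.inv_apply, Pi.mul_apply]
      simp only [φ, ha', hb', hab, dite_true]
      rw [inv_mul_eq_one]
      rfl)
  refine ⟨_, inferInstance, ι, ?_, ?_, ?_, ?_⟩
  · rw [injective_iff_map_eq_one]
    intro g hg
    have h1 : ((φ g : _) : _ ⧸ R) = 1 := hg
    rw [QuotientGroup.eq_one_iff, hR] at h1
    by_contra hg1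
    obtain ⟨i, hi1, hi2⟩ := (h1.and (hev g)).exists
    have hg' : g ∈ Subgroup.closure (i.1 : Set Q) := Subgroup.subset_closure hi2
    simp only [φ, hg', dite_true] at hi1
    rw [QuotientGroup.eq_one_iff] at hi1
    exact hNS i g hi2 hg1 hg' hi1
  · haveI := hnil
    infer_instance
  · intro x n hn hx
    obtain ⟨f, rfl⟩ := QuotientGroup.mk_surjective x
    rw [← QuotientGroup.mk_pow, QuotientGroup.eq_one_iff, hR] at hx
    rw [QuotientGroup.eq_one_iff, hR]
    filter_upwards [hx, hev2 n] with i h1 h2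
    have hcop : (p i).Coprime n := by
      rw [Nat.Prime.coprime_iff_not_dvd (hp i)]
      intro hd
      have := Nat.le_of_dvd (Nat.pos_of_ne_zero hn) hd
      have := hlt i
      omega
    haveI : Fact (p i).Prime := ⟨hp i⟩
    have h3 := ((hF i).powEquiv hcop).injective (a₁ := f i) (a₂ := 1)
    apply h3
    rw [IsPGroup.powEquiv_apply, IsPGroup.powEquiv_apply, one_pow]
    exact h1
  · intro n hn x
    obtain ⟨f, rfl⟩ := QuotientGroup.mk_surjective x
    have h4 : ∀ i : Finset Q × ℕ, ∃ y : Subgroup.closure (i.1 : Set Q) ⧸ N i, n ≤ i.2 → y ^ n = f i := by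
      intro i
      by_cases h2 : n ≤ i.2
      · have hcop : (p i).Coprime n := by
          rw [Nat.Prime.coprime_iff_not_dvd (hp i)]
          intro hd
          have := Nat.le_of_dvd (Nat.pos_of_ne_zero hn) hd
          have := hlt i
          omega
        haveI : Fact (p i).Prime := ⟨hp i⟩
        obtain ⟨y, hy⟩ := ((hF i).powEquiv hcop).surjective (f i)
        exact ⟨y, fun _ => by rw [← hy, IsPGroup.powEquiv_apply]⟩
      · exact ⟨1, fun h => absurd h h2⟩
    choose y hy using h4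
    refine ⟨((y : ∀ i : Finset Q × ℕ, Subgroup.closure (i.1 : Set Q) ⧸ N i) : _ ⧸ R), ?_⟩
    rw [← QuotientGroup.mk_pow, QuotientGroup.eq, hR]
    filter_upwards [hev2 n] with i h2
    rw [Pi.mul_apply, Pi.inv_apply, Pi.pow_apply, hy i h2, inv_mul_cancel]

end Bludov
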