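import Pool.Agent.helper77.Bludov.Basic

/-!
# P : an order on the full product of ordered groups
-/

namespace Bludov

open Filter

/-- `x` is positive as seen by the finite set `B` of coordinates. -/
def posB {J : Type*} [LinearOrder J] {H : J → Type*} [∀ j, Group (H j)]
    (P : ∀ j, Set (H j)) (x : ∀ j, H j) (B : Finset J) : Prop :=
  ∃ j ∈ B, x j ∈ P j ∧ ∀ i ∈ B, j < i → x i = 1

section

variable {J : Type*} [LinearOrder J] {H : J → Type*} [∀ j, Group (H j)]
    {P : ∀ j, Set (H j)} (hP : ∀ j, IsBO (P j))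

include hP

theorem posB_mul {x y : ∀ j, H j} {B : Finset J} (hx : posB P x B) (hy : posB P y B) :
    posB P (x * y) B := by
  obtain ⟨j, hj, hxj, hx⟩ := hx
  obtain ⟨k, hk, hyk, hy⟩ := hy
  rcases lt_trichotomy j k with h | h | h
  · refine ⟨k, hk, ?_, fun i hi hki => ?_⟩
    · rw [Pi.mul_apply, hx k hk h, one_mul]; exact hyk
    · rw [Pi.mul_apply, hx i hi (h.trans hki), hy i hi hki, one_mul]
  · subst h
    refine ⟨j, hj, (hP j).mul _ hxj _ hyk, fun i hi hji => ?_⟩
    rw [Pi.mul_apply, hx i hi hji, hy i hi hji, one_mul]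
  · refine ⟨j, hj, ?_, fun i hi hji => ?_⟩
    · rw [Pi.mul_apply, hy j hj h, mul_one]; exact hxj
    · rw [Pi.mul_apply, hx i hi hji, hy i hi (h.trans hji), one_mul]

theorem posB_conj {x : ∀ j, H j} {B : Finset J} (hx : posB P x B) (g : ∀ j, H j) :
    posB P (g * x * g⁻¹) B := by
  obtain ⟨j, hj, hxj, hx⟩ := hx
  refine ⟨j, hj, (hP j).conj _ hxj _, fun i hi hji => ?_⟩
  rw [Pi.mul_apply, Pi.mul_apply, hx i hi hji, mul_one, Pi.inv_apply, mul_inv_cancel]

theorem posB_tri {x : ∀ j, H j} {B : Finset J} {j₀ : J} (h₀ : j₀ ∈ B) (hx : x j₀ ≠ 1) :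
    posB P x B ∨ posB P x⁻¹ B := by
  classical
  let C := B.filter fun j => x j ≠ 1
  have hC : C.Nonempty := ⟨j₀, Finset.mem_filter.2 ⟨h₀, hx⟩⟩
  have hmem := Finset.max'_mem C hC
  have hmax := fun i hi => Finset.le_max' C i hi
  set j := C.max' hC
  obtain ⟨hjB, hj⟩ := Finset.mem_filter.1 hmem
  have hlow : ∀ i ∈ B, j < i → x i = 1 := by
    intro i hi hji
    by_contra h
    exact absurd (hmax i (Finset.mem_filter.2 ⟨hi, h⟩)) (not_le.2 hji)
  rcases (hP j).tri (x j) hj with h | h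
  · exact Or.inl ⟨j, hjB, h, hlow⟩
  · refine Or.inr ⟨j, hjB, h, fun i hi hji => ?_⟩
    rw [Pi.inv_apply, hlow i hi hji, inv_one]

end

/-- P: orders on products -/
theorem prod_isBO {J : Type*} [LinearOrder J] {H : J → Type*} [∀ j, Group (H j)]
    (P : ∀ j, Set (H j)) (hP : ∀ j, IsBO (P j)) :
    ∃ PP : Set (∀ j, H j), IsBO PP ∧
      ∀ (x : ∀ j, H j) (j : J), (∀ i, j < i → x i = 1) → x j ∈ P j → x ∈ PP := by
  classical
  let U : Ultrafilter (Finset J) := Ultrafilter.of atTop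
  have hU : (U : Filter (Finset J)) ≤ atTop := Ultrafilter.of_le _
  have hmem : ∀ j : J, ∀ᶠ B in (U : Filter (Finset J)), j ∈ B := by
    intro j
    refine hU ?_
    filter_upwards [eventually_ge_atTop ({j} : Finset J)] with B hB
    exact hB (Finset.mem_singleton_self j)
  refine ⟨{x | ∀ᶠ B in (U : Filter (Finset J)), posB P x B}, ⟨?_, ?_, ?_, ?_⟩, ?_⟩
  · intro h
    obtain ⟨B, j, _, hj, _⟩ := h.exists
    exact (hP j).one hj
  · intro a ha b hb
    filter_upwards [ha, hb] with B h1 h2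
    exact posB_mul hP h1 h2
  · intro a ha g
    filter_upwards [ha] with B h1
    exact posB_conj hP h1 g
  · intro a ha
    obtain ⟨j₀, h₀⟩ : ∃ j, a j ≠ 1 := by
      by_contra hcon
      push Not at hcon
      exact ha (funext hcon)
    refine Ultrafilter.eventually_or.1 ?_
    filter_upwards [hmem j₀] with B hB
    exact posB_tri hP hB h₀
  · intro x j hx hj
    show ∀ᶠ B in (U : Filter (Finset J)), posB P x B
    filter_upwards [hmem j] with B hB
    exact ⟨j, hB, hj, fun i _ hji => hx i hji⟩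

end Bludov
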