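import Pool.Agent.helper77.Bludov.G1
import Pool.Agent.helper77.Bludov.G23
import Pool.Agent.helper77.Bludov.MD
import Pool.Agent.helper77.Bludov.P
import Pool.Agent.helper77.Bludov.CORE

/-!
# One jump (module J1)
-/

namespace Bludov

universe u

/-- The positive Ore lemma over `ℕ` for all bi-ordered nilpotent groups. -/
def OreNatAll : Prop := ∀ (Q : Type u) [Group Q] [Group.IsNilpotent Q] (P : Set Q), IsBO P →
  ∀ a b : MonoidAlgebra ℕ Q, a ≠ 0 → b ≠ 0 →
    ∃ c d : MonoidAlgebra ℕ Q, c ≠ 0 ∧ d ≠ 0 ∧ c * a = d * b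

/-- J1 : one jump. A homomorphism to a divisible ordered group which is positive on all positive
elements of the smallest nontrivial convex normal subgroup (if there is one). -/
theorem one_jump (hore : OreNatAll.{u}) (G : Type u) [Group G] {P : Set G} (hP : IsBO P) (A : Subgroup G) [A.Normal]
    (hab : ∀ a ∈ A, ∀ b ∈ A, a * b = b * a) (hnil : Group.IsNilpotent (G ⧸ A)) :
    ∃ (H : Type u) (_ : Group H) (PH : Set H), IsBO PH ∧ Divi H ∧
      ∃ φ : G →* H, ∀ x ∈ P, (∀ C : Subgroup G, Conv P C → C ≠ ⊥ → x ∈ C) → φ x ∈ PH := by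
  -- the smallest nontrivial convex normal subgroup
  let E : Subgroup G := sInf {C | Conv P C ∧ C ≠ ⊥}
  have hEmem : ∀ x, x ∈ E ↔ ∀ C : Subgroup G, Conv P C → C ≠ ⊥ → x ∈ C := by
    intro x
    simp only [E, Subgroup.mem_sInf, Set.mem_ofPred_eq, and_imp]
  have hE : E.Normal := by
    refine ⟨fun x hx g => ?_⟩
    rw [hEmem] at hx ⊢
    intro C hC hC'
    exact hC.1.conj_mem x (hx C hC hC') g
  obtain ⟨h1, h2⟩ := minimal_comm hP A inferInstance hab hnil E hE
    (fun C hC hC' x hx => (hEmem x).mp hx C hC hC')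
  -- `N = A E` is abelian normal
  have hN : (A ⊔ E).Normal := inferInstance
  have hNab : ∀ a ∈ A ⊔ E, ∀ b ∈ A ⊔ E, a * b = b * a := by
    intro a ha b hb
    obtain ⟨a1, ha1, e1, he1, rfl⟩ := Subgroup.mem_sup_of_normal_right.mp ha
    obtain ⟨a2, ha2, e2, he2, rfl⟩ := Subgroup.mem_sup_of_normal_right.mp hb
    have c1 : Commute a1 a2 := hab _ ha1 _ ha2
    have c2 : Commute e1 a2 := h1 _ he1 _ ha2
    have c3 : Commute e2 a1 := h1 _ he2 _ ha1
    have c4 : Commute e1 e2 := h2 _ he1 _ he2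
    have : Commute (a1 * e1) (a2 * e2) :=
      (c1.mul_right c3.symm).mul_left (c2.mul_right c4)
    exact this
  obtain ⟨I, hNI, hI, hIab, hIsol⟩ := isolator hP (A ⊔ E) hN hNab
  -- `G / I` is torsion-free nilpotent
  have hAI : A ≤ I := le_sup_left.trans hNI
  have hnilI : Group.IsNilpotent (G ⧸ I) := by
    have hsurj : Function.Surjective
        (QuotientGroup.map A I (MonoidHom.id G) (by simpa using hAI)) := by
      intro x
      obtain ⟨g, rfl⟩ := QuotientGroup.mk_surjective x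
      exact ⟨QuotientGroup.mk g, rfl⟩
    exact Group.nilpotent_of_surjective _ hsurj
  have htf : TorFree (G ⧸ I) := by
    intro x n hn hx
    obtain ⟨g, rfl⟩ := QuotientGroup.mk_surjective x
    rw [← QuotientGroup.mk_pow, QuotientGroup.eq_one_iff] at hx
    exact (QuotientGroup.eq_one_iff g).mpr (hIsol g n hn hx)
  obtain ⟨Q, _, ι, hι, hQnil, hQtf, hQdiv⟩ := malcev (G ⧸ I) htf
  obtain ⟨PQ, hPQ⟩ := exists_isBO hQtf
  obtain ⟨H, _, PH, hPH, hdiv, φ, hφ⟩ := core hP I hIab hPQ hQdiv (hore Q PQ hPQ) ι hι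
  refine ⟨H, inferInstance, PH, hPH, hdiv, φ, ?_⟩
  intro x hx hxC
  exact hφ x (hNI (Subgroup.mem_sup_right ((hEmem x).mpr hxC))) hx

end Bludov
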