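import Pool.Agent.helper77.Bludov.Conv

/-!
# Translation between positive cones and bi-invariant linear orders
-/

namespace Bludov

universe u v

namespace IsBO

variable {G : Type u} [Group G] {P : Set G} (hP : IsBO P)

include hP

theorem ne_one {a : G} (h : a ∈ P) : a ≠ 1 := fun e => hP.one (e ▸ h)

theorem inv_notMem {a : G} (h : a ∈ P) : a⁻¹ ∉ P := fun h' =>
  hP.one (by simpa using hP.mul _ h _ h')

theorem pow_mem {a : G} (h : a ∈ P) : ∀ n : ℕ, n ≠ 0 → a ^ n ∈ P := by
  intro n hn
  induction n with
  | zero => exact absurd rfl hn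
  | succ n ih =>
    rcases Nat.eq_zero_or_pos n with rfl | hn'
    · simpa using h
    · rw [pow_succ]; exact hP.mul _ (ih hn'.ne') _ h

theorem conj' {a : G} (g : G) (h : a ∈ P) : g⁻¹ * a * g ∈ P := by
  have := hP.conj _ h g⁻¹
  rwa [inv_inv] at this

theorem torFree : TorFree G := by
  intro x n hn hx
  by_contra h1
  rcases hP.tri x h1 with h | h
  · exact hP.ne_one (hP.pow_mem h n hn) hx
  · exact hP.ne_one (hP.pow_mem h n hn) (by rw [inv_pow, hx, inv_one])

open Classical in
/-- The linear order with the given positive cone. -/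
@[reducible]
noncomputable def linearOrder : LinearOrder G where
  le a b := a = b ∨ a⁻¹ * b ∈ P
  lt a b := a⁻¹ * b ∈ P
  le_refl a := Or.inl rfl
  le_trans a b c := by
    rintro (rfl | h) (rfl | h')
    · exact Or.inl rfl
    · exact Or.inr h'
    · exact Or.inr h
    · right
      have := hP.mul _ h _ h'
      rwa [show a⁻¹ * b * (b⁻¹ * c) = a⁻¹ * c by group] at this
  lt_iff_le_not_ge a b := by
    constructor
    · intro h
      refine ⟨Or.inr h, ?_⟩
      rintro (rfl | h')
      · exact hP.one (by simpa using h)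
      · refine hP.inv_notMem h ?_
        rwa [show (a⁻¹ * b)⁻¹ = b⁻¹ * a by group]
    · rintro ⟨rfl | h, h'⟩
      · exact absurd (Or.inl rfl) h'
      · exact h
  le_antisymm a b := by
    rintro (rfl | h) (h' | h')
    · rfl
    · rfl
    · exact h'.symm
    · exfalso
      refine hP.inv_notMem h ?_
      rwa [show (a⁻¹ * b)⁻¹ = b⁻¹ * a by group]
  le_total a b := by
    by_cases h1 : a⁻¹ * b = 1
    · left; left; exact (inv_mul_eq_one.mp h1)
    rcases hP.tri (a⁻¹ * b) h1 with h | h
    · left; right; exact h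
    · right; right
      rwa [show (a⁻¹ * b)⁻¹ = b⁻¹ * a by group] at h
  toDecidableLE := fun _ _ => Classical.propDecidable _

theorem lt_iff {a b : G} : (hP.linearOrder).lt a b ↔ a⁻¹ * b ∈ P := Iff.rfl

theorem one_lt_iff {a : G} : (hP.linearOrder).lt 1 a ↔ a ∈ P := by
  rw [hP.lt_iff]; simp

theorem mulLeftMono : @MulLeftMono G _ (hP.linearOrder).toLE := by
  refine @CovariantClass.mk _ _ _ _ ?_
  intro c a b h
  rcases h with h | h
  · exact Or.inl (by rw [h])
  · right
    show (c * a)⁻¹ * (c * b) ∈ P
    rwa [show (c * a)⁻¹ * (c * b) = a⁻¹ * b by group]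

theorem mulRightMono : @MulRightMono G _ (hP.linearOrder).toLE := by
  refine @CovariantClass.mk _ _ _ _ ?_
  intro c a b h
  rcases h with h | h
  · exact Or.inl (by rw [h])
  · right
    show (a * c)⁻¹ * (b * c) ∈ P
    rw [show (a * c)⁻¹ * (b * c) = c⁻¹ * (a⁻¹ * b) * c by group]
    exact hP.conj' c h

end IsBO

/-- The positive cone of a linearly ordered group. -/
theorem isBO_of_order (G : Type u) [Group G] [LinearOrder G] [MulLeftMono G] [MulRightMono G] :
    IsBO {a : G | 1 < a} where
  one := by simp
  mul := fun a ha b hb => one_lt_mul'' ha hb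
  conj := fun a ha g => by
    simp only [Set.mem_ofPred_eq] at *
    have h1 : g * 1 < g * a := mul_lt_mul_right ha g
    have h2 : g * 1 * g⁻¹ < g * a * g⁻¹ := mul_lt_mul_left h1 g⁻¹
    simpa using h2
  tri := fun a ha => by
    rcases lt_trichotomy a 1 with h | h | h
    · right; simpa using h
    · exact absurd h ha
    · left; exact h

end Bludov
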