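import Pool.Agent.helper77.Bludov.Basic

/-!
# Module M : a subadditive function on a nilpotent group dominates a homomorphism to the reals
-/

namespace Bludov

open scoped Pointwise

namespace ModM

variable {G : Type*} [Group G]

/-- the subgroup of all elements by which right translation adds a constant -/
def MTr (v : G → ℝ) : Subgroup G where
  carrier := {y | ∀ g, v (g * y) = v g + (v y - v 1)}
  one_mem' := by intro g; simp
  mul_mem' := by
    intro a b ha hb g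
    have h1 := hb (g * a)
    have h2 := ha g
    have h3 := hb a
    rw [← mul_assoc, h1, h2, h3]; ring
  inv_mem' := by
    intro a ha g
    have h1 := ha (g * a⁻¹)
    have h2 := ha a⁻¹
    rw [inv_mul_cancel_right] at h1
    rw [inv_mul_cancel] at h2
    linarith

theorem mem_MTr {v : G → ℝ} {y : G} : y ∈ MTr v ↔ ∀ g, v (g * y) = v g + (v y - v 1) := Iff.rfl

variable {v : G → ℝ}

theorem MTr.add {y y' : G} (hy' : y' ∈ MTr v) :
    v (y * y') - v 1 = (v y - v 1) + (v y' - v 1) := by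
  rw [mem_MTr.1 hy' y]; ring

theorem MTr.inv {y : G} (hy : y ∈ MTr v) : v y⁻¹ - v 1 = -(v y - v 1) := by
  have h := mem_MTr.1 hy y⁻¹
  rw [inv_mul_cancel] at h
  linarith

theorem MTr.pow {y : G} (hy : y ∈ MTr v) (k : ℕ) : v (y ^ k) - v 1 = k * (v y - v 1) := by
  induction k with
  | zero => simp
  | succ k ih => rw [pow_succ, MTr.add hy, ih]; push_cast; ring

theorem subadd_one (hv : ∀ g g' : G, v (g * g') ≤ v g + v g') : 0 ≤ v 1 := by
  have := hv 1 1
  rw [mul_one] at this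
  linarith

theorem subadd_pow (hv : ∀ g g' : G, v (g * g') ≤ v g + v g') (g : G) (k : ℕ) (hk : k ≠ 0) :
    v (g ^ k) ≤ k * v g := by
  induction k with
  | zero => exact absurd rfl hk
  | succ k ih =>
    rcases Nat.eq_zero_or_pos k with rfl | h
    · simp
    · have := ih h.ne'
      have h2 := hv (g ^ k) g
      rw [pow_succ]
      push_cast
      linarith

/-- linear comparison: `k a ≤ b + k c` for all positive `k` implies `a ≤ c` -/
theorem le_of_lin {a b c : ℝ} (h : ∀ k : ℕ, (k : ℝ) * a ≤ b + k * c) : a ≤ c := by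
  by_contra hc
  push Not at hc
  obtain ⟨k, hk⟩ := exists_nat_gt (b / (a - c))
  have h1 : 0 < a - c := by linarith
  rw [div_lt_iff₀ h1] at hk
  have := h k
  nlinarith

theorem MTr.conj (hv : ∀ g g' : G, v (g * g') ≤ v g + v g') {Y : Subgroup G} [hY : Y.Normal]
    (h : Y ≤ MTr v) {y : G} (hy : y ∈ Y) (g : G) : v (g⁻¹ * y * g) = v y := by
  have key : ∀ y ∈ Y, v (g⁻¹ * y * g) - v 1 ≤ v y - v 1 := by
    intro y hy
    have hy2 : g⁻¹ * y * g ∈ Y := by
      have := hY.conj_mem y hy g⁻¹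
      simpa using this
    refine le_of_lin (b := v 1) fun k => ?_
    have h1 := MTr.pow (h hy) k
    have h2 := MTr.pow (h hy2) k
    have h3 : (g⁻¹ * y * g) ^ k = g⁻¹ * y ^ k * g := by
      have := conj_pow (i := k) (a := g⁻¹) (b := y)
      simpa using this
    have h4 : g⁻¹ * y ^ k * g ∈ Y := by rw [← h3]; exact Y.pow_mem hy2 k
    have h5 := mem_MTr.1 (h h4) g
    have h6 : g * (g⁻¹ * y ^ k * g) = y ^ k * g := by group
    rw [h6] at h5
    have h7 := hv (y ^ k) g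
    rw [h3] at h2
    rw [← h2, ← h1]
    linarith
  have h1 := key y hy
  have h2 := key y⁻¹ (Y.inv_mem hy)
  have hy2 : g⁻¹ * y * g ∈ Y := by
    have := hY.conj_mem y hy g⁻¹
    simpa using this
  have h3 : g⁻¹ * y⁻¹ * g = (g⁻¹ * y * g)⁻¹ := by group
  rw [h3] at h2
  have h4 := MTr.inv (h hy2)
  have h5 := MTr.inv (h hy)
  rw [h4, h5] at h2
  linarith

/-- commutators with elements central modulo `Y` have constant zero -/
theorem MTr.comm (hv : ∀ g g' : G, v (g * g') ≤ v g + v g') {Y : Subgroup G} [hY : Y.Normal]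
    (h : Y ≤ MTr v) {z : G} (hz : ∀ g : G, g * z * g⁻¹ * z⁻¹ ∈ Y) (g : G) :
    v (g * z * g⁻¹ * z⁻¹) = v 1 := by
  set y := g * z * g⁻¹ * z⁻¹ with hy
  have hyY : y ∈ Y := hz g
  -- (y z)^k = z^k times an element of Y with constant k c(y)
  have key : ∀ k : ℕ, ∃ y' ∈ Y, g * z ^ k * g⁻¹ = z ^ k * y' ∧ v y' - v 1 = k * (v y - v 1) := by
    intro k
    induction k with
    | zero => exact ⟨1, Y.one_mem, by simp, by simp⟩
    | succ k ih =>
      obtain ⟨y', hy', h1, h2⟩ := ih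
      -- g z^(k+1) g⁻¹ = (z^k y') (y z)
      refine ⟨(z⁻¹ * (y' * y) * z), ?_, ?_, ?_⟩
      · have := hY.conj_mem (y' * y) (Y.mul_mem hy' hyY) z⁻¹
        simpa using this
      · calc g * z ^ (k + 1) * g⁻¹ = (g * z ^ k * g⁻¹) * (g * z * g⁻¹ * z⁻¹) * z := by
              rw [pow_succ]; group
          _ = (z ^ k * y') * y * z := by rw [h1]
          _ = z ^ (k + 1) * (z⁻¹ * (y' * y) * z) := by rw [pow_succ]; group
      · rw [MTr.conj hv h (Y.mul_mem hy' hyY) z, MTr.add (h hyY), h2]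
        push_cast; ring
  have hk : ∀ k : ℕ, v (g * z ^ k * g⁻¹) = v (z ^ k) + k * (v y - v 1) := by
    intro k
    obtain ⟨y', hy', h1, h2⟩ := key k
    rw [h1, mem_MTr.1 (h hy') (z ^ k), h2]
  have hle : v y - v 1 ≤ 0 := by
    refine le_of_lin (b := v g + v g⁻¹) fun k => ?_
    have h1 := hv (g * z ^ k) g⁻¹
    have h2 := hv g (z ^ k)
    rw [hk k] at h1
    linarith
  have hge : -(v y - v 1) ≤ 0 := by
    refine le_of_lin (b := v g + v g⁻¹) fun k => ?_
    have h1 := hv (g⁻¹ * (g * z ^ k * g⁻¹)) g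
    have h2 := hv g⁻¹ (g * z ^ k * g⁻¹)
    have h3 : g⁻¹ * (g * z ^ k * g⁻¹) * g = z ^ k := by group
    rw [h3] at h1
    rw [hk k] at h2
    linarith
  linarith

theorem central_zpow {Y : Subgroup G} [hY : Y.Normal] {z : G}
    (hz : ∀ g : G, g * z * g⁻¹ * z⁻¹ ∈ Y) (k : ℤ) (g : G) : g * z ^ k * g⁻¹ * (z ^ k)⁻¹ ∈ Y := by
  have h1 : (QuotientGroup.mk z : G ⧸ Y) ∈ Subgroup.center (G ⧸ Y) := by
    rw [Subgroup.mem_center_iff]
    intro x
    obtain ⟨x, rfl⟩ := QuotientGroup.mk_surjective x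
    rw [← QuotientGroup.mk_mul, ← QuotientGroup.mk_mul, eq_comm, QuotientGroup.eq]
    have := hY.conj_mem _ (hz x) (x * z)⁻¹
    have h2 : (x * z)⁻¹ * (x * z * x⁻¹ * z⁻¹) * (x * z)⁻¹⁻¹ = (z * x)⁻¹ * (x * z) := by group
    rw [h2] at this
    exact this
  have h2 := (Subgroup.center (G ⧸ Y)).zpow_mem h1 k
  rw [Subgroup.mem_center_iff] at h2
  have h3 := h2 (QuotientGroup.mk g)
  rw [← QuotientGroup.mk_zpow, ← QuotientGroup.mk_mul, ← QuotientGroup.mk_mul, eq_comm,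
    QuotientGroup.eq] at h3
  have := hY.conj_mem _ h3 (z ^ k * g)
  have h4 : z ^ k * g * ((z ^ k * g)⁻¹ * (g * z ^ k)) * (z ^ k * g)⁻¹ =
      g * z ^ k * g⁻¹ * (z ^ k)⁻¹ := by group
  rwa [h4] at this

/-- one step of the construction -/
theorem subadd_step (hv : ∀ g g' : G, v (g * g') ≤ v g + v g') {Y : Subgroup G} [hY : Y.Normal]
    (h : Y ≤ MTr v) {z : G} (hz : ∀ g : G, g * z * g⁻¹ * z⁻¹ ∈ Y) :
    ∃ v' : G → ℝ, (∀ g g' : G, v' (g * g') ≤ v' g + v' g') ∧ (∀ g, v' g ≤ v g) ∧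
      Y ⊔ Subgroup.zpowers z ≤ MTr v' := by
  have h10 := subadd_one hv
  -- a real number with `k q ≤ v (z^k)` for all integers `k`
  obtain ⟨q, hq⟩ : ∃ q : ℝ, ∀ k : ℤ, k * q ≤ v (z ^ k) := by
    have mix : ∀ j m : ℕ, j ≠ 0 → m ≠ 0 →
        -(v ((z ^ j)⁻¹) / j) ≤ v (z ^ m) / m := by
      intro j m hj hm
      have hj' : (0 : ℝ) < j := by exact_mod_cast Nat.pos_of_ne_zero hj
      have hm' : (0 : ℝ) < m := by exact_mod_cast Nat.pos_of_ne_zero hm
      have h1 := subadd_pow hv (z ^ m) j hj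
      have h2 := subadd_pow hv ((z ^ j)⁻¹) m hm
      have h3 := hv ((z ^ m) ^ j) (((z ^ j)⁻¹) ^ m)
      have h4 : (z ^ m) ^ j * ((z ^ j)⁻¹) ^ m = 1 := by
        rw [inv_pow, ← pow_mul, ← pow_mul, mul_comm j m]; simp
      rw [h4] at h3
      rw [neg_le_iff_add_nonneg, div_add_div _ _ hm'.ne' hj'.ne']
      apply div_nonneg _ (by positivity)
      linarith
    refine ⟨⨅ m : ℕ, v (z ^ (m + 1)) / ((m + 1 : ℕ) : ℝ), fun k => ?_⟩
    have hbdd : BddBelow (Set.range fun m : ℕ => v (z ^ (m + 1)) / ((m + 1 : ℕ) : ℝ)) := by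
      refine ⟨-(v ((z ^ 1)⁻¹) / ((1 : ℕ) : ℝ)), ?_⟩
      rintro _ ⟨m, rfl⟩
      exact mix 1 (m + 1) one_ne_zero (by omega)
    rcases lt_trichotomy k 0 with hk | hk | hk
    · obtain ⟨j, rfl⟩ : ∃ j : ℕ, k = -((j + 1 : ℕ) : ℤ) := ⟨(-k).toNat - 1, by omega⟩
      have hj' : (0 : ℝ) < ((j + 1 : ℕ) : ℝ) := by positivity
      have : -(v ((z ^ (j + 1))⁻¹) / ((j + 1 : ℕ) : ℝ)) ≤
          ⨅ m : ℕ, v (z ^ (m + 1)) / ((m + 1 : ℕ) : ℝ) :=
        le_ciInf fun m => mix (j + 1) (m + 1) (by omega) (by omega)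
      rw [neg_le, div_eq_inv_mul] at *
      rw [zpow_neg, zpow_natCast]
      have h5 := mul_le_mul_of_nonneg_left this hj'.le
      rw [mul_neg, ← mul_assoc, mul_inv_cancel₀ hj'.ne', one_mul] at h5
      push_cast at h5 ⊢
      linarith
    · subst hk; simpa using h10
    · obtain ⟨j, rfl⟩ : ∃ j : ℕ, k = ((j + 1 : ℕ) : ℤ) := ⟨k.toNat - 1, by omega⟩
      have hj' : (0 : ℝ) < ((j + 1 : ℕ) : ℝ) := by positivity
      have h5 : ⨅ m : ℕ, v (z ^ (m + 1)) / ((m + 1 : ℕ) : ℝ) ≤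
          v (z ^ (j + 1)) / ((j + 1 : ℕ) : ℝ) := ciInf_le hbdd j
      rw [le_div_iff₀ hj'] at h5
      rw [zpow_natCast]
      push_cast at h5 ⊢
      linarith
  have hbd : ∀ g : G, BddBelow (Set.range fun k : ℤ => v (g * z ^ k) - k * q) := by
    intro g
    refine ⟨-v g⁻¹, ?_⟩
    rintro _ ⟨k, rfl⟩
    have h1 := hv g⁻¹ (g * z ^ k)
    rw [inv_mul_cancel_left] at h1
    have h2 := hq k
    simp only
    linarith
  set v' : G → ℝ := fun g => ⨅ k : ℤ, (v (g * z ^ k) - k * q) with hv'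
  have hv'z : ∀ g, v' (g * z) = v' g + q := by
    intro g
    simp only [hv']
    apply le_antisymm
    · rw [← sub_le_iff_le_add]
      refine le_ciInf fun k => ?_
      have h1 := ciInf_le (hbd (g * z)) (k - 1)
      have h2 : g * z * z ^ (k - 1) = g * z ^ k := by
        rw [mul_assoc, ← zpow_one_add]; congr 2; ring
      rw [h2] at h1
      push_cast at h1
      linarith
    · refine le_ciInf fun k => ?_
      have h1 := ciInf_le (hbd g) (k + 1)
      have h2 : g * z * z ^ k = g * z ^ (k + 1) := by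
        rw [mul_assoc, ← zpow_one_add]; congr 2; ring
      rw [h2]
      push_cast at h1
      linarith
  have hv'y : ∀ g, ∀ y ∈ Y, v' (g * y) = v' g + (v y - v 1) := by
    intro g y hy
    have h1 : ∀ k : ℤ, v (g * y * z ^ k) = v (g * z ^ k) + (v y - v 1) := by
      intro k
      have h2 : g * y * z ^ k = g * z ^ k * ((z ^ k)⁻¹ * y * z ^ k) := by group
      have h3 : (z ^ k)⁻¹ * y * z ^ k ∈ Y := by
        have := hY.conj_mem y hy (z ^ k)⁻¹
        simpa using this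
      rw [h2, mem_MTr.1 (h h3), MTr.conj hv h hy]
    simp only [hv']
    simp_rw [h1]
    apply le_antisymm
    · rw [← sub_le_iff_le_add]
      refine le_ciInf fun k => ?_
      have hb : BddBelow (Set.range fun k : ℤ => v (g * z ^ k) + (v y - v 1) - k * q) := by
        obtain ⟨B, hB⟩ := hbd g
        refine ⟨B + (v y - v 1), ?_⟩
        rintro _ ⟨k, rfl⟩
        have := hB ⟨k, rfl⟩
        simp only at this ⊢
        linarith
      have h2 := ciInf_le hb k
      linarith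
    · refine le_ciInf fun k => ?_
      have h2 := ciInf_le (hbd g) k
      linarith
  refine ⟨v', ?_, ?_, ?_⟩
  · intro g g'
    -- v'(g g') ≤ v(g z^k) - k q + v(g' z^j) - j q
    have key : ∀ k j : ℤ, v' (g * g') ≤ (v (g * z ^ k) - k * q) + (v (g' * z ^ j) - j * q) := by
      intro k j
      have h1 := ciInf_le (hbd (g * g')) (k + j)
      have h2 : g * g' * z ^ (k + j) =
          g * z ^ k * ((z ^ k)⁻¹ * g' * z ^ k * g'⁻¹) * (g' * z ^ j) := by
        rw [zpow_add]; group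
      have hY2 : g' * z ^ k * g'⁻¹ * (z ^ k)⁻¹ ∈ Y := central_zpow hz k g'
      have h3 : (z ^ k)⁻¹ * g' * z ^ k * g'⁻¹ =
          (z ^ k)⁻¹ * (g' * z ^ k * g'⁻¹ * (z ^ k)⁻¹) * z ^ k := by group
      have h4 : (z ^ k)⁻¹ * g' * z ^ k * g'⁻¹ ∈ Y := by
        rw [h3]
        have := hY.conj_mem _ hY2 (z ^ k)⁻¹
        simpa using this
      have h5 : v ((z ^ k)⁻¹ * g' * z ^ k * g'⁻¹) = v 1 := by
        rw [h3, MTr.conj hv h hY2]
        exact MTr.comm hv h (central_zpow hz k) g'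
      have h6 := mem_MTr.1 (h h4) (g * z ^ k)
      have h7 := hv (g * z ^ k * ((z ^ k)⁻¹ * g' * z ^ k * g'⁻¹)) (g' * z ^ j)
      rw [← h2, h6, h5] at h7
      have h8 : v' (g * g') ≤ v (g * g' * z ^ (k + j)) - ((k + j : ℤ) : ℝ) * q := h1
      push_cast at h8
      linarith
    have h1 : ∀ j : ℤ, v' (g * g') - (v (g' * z ^ j) - j * q) ≤ v' g := by
      intro j
      refine le_ciInf fun k => ?_
      have := key k j
      linarith
    have h2 : v' (g * g') - v' g ≤ v' g' := by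
      refine le_ciInf fun j => ?_
      have := h1 j
      linarith
    linarith
  · intro g
    have h1 := ciInf_le (hbd g) 0
    have h2 : v' g ≤ v (g * z ^ (0 : ℤ)) - ((0 : ℤ) : ℝ) * q := h1
    simpa using h2
  · rw [sup_le_iff, Subgroup.zpowers_le]
    constructor
    · intro y hy g
      have h1 := hv'y g y hy
      have h2 := hv'y 1 y hy
      rw [one_mul] at h2
      rw [h1, h2]; ring
    · intro g
      have h1 := hv'z g
      have h2 := hv'z 1
      rw [one_mul] at h2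
      rw [h1, h2]; ring

theorem sup_zpowers_normal {Y : Subgroup G} [hY : Y.Normal] {z : G}
    (hz : ∀ g : G, g * z * g⁻¹ * z⁻¹ ∈ Y) : (Y ⊔ Subgroup.zpowers z).Normal := by
  constructor
  intro x hx g
  have hx' : x ∈ ((Y : Set G) * (Subgroup.zpowers z : Set G)) := by
    rw [← Subgroup.normal_mul]; exact hx
  obtain ⟨y, hy, w, hw, rfl⟩ := Set.mem_mul.1 hx'
  obtain ⟨k, rfl⟩ := Subgroup.mem_zpowers_iff.1 hw
  have h1 : g * (y * z ^ k) * g⁻¹ = (g * y * g⁻¹) * ((g * z ^ k * g⁻¹ * (z ^ k)⁻¹) * z ^ k) := by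
    group
  show g * (y * z ^ k) * g⁻¹ ∈ _
  rw [h1]
  have h2 : Y ≤ Y ⊔ Subgroup.zpowers z := le_sup_left
  have h3 : Subgroup.zpowers z ≤ Y ⊔ Subgroup.zpowers z := le_sup_right
  refine Subgroup.mul_mem _ (h2 (hY.conj_mem y hy g)) (Subgroup.mul_mem _ (h2 ?_) (h3 hw))
  exact central_zpow hz k g

theorem subadd_chain {n : ℕ} {Y : Subgroup G} (h : CCh n Y) :
    Y.Normal ∧ ∀ v : G → ℝ, (∀ g g' : G, v (g * g') ≤ v g + v g') →
      ∃ v' : G → ℝ, (∀ g g' : G, v' (g * g') ≤ v' g + v' g') ∧ (∀ g, v' g ≤ v g) ∧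
        Y ≤ MTr v' := by
  induction h with
  | bot => exact ⟨inferInstance, fun v hv => ⟨v, hv, fun _ => le_rfl, bot_le⟩⟩
  | step z _ hz ih =>
    obtain ⟨hN, ih⟩ := ih
    refine ⟨sup_zpowers_normal hz, fun v hv => ?_⟩
    obtain ⟨v', h1, h2, h3⟩ := ih v hv
    obtain ⟨v'', h4, h5, h6⟩ := subadd_step h1 h3 hz
    exact ⟨v'', h4, fun g => (h5 g).trans (h2 g), h6⟩

end ModM

open ModM in
theorem subadd_hom {G : Type*} [Group G] {n : ℕ} (h : CCh n (⊤ : Subgroup G)) (v : G → ℝ)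
    (hv : ∀ g g' : G, v (g * g') ≤ v g + v g') :
    ∃ q : G →* Multiplicative ℝ, ∀ g, (q g).toAdd ≤ v g := by
  obtain ⟨-, hc⟩ := subadd_chain h
  obtain ⟨v', h1, h2, h3⟩ := hc v hv
  have h4 := subadd_one h1
  refine ⟨MonoidHom.mk' (fun g => Multiplicative.ofAdd (v' g - v' 1)) ?_, ?_⟩
  · intro a b
    rw [← ofAdd_add, MTr.add (h3 (Subgroup.mem_top b))]
  · intro g
    have := h2 g
    simp only [MonoidHom.mk'_apply, toAdd_ofAdd]
    linarith

end Bludov
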