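import Pool.Agent.helper77.Bludov.C3

/-!
# Module S: steering
-/

set_option linter.unusedSectionVars false

namespace Bludov

namespace Steer

section
variable {G : Type*} [Group G] {r : ℕ} (φ : G →* Multiplicative (Fin r → ℤ))

/-- the real coordinates -/
def psi (g : G) (i : Fin r) : ℝ := ((φ g).toAdd i : ℤ)

theorem psi_mul (g h : G) (i : Fin r) : psi φ (g * h) i = psi φ g i + psi φ h i := by
  simp [psi]

theorem psi_one (i : Fin r) : psi φ (1 : G) i = 0 := by
  simp [psi]

/-- the square of the length -/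
def len (v : Fin r → ℤ) : ℕ := ∑ i, (v i).natAbs ^ 2

theorem len_cast (g : G) : (len (φ g).toAdd : ℝ) = ∑ i, psi φ g i ^ 2 := by
  unfold len psi
  push_cast
  refine Finset.sum_congr rfl fun i _ => ?_
  rw [Nat.cast_natAbs, Int.cast_abs, sq_abs]

theorem len_mul (g h : G) : (len (φ (g * h)).toAdd : ℝ) =
    len (φ g).toAdd + 2 * (∑ i, psi φ g i * psi φ h i) + len (φ h).toAdd := by
  rw [len_cast, len_cast, len_cast, Finset.mul_sum, ← Finset.sum_add_distrib,
    ← Finset.sum_add_distrib]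
  refine Finset.sum_congr rfl fun i _ => ?_
  rw [psi_mul]; ring

/-- the homomorphism in the direction `ζ` -/
noncomputable def dir (ζ : Fin r → ℝ) : G →* Multiplicative ℝ :=
  MonoidHom.mk' (fun g => Multiplicative.ofAdd (∑ i, ζ i * psi φ g i)) (by
    intro g h
    rw [← ofAdd_add, ← Finset.sum_add_distrib]
    congr 1
    refine Finset.sum_congr rfl fun i _ => ?_
    rw [psi_mul]; ring)

theorem dir_apply (ζ : Fin r → ℝ) (g : G) :
    (dir φ ζ g).toAdd = ∑ i, ζ i * psi φ g i := rfl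

theorem dir_ne (hs : Function.Surjective φ) {ζ : Fin r → ℝ} (h : ∑ i, ζ i ^ 2 = 1) :
    dir φ ζ ≠ 1 := by
  classical
  intro h1
  obtain ⟨i, hi⟩ : ∃ i, ζ i ≠ 0 := by
    by_contra hcon
    push Not at hcon
    simp [hcon] at h
  obtain ⟨g, hg⟩ := hs (Multiplicative.ofAdd (Pi.single i 1))
  have h2 : (dir φ ζ g).toAdd = 0 := by rw [h1]; rfl
  rw [dir_apply, Finset.sum_eq_single i] at h2
  · simp [psi, hg] at h2
    exact hi h2
  · intro j _ hj
    simp [psi, hg, hj]
  · simp

theorem sphere_compact (r : ℕ) : IsCompact {ζ : Fin r → ℝ | ∑ i, ζ i ^ 2 = 1} := by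
  refine Metric.isCompact_of_isClosed_isBounded (isClosed_eq (by fun_prop) continuous_const) ?_
  refine (Metric.isBounded_closedBall (x := (0 : Fin r → ℝ)) (r := 1)).subset ?_
  intro ζ hζ
  rw [mem_closedBall_zero_iff, pi_norm_le_iff_of_nonneg zero_le_one]
  intro i
  rw [Real.norm_eq_abs, ← sq_le_one_iff_abs_le_one]
  have : ζ i ^ 2 ≤ ∑ i, ζ i ^ 2 :=
    Finset.single_le_sum (f := fun i => ζ i ^ 2) (fun j _ => sq_nonneg _) (Finset.mem_univ i)
  rw [hζ] at this
  exact this

theorem finite_len (R : ℕ) : {v : Fin r → ℤ | len v ≤ R}.Finite := by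
  classical
  refine (Set.finite_Icc (fun _ => -(R : ℤ)) (fun _ => (R : ℤ))).subset ?_
  intro v hv
  have h : ∀ i, (v i).natAbs ≤ R := by
    intro i
    have h1 : (v i).natAbs ^ 2 ≤ len v :=
      Finset.single_le_sum (f := fun i => (v i).natAbs ^ 2) (fun j _ => Nat.zero_le _)
        (Finset.mem_univ i)
    have h2 : (v i).natAbs ≤ (v i).natAbs ^ 2 := Nat.le_self_pow two_ne_zero _
    exact (h2.trans h1).trans hv
  constructor
  · intro i
    have := h i
    simp only
    omega
  · intro i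
    have := h i
    simp only
    omega

end

section
variable {G V : Type*} [Group G] [AddCommGroup V] [Module (RA G) V] {K : AddSubmonoid V} {ε : V}
  {r : ℕ} {φ : G →* Multiplicative (Fin r → ℤ)}

/-- uniform steering -/
theorem uniform (hs : Function.Surjective φ)
    (hl : ∀ l : G →* Multiplicative ℝ, l ≠ 1 →
      ∃ p : RA G, Pos p ∧ p • ε - ε ∈ K ∧ ∀ x, p.coeff x ≠ 0 → (l x).toAdd < 0) :
    ∃ η : ℝ, 0 < η ∧ ∃ C : ℕ, ∀ ζ : Fin r → ℝ, ∑ i, ζ i ^ 2 = 1 →
      ∃ p : RA G, Pos p ∧ p • ε - ε ∈ K ∧ ∀ x, p.coeff x ≠ 0 →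
        ∑ i, ζ i * psi φ x i ≤ -η ∧ len (φ x).toAdd ≤ C := by
  have key := (sphere_compact r).induction_on
    (p := fun s => ∃ η : ℝ, 0 < η ∧ ∃ C : ℕ, ∀ ζ ∈ s,
      ∃ p : RA G, Pos p ∧ p • ε - ε ∈ K ∧ ∀ x, p.coeff x ≠ 0 →
        ∑ i, ζ i * psi φ x i ≤ -η ∧ len (φ x).toAdd ≤ C) ?_ ?_ ?_ ?_
  · exact key
  · exact ⟨1, one_pos, 0, fun ζ hζ => absurd hζ (Set.notMem_empty _)⟩
  · rintro s t hst ⟨η, hη, C, h⟩
    exact ⟨η, hη, C, fun ζ hζ => h ζ (hst hζ)⟩
  · rintro s t ⟨η, hη, C, h⟩ ⟨η', hη', C', h'⟩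
    refine ⟨min η η', lt_min hη hη', max C C', ?_⟩
    rintro ζ (hζ | hζ)
    · obtain ⟨p, h1, h2, h3⟩ := h ζ hζ
      exact ⟨p, h1, h2, fun x hx => ⟨(h3 x hx).1.trans (neg_le_neg (min_le_left _ _)),
        (h3 x hx).2.trans (le_max_left _ _)⟩⟩
    · obtain ⟨p, h1, h2, h3⟩ := h' ζ hζ
      exact ⟨p, h1, h2, fun x hx => ⟨(h3 x hx).1.trans (neg_le_neg (min_le_right _ _)),
        (h3 x hx).2.trans (le_max_right _ _)⟩⟩
  · intro ξ hξ
    obtain ⟨p, hp, hp2, hp3⟩ := hl (dir φ ξ) (dir_ne φ hs hξ)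
    -- a uniform margin on the finite support
    have hfin : ∀ F : Finset G, (∀ x ∈ F, ∑ i, ξ i * psi φ x i < 0) →
        ∃ η : ℝ, 0 < η ∧ ∃ C : ℕ, ∀ᶠ ζ : Fin r → ℝ in nhds ξ, ∀ x ∈ F,
          ∑ i, ζ i * psi φ x i ≤ -η ∧ len (φ x).toAdd ≤ C := by
      classical
      intro F
      induction F using Finset.induction_on with
      | empty => intro _; exact ⟨1, one_pos, 0, Filter.Eventually.of_forall fun ζ x hx => by simp at hx⟩
      | insert a F ha ih =>
        intro hF
        obtain ⟨η, hη, C, h⟩ := ih fun x hx => hF x (Finset.mem_insert_of_mem hx)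
        have h1 := hF a (Finset.mem_insert_self _ _)
        have h2 : ∀ᶠ ζ : Fin r → ℝ in nhds ξ,
            ∑ i, ζ i * psi φ a i < (∑ i, ξ i * psi φ a i) / 2 := by
          have hc : Continuous fun ζ : Fin r → ℝ => ∑ i, ζ i * psi φ a i := by fun_prop
          exact hc.continuousAt.eventually_lt_const (by linarith)
        refine ⟨min η (-((∑ i, ξ i * psi φ a i) / 2)), lt_min hη (by linarith),
          max C (len (φ a).toAdd), ?_⟩
        filter_upwards [h, h2] with ζ h3 h4 x hx
        rcases Finset.mem_insert.1 hx with rfl | hx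
        · refine ⟨?_, le_max_right _ _⟩
          have := min_le_right η (-((∑ i, ξ i * psi φ x i) / 2))
          linarith
        · exact ⟨(h3 x hx).1.trans (neg_le_neg (min_le_left _ _)),
            (h3 x hx).2.trans (le_max_left _ _)⟩
    obtain ⟨η, hη, C, h⟩ := hfin p.coeff.support fun x hx => by
      have := hp3 x (Finsupp.mem_support_iff.1 hx)
      rwa [dir_apply] at this
    refine ⟨{ζ | ∀ x ∈ p.coeff.support, ∑ i, ζ i * psi φ x i ≤ -η ∧ len (φ x).toAdd ≤ C},
      mem_nhdsWithin_of_mem_nhds h, η, hη, C, ?_⟩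
    intro ζ hζ
    exact ⟨p, hp, hp2, fun x hx => hζ x (Finsupp.mem_support_iff.2 hx)⟩

end

end Steer

open Steer in
/-- module S -/
theorem steer {G : Type*} {V : Type*} [Group G] [Group.FG G] [AddCommGroup V] [Module (RA G) V]
    {K : AddSubmonoid V} {ε : V} (hK : IsMaxCone G K ε)
    (hl : ∀ l : G →* Multiplicative ℝ, l ≠ 1 →
      ∃ p : RA G, Pos p ∧ p • ε - ε ∈ K ∧ ∀ x, p.coeff x ≠ 0 → (l x).toAdd < 0) :
    ∃ N₀ : Subgroup G, N₀.Normal ∧
      (∀ (l : G →* Multiplicative ℝ), ∀ g ∈ N₀, l g = 1) ∧ Bd K ε N₀ := by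
  classical
  obtain ⟨r, φ, hs, hφ⟩ := free_quot G
  obtain ⟨η, hη, C, hst⟩ := uniform (K := K) (ε := ε) hs hl
  refine ⟨φ.ker, inferInstance, fun l g hg => hφ l g hg, ?_⟩
  choose σ hσ using fun v : Fin r → ℤ => hs (Multiplicative.ofAdd v)
  set R : ℕ := ⌈((C : ℝ) / (2 * η)) ^ 2⌉₊ with hR
  set D : Finset (Fin r → ℤ) := (finite_len (r := r) R).toFinset with hD
  have memD : ∀ v, v ∈ D ↔ len v ≤ R := fun v => by rw [hD]; simp
  set a : RA G := ∑ v ∈ D, gel (σ v) with ha
  have h0D : (0 : Fin r → ℤ) ∈ D := by rw [memD]; simp [len]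
  have hapos : Pos a := pos_sum D _ (fun v _ => (pos_gel _).nn) 0 h0D (pos_gel _)
  -- the claim for single group elements
  have claim : ∀ n : ℕ, ∀ g : G, len (φ g).toAdd = n →
      ∃ s : RA G, PosOn (φ.ker : Set G) s ∧ s • a • ε - gel g • ε ∈ K := by
    intro n
    induction n using Nat.strong_induction_on with
    | _ n ih =>
      intro g hg
      by_cases hle : n ≤ R
      · have hv : (φ g).toAdd ∈ D := by rw [memD, hg]; exact hle
        set v := (φ g).toAdd with hvdef
        have hker : g * (σ v)⁻¹ ∈ φ.ker := by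
          rw [MonoidHom.mem_ker, map_mul, map_inv, hσ, hvdef, ofAdd_toAdd, mul_inv_cancel]
        refine ⟨gel (g * (σ v)⁻¹), posOn_gel hker, ?_⟩
        have h1 : (gel (g * (σ v)⁻¹) : RA G) • a • ε - gel g • ε =
            (gel (g * (σ v)⁻¹) * ∑ w ∈ D.erase v, gel (σ w)) • ε := by
          rw [smul_smul, ← sub_smul, ha, ← Finset.add_sum_erase D _ hv, mul_add, ← gel_mul,
            inv_mul_cancel_right]
          congr 1
          abel
        rw [h1]
        exact hK.nn_smul ((pos_gel _).nn.mul (nn_sum _ _ fun w _ => (pos_gel _).nn)) hK.eps_mem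
      · push Not at hle
        have hn0 : (0 : ℝ) < n := by
          have : 0 < n := lt_of_le_of_lt (Nat.zero_le _) hle
          exact_mod_cast this
        set m := Real.sqrt n with hm
        have hm0 : 0 < m := Real.sqrt_pos.2 hn0
        have hm2 : m ^ 2 = n := Real.sq_sqrt hn0.le
        have hmC : (C : ℝ) / (2 * η) < m := by
          apply lt_of_pow_lt_pow_left₀ 2 hm0.le
          rw [hm2]
          calc ((C : ℝ) / (2 * η)) ^ 2 ≤ R := Nat.le_ceil _
            _ < n := by exact_mod_cast hle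
        obtain ⟨p, hp, hp2, hp3⟩ := hst (fun i => psi φ g i / m) (by
          have : ∑ i, (psi φ g i / m) ^ 2 = (∑ i, psi φ g i ^ 2) / m ^ 2 := by
            rw [Finset.sum_div]
            refine Finset.sum_congr rfl fun i _ => ?_
            rw [div_pow]
          rw [this, ← len_cast, hg, hm2, div_self hn0.ne'])
        have hlt : ∀ x, p.coeff x ≠ 0 → len (φ (g * x)).toAdd < n := by
          intro x hx
          obtain ⟨h1, h2⟩ := hp3 x hx
          have h3 := len_mul φ g x
          have h4 : ∑ i, psi φ g i / m * psi φ x i = (∑ i, psi φ g i * psi φ x i) / m := by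
            rw [Finset.sum_div]
            refine Finset.sum_congr rfl fun i _ => ?_
            ring
          rw [h4, div_le_iff₀ hm0] at h1
          have h5 : ((len (φ x).toAdd : ℕ) : ℝ) ≤ C := by exact_mod_cast h2
          rw [div_lt_iff₀ (by positivity)] at hmC
          have h6 : ((len (φ (g * x)).toAdd : ℕ) : ℝ) < n := by
            rw [h3, hg]
            nlinarith
          exact_mod_cast h6
        have hex : ∀ x, ∃ s : RA G, p.coeff x ≠ 0 →
            PosOn (φ.ker : Set G) s ∧ s • a • ε - gel (g * x) • ε ∈ K := by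
          intro x
          by_cases hx : p.coeff x = 0
          · exact ⟨0, fun h => absurd hx h⟩
          · obtain ⟨s, hs1, hs2⟩ := ih _ (hlt x hx) (g * x) rfl
            exact ⟨s, fun _ => ⟨hs1, hs2⟩⟩
        choose s hs using hex
        refine ⟨∑ x ∈ p.coeff.support, sc (p.coeff x) * s x, ?_, ?_⟩
        · refine posOn_sum _ _ (fun x hx => ?_) ?_
          · have hx' := Finsupp.mem_support_iff.1 hx
            exact (posOn_sc (lt_of_le_of_ne (hp.2 x) (Ne.symm hx'))).mul (hs x hx').1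
          · obtain ⟨x, hx⟩ := hp.exists_pos
            exact ⟨x, Finsupp.mem_support_iff.2 hx.ne'⟩
        · have h1 : (gel g : RA G) • p • ε =
              ∑ x ∈ p.coeff.support, (sc (p.coeff x) : RA G) • (gel (g * x) : RA G) • ε := by
            conv_lhs => rw [eq_sum p]
            rw [Finset.sum_smul, Finset.smul_sum]
            refine Finset.sum_congr rfl fun x _ => ?_
            rw [smul_smul, smul_smul, ← mul_assoc, ← sc_comm, mul_assoc, ← gel_mul]
          have h2 : (∑ x ∈ p.coeff.support, sc (p.coeff x) * s x) • a • ε - (gel g : RA G) • ε =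
              (∑ x ∈ p.coeff.support, (sc (p.coeff x) : RA G) • (s x • a • ε -
                (gel (g * x) : RA G) • ε)) + (gel g : RA G) • (p • ε - ε) := by
            rw [smul_sub (gel g : RA G), h1, Finset.sum_smul]
            simp only [smul_sub, mul_smul, Finset.sum_sub_distrib]
            abel
          rw [h2]
          refine K.add_mem (K.sum_mem fun x hx => ?_) (hK.smul _ (pos_gel g) _ hp2)
          have hx' := Finsupp.mem_support_iff.1 hx
          exact hK.smul _ (pos_sc (lt_of_le_of_ne (hp.2 x) (Ne.symm hx'))) _ (hs x hx').2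
  refine ⟨a, hapos, fun g => ?_⟩
  choose s hs1 hs2 using fun v : Fin r → ℤ => claim _ (g * σ v) rfl
  refine ⟨∑ v ∈ D, s v, posOn_sum _ _ (fun v _ => hs1 v) ⟨0, h0D⟩, ?_⟩
  have h1 : (∑ v ∈ D, s v) • a • ε - (gel g : RA G) • a • ε =
      ∑ v ∈ D, (s v • a • ε - (gel (g * σ v) : RA G) • ε) := by
    rw [Finset.sum_smul, Finset.sum_sub_distrib]
    congr 1
    rw [smul_smul (gel g), ha, Finset.mul_sum, Finset.sum_smul]
    refine Finset.sum_congr rfl fun v _ => ?_
    rw [gel_mul]
  rw [h1]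
  exact K.sum_mem fun v _ => hs2 v

end Bludov
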