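import Pool.Agent.helper77.Bludov.Basic

/-!
# Module SC: a Schur type lemma for maximal cones with a real order unit
-/

set_option linter.unusedSectionVars false

namespace Bludov

namespace SC

section

variable {G V : Type*} [Group G] [AddCommGroup V] [Module (RA G) V] [Module ℝ V]
  [IsScalarTower ℝ (RA G) V] {K : AddSubmonoid V} {ε e : V}

theorem sc_smul (r : ℝ) (v : V) : (sc r : RA G) • v = r • v := by
  have : (sc r : RA G) = r • (1 : RA G) := by
    classical
    ext g
    simp [sc, MonoidAlgebra.one_def]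
  rw [this, smul_assoc, one_smul]

theorem rcomm (b : RA G) (r : ℝ) (v : V) : b • r • v = r • b • v := by
  rw [← sc_smul (G := G) r v, ← sc_smul (G := G) r (b • v), smul_smul, smul_smul, sc_comm]

theorem rmem (hK : IsMaxCone G K ε) {r : ℝ} (hr : 0 ≤ r) {v : V} (hv : v ∈ K) : r • v ∈ K := by
  rw [← sc_smul (G := G) r v]
  exact hK.nn_smul (nn_sc hr) hv

/-- the consequences of boundedness over the trivial subgroup -/
structure EU (G : Type*) {V : Type*} [Group G] [AddCommGroup V] [Module (RA G) V] [Module ℝ V]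
    (K : AddSubmonoid V) (e : V) : Prop where
  nns : ∀ {a : RA G}, NN a → ∀ {v : V}, v ∈ K → a • v ∈ K
  rm : ∀ {r : ℝ}, 0 ≤ r → ∀ {v : V}, v ∈ K → r • v ∈ K
  he : e ∈ K
  hneg : ∀ r : ℝ, 0 < r → -(r • e) ∉ K
  hmax : ∀ w, w ∉ K → ∃ k ∈ K, ∃ b : RA G, Pos b ∧ -e = k + b • w
  hbd : ∀ b : RA G, NN b → ∃ r : ℝ, 0 < r ∧ r • e - b • e ∈ K
  hgen : ∀ w : V, ∃ r : ℝ, 0 < r ∧ r • e + w ∈ K ∧ r • e - w ∈ K

theorem EU.of (hK : IsMaxCone G K ε) (hb : Bd K ε (⊥ : Subgroup G)) : ∃ e : V, EU G K e := by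
  classical
  obtain ⟨a, ha, hg⟩ := hb
  set e : V := a • ε with he
  have he1 : e ∈ K := hK.smul a ha _ hK.eps_mem
  have h1 : ∀ g : G, ∃ r : ℝ, 0 < r ∧ r • e - gel g • e ∈ K := by
    intro g
    obtain ⟨s, hs, h⟩ := hg g
    have h2 : ∀ x, s.coeff x ≠ 0 → x = 1 := by
      intro x hx
      have := hs.2 x hx
      simpa using this
    have h3 : s = sc (s.coeff 1) := by
      ext x
      rw [coeff_sc]
      split_ifs with hx
      · rw [hx]
      · by_contra hne
        exact hx (h2 x hne)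
    obtain ⟨x, hx⟩ := hs.1.exists_pos
    have h4 : x = 1 := h2 x hx.ne'
    rw [h4] at hx
    refine ⟨s.coeff 1, hx, ?_⟩
    rw [h3, sc_smul] at h
    exact h
  choose rr hrr hrr2 using h1
  have hbd : ∀ b : RA G, NN b → ∃ r : ℝ, 0 < r ∧ r • e - b • e ∈ K := by
    intro b hb
    refine ⟨1 + ∑ g ∈ b.coeff.support, b.coeff g * rr g, ?_, ?_⟩
    · have : 0 ≤ ∑ g ∈ b.coeff.support, b.coeff g * rr g :=
        Finset.sum_nonneg fun g _ => mul_nonneg (hb g) (hrr g).le
      linarith
    · have h5 : b • e = ∑ g ∈ b.coeff.support, b.coeff g • (gel g : RA G) • e := by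
        conv_lhs => rw [eq_sum b]
        rw [Finset.sum_smul]
        refine Finset.sum_congr rfl fun g _ => ?_
        rw [mul_smul, sc_smul]
      have h6 : (1 + ∑ g ∈ b.coeff.support, b.coeff g * rr g) • e - b • e =
          e + ∑ g ∈ b.coeff.support, b.coeff g • (rr g • e - (gel g : RA G) • e) := by
        rw [h5, add_smul, one_smul, Finset.sum_smul, add_sub_assoc, ← Finset.sum_sub_distrib]
        congr 1
        refine Finset.sum_congr rfl fun g _ => ?_
        rw [smul_sub, mul_smul]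
      rw [h6]
      exact K.add_mem he1 (K.sum_mem fun g _ => rmem hK (hb g) (hrr2 g))
  obtain ⟨g, hg1⟩ := ha.exists_pos
  have h7 := hK.le_of_term ha.nn hK.eps_mem g hg1
  obtain ⟨C, hC, hC2⟩ := hbd (sc (a.coeff g)⁻¹ * gel g⁻¹)
    ((nn_sc (inv_nonneg.2 hg1.le)).mul (pos_gel _).nn)
  have h8 : C • e - ε ∈ K := by
    rw [mul_smul _ a ε, ← he] at h7
    have := K.add_mem hC2 h7
    convert this using 1
    abel
  refine ⟨e, ⟨fun ha v hv => hK.nn_smul ha hv, fun hr v hv => rmem hK hr hv, he1, ?_, ?_, hbd, ?_⟩⟩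
  · intro r hr
    have := hK.neg_smul_eps ((pos_sc hr).mul ha)
    rwa [mul_smul, sc_smul, ← he] at this
  · intro w hw
    exact hK.max' ha hw
  · intro w
    obtain ⟨b, hb, h9, h10⟩ := hK.gen' w
    obtain ⟨r2, hr2, h11⟩ := hbd b hb.nn
    have h12 : (C * r2) • e - b • ε ∈ K := by
      have a1 := hK.smul b hb _ h8
      have a2 := rmem hK hC.le h11
      have := K.add_mem a1 a2
      rw [smul_sub, smul_sub, rcomm, smul_smul C r2] at this
      convert this using 1
      abel
    refine ⟨C * r2, mul_pos hC hr2, ?_, ?_⟩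
    · have := K.add_mem h12 h9
      convert this using 1
      abel
    · have := K.add_mem h12 h10
      convert this using 1
      abel

variable (U : EU G K e)
include U

theorem EU.le_of {r s : ℝ} (h : r • e - s • e ∈ K) : s ≤ r := by
  by_contra hlt
  push Not at hlt
  apply U.hneg (s - r) (by linarith)
  rw [← sub_smul] at h
  rwa [← neg_smul, neg_sub]

theorem EU.arch {w : V} (h : ∀ δ : ℝ, 0 < δ → w + δ • e ∈ K) : w ∈ K := by
  by_contra hw
  obtain ⟨k, hk, b, hb, heq⟩ := U.hmax w hw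
  obtain ⟨C, hC, hC2⟩ := U.hbd b hb.nn
  have h1 := U.nns hb.nn (h (1 / (2 * C)) (by positivity))
  rw [smul_add, rcomm] at h1
  have h2 := U.rm (r := 1 / (2 * C)) (by positivity) hC2
  have h3 := K.add_mem hk (K.add_mem h1 h2)
  apply U.hneg (1 / 2) (by norm_num)
  have h4 : (1 / (2 * C)) • C • e = (1 / 2 : ℝ) • e := by
    rw [smul_smul]; congr 1; field_simp
  rw [smul_sub, h4] at h3
  convert h3 using 1
  have h5 : b • w = -e - k := by rw [heq]; abel
  rw [h5]
  generalize b • e = be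
  module

omit U in
/-- the lineality space -/
def Z (K : AddSubmonoid V) : AddSubgroup V where
  carrier := {w | w ∈ K ∧ -w ∈ K}
  add_mem' := by
    rintro a b ⟨h1, h2⟩ ⟨h3, h4⟩
    exact ⟨K.add_mem h1 h3, by rw [neg_add]; exact K.add_mem h2 h4⟩
  zero_mem' := ⟨K.zero_mem, by simp⟩
  neg_mem' := by
    rintro a ⟨h1, h2⟩
    exact ⟨h2, by simpa using h1⟩

omit U in
theorem mem_Z {w : V} : w ∈ Z K ↔ w ∈ K ∧ -w ∈ K := Iff.rfl

theorem EU.Z_smul (b : RA G) {w : V} (hw : w ∈ Z K) : b • w ∈ Z K := by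
  have key : ∀ w ∈ Z K, b • w ∈ K := by
    intro w hw
    have h1 := U.nns (nn_pp b) hw.1
    have h2 := U.nns (nn_np b) hw.2
    have h3 := K.add_mem h1 h2
    convert h3 using 1
    conv_lhs => rw [← pp_sub_np b]
    rw [sub_smul, smul_neg, sub_eq_add_neg]
  refine ⟨key w hw, ?_⟩
  rw [← smul_neg]
  exact key _ ((Z K).neg_mem hw)

theorem EU.Z_rsmul (r : ℝ) {w : V} (hw : w ∈ Z K) : r • w ∈ Z K := by
  rw [← sc_smul (G := G)]
  exact U.Z_smul _ hw

/-- elements commuting with `G` modulo the lineality space commute with the ring -/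
theorem EU.comm_ring {A : RA G} (hA : ∀ (g : G) (w : V), A • gel g • w - gel g • A • w ∈ Z K)
    (b : RA G) (w : V) : A • b • w - b • A • w ∈ Z K := by
  have h1 : ∀ v : V, b • v = ∑ g ∈ b.coeff.support, b.coeff g • (gel g : RA G) • v := by
    intro v
    conv_lhs => rw [eq_sum b]
    rw [Finset.sum_smul]
    refine Finset.sum_congr rfl fun g _ => ?_
    rw [mul_smul, sc_smul]
  rw [h1 w, h1 (A • w), Finset.smul_sum, ← Finset.sum_sub_distrib]
  refine (Z K).sum_mem fun g _ => ?_
  rw [rcomm, ← smul_sub]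
  exact U.Z_rsmul _ (hA g w)

theorem EU.scal_pos {x : G} {t : ℝ} (ht : 0 ≤ t) (h : ∀ w : V, gel x • w - t • w ∈ Z K) :
    0 < t := by
  rcases ht.lt_or_eq with h0 | h0
  · exact h0
  · exfalso
    subst h0
    have h1 := U.Z_smul (gel x⁻¹) (h e)
    rw [zero_smul, sub_zero, smul_smul, gel_inv_mul, one_smul] at h1
    apply U.hneg 1 one_pos
    rw [one_smul]
    exact h1.2

/-- **Schur**: an element of the group which is central modulo the lineality space acts as a
positive scalar -/
theorem EU.scal (x : G) (hx : ∀ (g : G) (w : V), gel x • gel g • w - gel g • gel x • w ∈ Z K) :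
    ∃ t : ℝ, 0 < t ∧ ∀ w : V, gel x • w - t • w ∈ Z K := by
  set C : Set ℝ := {c | 0 ≤ c ∧ ∀ k ∈ K, gel x • k - c • k ∈ K} with hC
  have hC0 : (0 : ℝ) ∈ C := ⟨le_rfl, fun k hk => by
    rw [zero_smul, sub_zero]; exact U.nns (pos_gel x).nn hk⟩
  obtain ⟨r0, hr0, hr0'⟩ := U.hbd (gel x) (pos_gel x).nn
  have hCb : BddAbove C := by
    refine ⟨r0, fun c hc => U.le_of ?_⟩
    have := K.add_mem hr0' (hc.2 e U.he)
    convert this using 1
    abel
  set t := sSup C with ht
  have ht0 : 0 ≤ t := le_csSup hCb hC0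
  have htC : ∀ k ∈ K, gel x • k - t • k ∈ K := by
    intro k hk
    obtain ⟨rk, hrk, -, hrk2⟩ := U.hgen k
    refine U.arch fun δ hδ => ?_
    obtain ⟨c, hc, hct⟩ := exists_lt_of_lt_csSup ⟨0, hC0⟩
      (show t - δ / rk < sSup C by rw [← ht]; linarith [div_pos hδ hrk])
    have hct2 : c ≤ t := le_csSup hCb hc
    have h1 := hc.2 k hk
    have h2 := U.rm (r := t - c) (by linarith) hrk2
    have h3 : 0 ≤ δ - (t - c) * rk := by
      have : (t - c) < δ / rk := by linarith
      rw [lt_div_iff₀ hrk] at this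
      linarith
    have h4 := U.rm h3 U.he
    have h5 := K.add_mem h1 (K.add_mem h2 h4)
    convert h5 using 1
    generalize (gel x : RA G) • k = xk
    module
  set A : RA G := gel x - sc t with hA
  have hAs : ∀ w : V, A • w = gel x • w - t • w := by
    intro w; rw [hA, sub_smul, sc_smul]
  have hAK : ∀ k ∈ K, A • k ∈ K := fun k hk => by rw [hAs]; exact htC k hk
  have hAg : ∀ (g : G) (w : V), A • gel g • w - gel g • A • w ∈ Z K := by
    intro g w
    have := hx g w
    rw [hAs, hAs, smul_sub, rcomm]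
    convert this using 1
    abel
  have hAc := U.comm_ring hAg
  have fin : A • e ∈ Z K → ∃ t : ℝ, 0 < t ∧ ∀ w : V, gel x • w - t • w ∈ Z K := by
    intro hAe
    have h1 : ∀ k ∈ K, A • k ∈ Z K := by
      intro k hk
      obtain ⟨r, hr, -, hr2⟩ := U.hgen k
      refine ⟨hAK k hk, ?_⟩
      have h2 := K.add_mem (hAK _ hr2) (U.Z_rsmul r hAe).2
      rw [smul_sub, rcomm] at h2
      convert h2 using 1
      abel
    have h2 : ∀ w : V, gel x • w - t • w ∈ Z K := by
      intro w
      rw [← hAs]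
      obtain ⟨r, hr, -, hr2⟩ := U.hgen w
      have h3 := (Z K).sub_mem (U.Z_rsmul r hAe) (h1 _ hr2)
      convert h3 using 1
      rw [smul_sub, rcomm]
      abel
    exact ⟨t, U.scal_pos ht0 h2, h2⟩
  by_cases hAe : A • e ∈ Z K
  · exact fin hAe
  · exfalso
    have h1 : -(A • e) ∉ K := fun h => hAe ⟨hAK e U.he, h⟩
    obtain ⟨k, hk, b, hb, heq⟩ := U.hmax _ h1
    obtain ⟨D, hD, hD2⟩ := U.hbd b hb.nn
    -- D A e >= e
    have h2 : D • A • e - e ∈ K := by
      have h3 := hAK _ hD2
      rw [smul_sub, rcomm] at h3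
      have h4 := (hAc b e).1
      have h5 := K.add_mem (K.add_mem h3 h4) hk
      convert h5 using 1
      have h6 : b • A • e = e + k := by
        have : -e = k - b • A • e := by rw [heq, smul_neg]; abel
        rw [eq_sub_iff_add_eq] at this
        rw [← sub_eq_zero] at this ⊢
        rw [← this]; abel
      rw [h6]
      abel
    set κ := 1 / D with hκ
    have hκ0 : 0 < κ := by positivity
    have hAκ : A • e - κ • e ∈ K := by
      have := U.rm hκ0.le h2
      rw [smul_sub, smul_smul] at this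
      have h7 : κ * D = 1 := by rw [hκ]; field_simp
      rwa [h7, one_smul] at this
    set δ := κ / 2 with hδ
    have hδ0 : 0 < δ := by positivity
    have hnot : t + δ ∉ C := fun h => by
      have := le_csSup hCb h
      linarith
    apply hnot
    refine ⟨by linarith, fun k hk => ?_⟩
    by_contra hcon
    obtain ⟨k', hk', b, hb, heq⟩ := U.hmax _ hcon
    set w := b • k with hw
    have hwK : w ∈ K := U.nns hb.nn hk
    -- A w <= δ w - e
    have h8 : δ • w - e - A • w ∈ K := by
      have h9 := (U.comm_ring hAg b k).2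
      have h10 := K.add_mem hk' h9
      convert h10 using 1
      have h11 : b • (gel x • k - (t + δ) • k) = b • A • k - δ • b • k := by
        rw [hAs, smul_sub, smul_sub, rcomm, rcomm, add_smul]
        abel
      rw [h11, ← hw] at heq
      rw [← hw]
      have h12 : k' = -e - (b • A • k - δ • w) := by rw [heq]; abel
      rw [h12]
      abel
    clear_value w
    have hpow : ∀ n : ℕ, δ ^ n • w - A ^ n • w ∈ K ∧ A ^ n • e - κ ^ n • e ∈ K ∧
        ∀ k ∈ K, A ^ n • k ∈ K := by
      intro n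
      induction n with
      | zero => simp
      | succ n ih =>
        obtain ⟨i1, i2, i3⟩ := ih
        refine ⟨?_, ?_, ?_⟩
        · have j1 := hAK _ i1
          have j2 := U.rm (pow_nonneg hδ0.le n) h8
          have j3 := U.rm (pow_nonneg hδ0.le n) U.he
          have j4 := K.add_mem j1 (K.add_mem j2 j3)
          convert j4 using 1
          rw [smul_sub, rcomm, smul_smul A (A ^ n) w, ← pow_succ']
          generalize (A ^ (n + 1)) • w = y1
          generalize A • w = y2
          rw [pow_succ]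
          module
        · have j1 := hAK _ i2
          have j2 := U.rm (pow_nonneg hκ0.le n) hAκ
          have j4 := K.add_mem j1 j2
          convert j4 using 1
          rw [smul_sub, rcomm, smul_smul A (A ^ n) e, ← pow_succ']
          generalize (A ^ (n + 1)) • e = y1
          generalize A • e = y2
          rw [pow_succ]
          module
        · intro k hk
          rw [pow_succ', mul_smul]
          exact hAK _ (i3 k hk)
    obtain ⟨r, hr, -, hr2⟩ := U.hgen w
    have hfin : ∀ n : ℕ, κ ^ n ≤ δ ^ (n + 1) * r := by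
      intro n
      obtain ⟨i1, i2, i3⟩ := hpow n
      apply U.le_of
      have j1 := U.rm (pow_nonneg hδ0.le (n + 1)) hr2
      have j2 := U.rm hδ0.le i1
      have j3 : A ^ n • (δ • w - e) ∈ K := by
        apply i3
        have := K.add_mem h8 (hAK w hwK)
        convert this using 1
        abel
      have j5 := K.add_mem (K.add_mem j1 j2) (K.add_mem j3 i2)
      convert j5 using 1
      rw [smul_sub (A ^ n), rcomm]
      generalize (A ^ n) • w = y1
      generalize (A ^ n) • e = y2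
      rw [pow_succ]
      module
    obtain ⟨n, hn⟩ := pow_unbounded_of_one_lt (δ * r) (one_lt_two : (1 : ℝ) < 2)
    have := hfin n
    have h13 : κ = 2 * δ := by rw [hδ]; ring
    rw [h13, mul_pow, pow_succ] at this
    have h14 : 0 < δ ^ n := by positivity
    have h15 : 2 ^ n * δ ^ n ≤ (δ * r) * δ ^ n := by linarith
    have := le_of_mul_le_mul_right h15 h14
    linarith

theorem EU.uniq {x : G} {t s : ℝ} (ht : ∀ w : V, gel x • w - t • w ∈ Z K)
    (hs : ∀ w : V, gel x • w - s • w ∈ Z K) : t = s := by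
  have h1 := (Z K).sub_mem (ht e) (hs e)
  have h2 : gel x • e - t • e - (gel x • e - s • e) = s • e - t • e := by abel
  rw [h2] at h1
  refine le_antisymm (U.le_of h1.1) (U.le_of ?_)
  have := h1.2
  rwa [neg_sub] at this

/-- the elements of the group acting as positive scalars modulo the lineality space -/
def EU.Sc : Subgroup G where
  carrier := {x | ∃ t : ℝ, 0 < t ∧ ∀ w : V, gel x • w - t • w ∈ Z K}
  mul_mem' := by
    rintro x y ⟨t, ht, hx⟩ ⟨s, hs, hy⟩
    refine ⟨t * s, mul_pos ht hs, fun w => ?_⟩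
    have h1 := (Z K).add_mem (U.Z_smul (gel x) (hy w)) (U.Z_rsmul s (hx w))
    convert h1 using 1
    rw [gel_mul, mul_smul, smul_sub, rcomm, smul_sub, smul_smul s t, mul_comm s t]
    abel
  one_mem' := ⟨1, one_pos, fun w => by
    rw [gel_one, one_smul, one_smul, sub_self]; exact (Z K).zero_mem⟩
  inv_mem' := by
    rintro x ⟨t, ht, hx⟩
    refine ⟨t⁻¹, inv_pos.2 ht, fun w => ?_⟩
    have h1 := U.Z_rsmul (-t⁻¹) (U.Z_smul (gel x⁻¹) (hx w))
    convert h1 using 1
    rw [smul_sub, rcomm, smul_smul, gel_inv_mul, one_smul, smul_sub, smul_smul, neg_mul,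
      inv_mul_cancel₀ ht.ne', neg_smul, neg_smul, one_smul]
    abel

theorem EU.pow_le {x : G} {r : ℝ} (hr : 0 ≤ r) (h : r • e - gel x • e ∈ K) (n : ℕ) :
    r ^ n • e - gel (x ^ n) • e ∈ K := by
  induction n with
  | zero => simp
  | succ n ih =>
    have h1 := U.nns (pos_gel x).nn ih
    have h2 := U.rm (pow_nonneg hr n) h
    have h3 := K.add_mem h1 h2
    convert h3 using 1
    rw [pow_succ' x, gel_mul, mul_smul, smul_sub, rcomm, smul_sub, smul_smul (r ^ n) r,
      ← pow_succ]
    abel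

theorem EU.le_pow {x : G} {r : ℝ} (hr : 0 ≤ r) (h : r • gel x • e - e ∈ K) (n : ℕ) :
    r ^ n • gel (x ^ n) • e - e ∈ K := by
  induction n with
  | zero => simp
  | succ n ih =>
    have h1 := U.rm hr (U.nns (pos_gel x).nn ih)
    have h3 := K.add_mem h1 h
    convert h3 using 1
    rw [pow_succ' x, gel_mul, mul_smul, smul_sub, rcomm, smul_sub, smul_smul r, ← pow_succ']
    abel

/-- two-sided exponential bounds -/
theorem EU.bnd (x y : G) : ∃ a b : ℝ, 0 < a ∧ 0 < b ∧ ∀ n : ℕ,
    a ^ n • e - gel (x ^ n) • gel (y ^ n) • e ∈ K ∧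
      b ^ n • gel (x ^ n) • gel (y ^ n) • e - e ∈ K := by
  obtain ⟨a1, ha1, hx1⟩ := U.hbd (gel x) (pos_gel x).nn
  obtain ⟨a2, ha2, hy1⟩ := U.hbd (gel y) (pos_gel y).nn
  obtain ⟨b1, hb1, hx2⟩ := U.hbd (gel x⁻¹) (pos_gel _).nn
  obtain ⟨b2, hb2, hy2⟩ := U.hbd (gel y⁻¹) (pos_gel _).nn
  have hx3 : b1 • gel x • e - e ∈ K := by
    have := U.nns (pos_gel x).nn hx2
    rwa [smul_sub, rcomm, smul_smul, gel_mul_inv, one_smul] at this
  have hy3 : b2 • gel y • e - e ∈ K := by
    have := U.nns (pos_gel y).nn hy2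
    rwa [smul_sub, rcomm, smul_smul, gel_mul_inv, one_smul] at this
  refine ⟨a1 * a2, b1 * b2, mul_pos ha1 ha2, mul_pos hb1 hb2, fun n => ⟨?_, ?_⟩⟩
  · have h1 := U.nns (pos_gel (x ^ n)).nn (U.pow_le ha2.le hy1 n)
    have h2 := U.rm (pow_nonneg ha2.le n) (U.pow_le ha1.le hx1 n)
    have h3 := K.add_mem h1 h2
    convert h3 using 1
    rw [smul_sub, rcomm, smul_sub, smul_smul (a2 ^ n) (a1 ^ n), ← mul_pow, mul_comm a2 a1]
    abel
  · have h1 := U.rm (pow_nonneg hb1.le n) (U.nns (pos_gel (x ^ n)).nn (U.le_pow hb2.le hy3 n))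
    have h2 := U.le_pow hb1.le hx3 n
    have h3 := K.add_mem h1 h2
    convert h3 using 1
    rw [smul_sub, rcomm, smul_sub, smul_smul (b1 ^ n) (b2 ^ n), ← mul_pow]
    abel

omit U in
theorem eq_one_of {c M M' : ℝ} (hc : 0 < c) (hM : 0 < M) (hM' : 0 < M')
    (h1 : ∀ n : ℕ, (c ^ n) ^ n ≤ M ^ n) (h2 : ∀ n : ℕ, 1 ≤ (c ^ n) ^ n * M' ^ n) : c = 1 := by
  rcases lt_trichotomy c 1 with h | h | h
  · exfalso
    obtain ⟨n, hn⟩ := exists_pow_lt_of_lt_one (show (0 : ℝ) < min 1 (1 / M') by positivity) h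
    have hn0 : n ≠ 0 := by
      rintro rfl
      rw [pow_zero] at hn
      exact absurd (min_le_left _ _) (not_le.2 hn)
    have h3 := h2 n
    rw [← mul_pow] at h3
    have h4 : c ^ n * M' < 1 := by
      have := lt_of_lt_of_le hn (min_le_right _ _)
      rwa [lt_div_iff₀ hM'] at this
    have h5 : (c ^ n * M') ^ n < 1 := pow_lt_one₀ (by positivity) h4 hn0
    linarith
  · exact h
  · exfalso
    obtain ⟨n, hn⟩ := pow_unbounded_of_one_lt (max 1 M) h
    have hn0 : n ≠ 0 := by
      rintro rfl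
      rw [pow_zero] at hn
      exact absurd (le_max_left _ _) (not_le.2 hn)
    have h3 : M ^ n < (c ^ n) ^ n :=
      pow_lt_pow_left₀ (lt_of_le_of_lt (le_max_right _ _) hn) hM.le hn0
    exact absurd (h1 n) (not_le.2 h3)

/-- a commutation factor is trivial -/
theorem EU.factor_one {g z : G} {c : ℝ} (hc : 0 < c)
    (h : ∀ w : V, gel g • gel z • w - c • gel z • gel g • w ∈ Z K) : c = 1 := by
  have E1 : ∀ (m : ℕ) (w : V),
      gel g • gel (z ^ m) • w - c ^ m • gel (z ^ m) • gel g • w ∈ Z K := by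
    intro m
    induction m with
    | zero => intro w; simp
    | succ m ih =>
      intro w
      have h1 := ih (gel z • w)
      have h2 := U.Z_rsmul (c ^ m) (U.Z_smul (gel (z ^ m)) (h w))
      have h3 := (Z K).add_mem h1 h2
      convert h3 using 1
      rw [pow_succ z, gel_mul, mul_smul, mul_smul, smul_sub (gel (z ^ m)), rcomm, smul_sub (c ^ m),
        smul_smul (c ^ m) c, ← pow_succ]
      abel
  have E2 : ∀ (m n : ℕ) (w : V),
      gel (g ^ n) • gel (z ^ m) • w - (c ^ m) ^ n • gel (z ^ m) • gel (g ^ n) • w ∈ Z K := by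
    intro m n
    induction n with
    | zero => intro w; simp
    | succ n ih =>
      intro w
      have h1 := U.Z_smul (gel g) (ih w)
      have h2 := U.Z_rsmul ((c ^ m) ^ n) (E1 m (gel (g ^ n) • w))
      have h3 := (Z K).add_mem h1 h2
      convert h3 using 1
      rw [pow_succ' g, gel_mul, mul_smul, mul_smul, smul_sub (gel g), rcomm,
        smul_sub ((c ^ m) ^ n), smul_smul ((c ^ m) ^ n) (c ^ m), ← pow_succ]
      abel
  obtain ⟨a1, b1, ha1, hb1, H1⟩ := U.bnd g z
  obtain ⟨a2, b2, ha2, hb2, H2⟩ := U.bnd z g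
  refine eq_one_of hc (mul_pos ha1 hb2) (mul_pos ha2 hb1) (fun n => U.le_of ?_)
    (fun n => U.le_of ?_)
  · obtain ⟨h1, -⟩ := H1 n
    obtain ⟨-, h2⟩ := H2 n
    have h3 := (E2 n n e).1
    generalize (gel (g ^ n) : RA G) • (gel (z ^ n) : RA G) • e = P at *
    generalize (gel (z ^ n) : RA G) • (gel (g ^ n) : RA G) • e = Q at *
    have ht : (0 : ℝ) ≤ (c ^ n) ^ n := by positivity
    have h4 := K.add_mem (U.rm (pow_nonneg hb2.le n) (K.add_mem h1 h3)) (U.rm ht h2)
    convert h4 using 1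
    rw [mul_pow]
    module
  · obtain ⟨-, h1⟩ := H1 n
    obtain ⟨h2, -⟩ := H2 n
    have h3 := (E2 n n e).2
    generalize (gel (g ^ n) : RA G) • (gel (z ^ n) : RA G) • e = P at *
    generalize (gel (z ^ n) : RA G) • (gel (g ^ n) : RA G) • e = Q at *
    have ht : (0 : ℝ) ≤ (c ^ n) ^ n := by positivity
    have h4 := K.add_mem (U.rm (pow_nonneg hb1.le n) (K.add_mem (U.rm ht h2) h3)) h1
    convert h4 using 1
    rw [mul_pow]
    module

theorem EU.top {n : ℕ} {Y : Subgroup G} (h : CCh n Y) : Y ≤ U.Sc := by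
  induction h with
  | bot => exact bot_le
  | step z _ hz ih =>
    refine sup_le ih (Subgroup.zpowers_le.2 (U.scal z fun g w => ?_))
    obtain ⟨c, hc, hy⟩ := ih (hz g)
    have h1 : ∀ w : V, gel g • gel z • w - c • gel z • gel g • w ∈ Z K := by
      intro w
      have := hy (gel z • gel g • w)
      rw [smul_smul (gel (g * z * g⁻¹ * z⁻¹)), smul_smul (gel (g * z * g⁻¹ * z⁻¹) * gel z),
        ← gel_mul, ← gel_mul] at this
      have h2 : g * z * g⁻¹ * z⁻¹ * z * g = g * z := by group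
      rw [h2, gel_mul, mul_smul] at this
      exact this
    have h2 := U.factor_one hc h1
    subst h2
    have h3 := (Z K).neg_mem (h1 w)
    rw [one_smul, neg_sub] at h3
    exact h3

end

end SC

open SC in
/-- module SC -/
theorem schur {G : Type*} {V : Type*} [Group G] [AddCommGroup V] [Module (RA G) V]
    {K : AddSubmonoid V} {ε : V} (hK : IsMaxCone G K ε) {n : ℕ} (hc : CCh n (⊤ : Subgroup G))
    (hb : Bd K ε (⊥ : Subgroup G)) :
    ∃ χ : G →* ℝ, (∀ g, 0 < χ g) ∧ ∀ (g : G) (w : V), (gel g - sc (χ g)) • w ∈ K := by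
  let _ : Module ℝ V := Module.compHom V (algebraMap ℝ (RA G))
  have _ : IsScalarTower ℝ (RA G) V := ⟨fun r b v => by
    change (r • b) • v = (algebraMap ℝ (RA G) r) • b • v
    rw [Algebra.smul_def, mul_smul]⟩
  obtain ⟨e, U⟩ := EU.of hK hb
  have hall : ∀ x : G, ∃ t : ℝ, 0 < t ∧ ∀ w : V, gel x • w - t • w ∈ Z K := fun x =>
    U.top hc (Subgroup.mem_top x)
  choose t ht h using hall
  refine ⟨⟨⟨t, ?_⟩, ?_⟩, ht, ?_⟩
  · exact U.uniq (h 1) fun w => by
      rw [gel_one, one_smul, one_smul, sub_self]; exact (Z K).zero_mem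
  · intro x y
    refine U.uniq (h (x * y)) fun w => ?_
    have h1 := (Z K).add_mem (U.Z_smul (gel x) (h y w)) (U.Z_rsmul (t y) (h x w))
    convert h1 using 1
    rw [gel_mul, mul_smul, smul_sub, rcomm, smul_sub, smul_smul (t y) (t x), mul_comm (t y)]
    abel
  · intro g w
    have := (h g w).1
    rw [sub_smul, sc_smul]
    exact this

end Bludov
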