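import Pool.Agent.helper77.Bludov.O1
import Pool.Agent.helper77.Bludov.AI
import Pool.Agent.helper77.Bludov.C2
import Pool.Agent.helper77.Bludov.D
import Pool.Agent.helper77.Bludov.SC
import Pool.Agent.helper77.Bludov.S
import Pool.Agent.helper77.Bludov.AL

set_option linter.unusedSectionVars false

/-!
# Assembly of the positive Ore lemma
-/

namespace Bludov

universe u v

section
variable {G : Type*} [Group G]

/-- the real scalar part: elements act modulo `K ∩ -K` through the character -/
theorem act_by_character {V : Type*} [AddCommGroup V] [Module (RA G) V] {K : AddSubmonoid V}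
    (χ : G →* ℝ) (h : ∀ (g : G) (w : V), (gel g - sc (χ g)) • w ∈ K) (f : RA G) (w : V) :
    (f - sc (ev χ f)) • w ∈ K := by
  classical
  have h1 : f - sc (ev χ f) =
      ∑ g ∈ f.coeff.support, (gel g - sc (χ g)) * sc (f.coeff g) := by
    have e1 : ev χ f = ∑ g ∈ f.coeff.support, f.coeff g * χ g := by
      conv_lhs => rw [eq_sum f]
      rw [map_sum]
      refine Finset.sum_congr rfl fun g _ => ?_
      rw [← single_eq]
      simp [ev]
    have e2 : (sc (ev χ f) : RA G) = ∑ g ∈ f.coeff.support, sc (χ g) * sc (f.coeff g) := by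
      rw [e1]
      have : ∀ s : Finset G, (sc (∑ g ∈ s, f.coeff g * χ g) : RA G) =
          ∑ g ∈ s, sc (χ g) * sc (f.coeff g) := by
        intro s
        induction s using Finset.induction_on with
        | empty => simp
        | insert a s ha ih =>
          rw [Finset.sum_insert ha, Finset.sum_insert ha, sc_add, ih, ← sc_mul,
            mul_comm (χ a)]
      exact this _
    rw [e2]
    nth_rewrite 1 [eq_sum f]
    rw [← Finset.sum_sub_distrib]
    refine Finset.sum_congr rfl fun g _ => ?_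
    rw [sub_mul, sc_comm]
  rw [h1, Finset.sum_smul]
  refine K.sum_mem fun g _ => ?_
  rw [mul_smul]
  exact h g _

theorem bd_bot_of_chain {V : Type*} [AddCommGroup V] [Module (RA G) V] {K : AddSubmonoid V}
    {ε : V} (hK : IsMaxCone G K ε) {n : ℕ} (hc : CCh n (⊤ : Subgroup G)) {m : ℕ}
    {Y : Subgroup G} (hY : CCh m Y) (hl : ∀ (l : G →* Multiplicative ℝ), ∀ g ∈ Y, l g = 1)
    (hb : Bd K ε Y) : Bd K ε (⊥ : Subgroup G) := by
  induction hY with
  | bot => exact hb
  | @step n Y z hY hz ih =>
    refine ih (fun l g hg => hl l g (Subgroup.mem_sup_left hg)) ?_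
    exact descend_step hK hc Y hY.normal z hz
      (fun l => hl l z (Subgroup.mem_sup_right (Subgroup.mem_zpowers z))) hb

/-- a relation with positive top part bounds the unit from above -/
theorem bound_of_relation {m : ℕ} {K : AddSubmonoid (Fin m → RA G)}
    (hK : IsMaxCone G K (fun _ => (1 : RA G)))
    (hpos : ∀ v : Fin m → RA G, (∀ i, NN (v i)) → v ∈ K)
    (l : G →* Multiplicative ℝ) (u : Fin m → RA G) (hu : -u ∈ K) (d : ℝ)
    (h1 : ∀ i, ∀ x, (u i).coeff x < 0 → (l x).toAdd < d)
    (h2 : ∀ i, ∃ x, (l x).toAdd = d ∧ 0 < (u i).coeff x) :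
    ∃ p : RA G, Pos p ∧ p • (fun _ => (1 : RA G)) - (fun _ => (1 : RA G)) ∈ K ∧
      ∀ x, p.coeff x ≠ 0 → (l x).toAdd < 0 := by
  classical
  choose x hx hxp using h2
  set ε : Fin m → RA G := fun _ => (1 : RA G) with hε
  set q : RA G := ∑ j, np (u j) with hq
  have hqn : NN q := nn_sum _ _ fun j _ => nn_np _
  have hqj : ∀ (j : Fin m) (y : G), max (-(u j).coeff y) 0 ≤ q.coeff y := by
    intro j y
    rw [hq, MonoidAlgebra.coeff_sum, Finsupp.finsetSum_apply]
    have := Finset.single_le_sum (f := fun j => (np (u j)).coeff y)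
      (fun i _ => nn_np (u i) y) (Finset.mem_univ j)
    simpa using this
  let t : Fin m → RA G := fun i => sc ((u i).coeff (x i))⁻¹ * gel (x i)⁻¹
  let s : Fin m → RA G := fun i => sc ((u i).coeff (x i)) * gel (x i)
  have hts : ∀ i, t i * s i = 1 := by
    intro i
    simp only [t, s]
    rw [mul_assoc, ← mul_assoc (gel _), ← sc_comm, mul_assoc (sc ((u i).coeff (x i))),
      gel_inv_mul, mul_one, ← sc_mul, inv_mul_cancel₀ (hxp i).ne', sc_one]
  have htp : ∀ i, Pos (t i) := fun i => (pos_sc (inv_pos.2 (hxp i))).mul (pos_gel _)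
  set p : RA G := ∑ i, t i * q with hp
  have hpn : NN p := nn_sum _ _ fun i _ => (htp i).nn.mul hqn
  have hmain : p • ε - ε ∈ K := by
    have e1 : p • ε - ε = ∑ i, t i • (q • ε - Pi.single i (s i)) := by
      funext j
      simp only [Pi.sub_apply, Pi.smul_apply, Finset.sum_apply, smul_eq_mul, hε, mul_one,
        mul_sub, Finset.sum_sub_distrib, hp]
      congr 1
      rw [Finset.sum_eq_single j]
      · rw [Pi.single_eq_same, hts]
      · intro i _ hij
        rw [Pi.single_eq_of_ne (Ne.symm hij)]; simp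
      · simp
    rw [e1]
    refine K.sum_mem fun i _ => hK.smul _ (htp i) _ ?_
    have e2 : q • ε - Pi.single i (s i) = (q • ε - Pi.single i (s i) + u) + -u := by abel
    rw [e2]
    refine K.add_mem (hpos _ fun j y => ?_) hu
    simp only [Pi.add_apply, Pi.sub_apply, Pi.smul_apply, hε, smul_eq_mul, mul_one,
      MonoidAlgebra.coeff_add, MonoidAlgebra.coeff_sub, Finsupp.add_apply, Finsupp.sub_apply]
    have h3 := hqj j y
    by_cases hij : j = i
    · subst hij
      rw [Pi.single_eq_same]
      simp only [s, coeff_sc_mul, coeff_gel]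
      split_ifs with hy
      · subst hy
        have := hqn (x j)
        linarith
      · have := le_max_left (-(u j).coeff y) 0
        linarith
    · rw [Pi.single_eq_of_ne hij]
      have := le_max_left (-(u j).coeff y) 0
      simp only [MonoidAlgebra.coeff_zero, Finsupp.coe_zero, Pi.zero_apply, sub_zero]
      linarith
  refine ⟨p, ?_, hmain, ?_⟩
  · rcases hpn.pos_or with h0 | h
    · exfalso
      apply hK.neg_eps
      rw [h0] at hmain
      simpa using hmain
    · exact h
  · intro y hy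
    rw [hp, MonoidAlgebra.coeff_sum, Finsupp.finsetSum_apply] at hy
    obtain ⟨i, -, hi⟩ := Finset.exists_ne_zero_of_sum_ne_zero hy
    have h3 : q.coeff (x i * y) ≠ 0 := by
      intro h0
      apply hi
      simp only [t, mul_assoc, coeff_sc_mul, coeff_gel_mul, inv_inv, h0, mul_zero]
    rw [hq, MonoidAlgebra.coeff_sum, Finsupp.finsetSum_apply] at h3
    obtain ⟨j, -, hj⟩ := Finset.exists_ne_zero_of_sum_ne_zero h3
    rw [coeff_np] at hj
    have h4 : (u j).coeff (x i * y) < 0 := by
      by_contra hc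
      push Not at hc
      exact hj (max_eq_right (by linarith))
    have h5 := h1 j _ h4
    rw [map_mul, toAdd_mul, hx i] at h5
    linarith

end

theorem common_pos {G : Type u} [Group G] {n : ℕ} (hc : CCh n (⊤ : Subgroup G))
    (hD : NoZeroDivisors (RA G))
    (IH : ∀ m < n, ∀ (H : Type u) [Group H], CCh m (⊤ : Subgroup H) →
      NoZeroDivisors (RA H) → OrePlus H)
    (b : RA G) (hb : Pos b) (m : ℕ) (g : Fin m → G) :
    ∃ u : Fin m → RA G, (∀ i, Pos (u i)) ∧
      ∀ i j, u i * (gel (g i) * b * gel (g i)⁻¹) = u j * (gel (g j) * b * gel (g j)⁻¹) := by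
  classical
  by_contra hno
  have : Group.FG G := by
    have := hc.fg
    exact Group.fg_def.2 this
  set c : Fin m → RA G := fun i => gel (g i) * b * gel (g i)⁻¹ with hcdef
  set ε : Fin m → RA G := fun _ => (1 : RA G) with hε
  -- the cone `K₀`
  let K₀ : AddSubmonoid (Fin m → RA G) :=
    { carrier := {v | ∃ u p : Fin m → RA G, (∀ i j, u i * c i = u j * c j) ∧ (∀ i, NN (p i)) ∧
        v = u + p}
      add_mem' := by
        rintro _ _ ⟨u, p, hu, hp, rfl⟩ ⟨u', p', hu', hp', rfl⟩
        refine ⟨u + u', p + p', fun i j => ?_, fun i => (hp i).add (hp' i), by abel⟩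
        simp only [Pi.add_apply, add_mul, hu i j, hu' i j]
      zero_mem' := ⟨0, 0, fun i j => by simp, fun i => nn_zero, by simp⟩ }
  have hK₀ : ∀ v, v ∈ K₀ ↔ ∃ u p : Fin m → RA G, (∀ i j, u i * c i = u j * c j) ∧
      (∀ i, NN (p i)) ∧ v = u + p := fun v => Iff.rfl
  have hposK₀ : ∀ v : Fin m → RA G, (∀ i, NN (v i)) → v ∈ K₀ := fun v hv =>
    (hK₀ v).2 ⟨0, v, fun i j => by simp, hv, by simp⟩
  have hMK₀ : ∀ u : Fin m → RA G, (∀ i j, u i * c i = u j * c j) → u ∈ K₀ := fun u hu =>
    (hK₀ u).2 ⟨u, 0, hu, fun i => nn_zero, by simp⟩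
  have hneg : -ε ∉ K₀ := by
    intro hn
    obtain ⟨u, p, hu, hp, he⟩ := (hK₀ _).1 hn
    apply hno
    refine ⟨-u, fun i => ?_, fun i j => ?_⟩
    · have : (-u) i = 1 + p i := by
        have h1 := congrFun he i
        simp only [Pi.neg_apply, Pi.add_apply, hε] at h1 ⊢
        rw [← neg_inj, neg_neg, neg_add, h1]; abel
      rw [this]
      exact pos_one.add_nn (hp i)
    · simp only [Pi.neg_apply, neg_mul]
      rw [hu i j]
  obtain ⟨K, hKK, hK⟩ := exists_maxCone (G := G) K₀ ε
    (by
      intro a ha v hv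
      obtain ⟨u, p, hu, hp, rfl⟩ := (hK₀ _).1 hv
      refine (hK₀ _).2 ⟨a • u, a • p, fun i j => ?_, fun i => ?_, by rw [smul_add]⟩
      · simp only [Pi.smul_apply, smul_eq_mul, mul_assoc, hu i j]
      · exact ha.nn.mul (hp i))
    (hposK₀ _ fun i => pos_one.nn) hneg
    (by
      intro w
      refine ⟨1 + ∑ i, np (w i), pos_one.add_nn (nn_sum _ _ fun i _ => nn_np _), ?_⟩
      refine hposK₀ _ fun i x => ?_
      have h1 : (np (w i)).coeff x ≤ (∑ i, np (w i)).coeff x := by
        rw [MonoidAlgebra.coeff_sum, Finsupp.finsetSum_apply]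
        exact Finset.single_le_sum (f := fun j => (np (w j)).coeff x)
          (fun i _ => nn_np (w i) x) (Finset.mem_univ i)
      have h2 := (pos_one : Pos (1 : RA G)).2 x
      have h3 := le_max_left (-(w i).coeff x) 0
      rw [coeff_np] at h1
      simp only [Pi.add_apply, Pi.smul_apply, hε, smul_eq_mul, mul_one,
        MonoidAlgebra.coeff_add, Finsupp.add_apply]
      linarith)
  have hM : ∀ u : Fin m → RA G, (∀ i j, u i * c i = u j * c j) → u ∈ K ∧ -u ∈ K := by
    intro u hu
    refine ⟨hKK (hMK₀ u hu), hKK (hMK₀ (-u) fun i j => ?_)⟩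
    simp only [Pi.neg_apply, neg_mul]
    rw [hu i j]
  -- steering
  obtain ⟨N₀, hN₀, hlN₀, hbd⟩ := steer hK (by
    intro l hl
    obtain ⟨m', hm', hcl⟩ := hc.ker l hl
    have hO : OrePlusOn l.ker := OrePlus.on
      (IH m' hm' l.ker hcl.top_of (noZeroDivisors_subgroup _ hD))
    obtain ⟨u, hu, d, hd⟩ := alam hc hD l hO b hb m g
    exact bound_of_relation hK (fun v hv => hKK (hposK₀ v hv)) l u (hM u hu).2 d
      (fun i => (hd i).1) (fun i => (hd i).2))
  -- descent
  obtain ⟨m', -, hcN⟩ := hc.inf N₀ hN₀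
  rw [inf_top_eq] at hcN
  have hbot := bd_bot_of_chain hK hc hcN hlN₀ hbd
  -- Schur
  obtain ⟨χ, hχ, hact⟩ := schur hK hc hbot
  have hev : ∀ f : RA G, Pos f → 0 < ev χ f := by
    intro f hf
    have e1 : ev χ f = ∑ g ∈ f.coeff.support, f.coeff g * χ g := by
      conv_lhs => rw [eq_sum f]
      rw [map_sum]
      refine Finset.sum_congr rfl fun g _ => ?_
      rw [← single_eq]
      simp [ev]
    rw [e1]
    obtain ⟨y, hy⟩ := hf.exists_pos
    exact Finset.sum_pos' (fun x _ => mul_nonneg (hf.2 x) (hχ x).le)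
      ⟨y, by simpa using hy.ne', mul_pos hy (hχ y)⟩
  have hevc : ∀ i, ev χ (c i) = ev χ b := by
    intro i
    have e2 : ∀ x : G, ev χ (gel x) = χ x := by
      intro x
      simp [ev, gel]
    simp only [hcdef, map_mul, e2]
    have h3 : χ (g i) * χ (g i)⁻¹ = 1 := by rw [← map_mul]; simp
    calc χ (g i) * ev χ b * χ (g i)⁻¹ = ev χ b * (χ (g i) * χ (g i)⁻¹) := by ring
      _ = ev χ b := by rw [h3, mul_one]
  obtain ⟨s, hs, hs1⟩ := aint_common hc χ hχ m c (ev χ b) (hev b hb).ne' hevc
  have h5 : s - ε ∈ K := by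
    have e3 : s - ε = ∑ i, (s i - sc (ev χ (s i))) • (Pi.single i (1 : RA G) : Fin m → RA G) := by
      funext j
      simp only [Pi.sub_apply, Finset.sum_apply, Pi.smul_apply, smul_eq_mul, hs1, sc_one]
      rw [Finset.sum_eq_single j]
      · rw [Pi.single_eq_same, mul_one]
      · intro i _ hij
        rw [Pi.single_eq_of_ne (Ne.symm hij)]; simp
      · simp
    rw [e3]
    exact K.sum_mem fun i _ => act_by_character χ hact _ _
  apply hK.neg_eps
  have h6 := K.add_mem (hM s hs).2 h5
  have e4 : -s + (s - ε) = -ε := by abel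
  rwa [e4] at h6

theorem orePlus_of_cch (n : ℕ) : ∀ (G : Type u) [Group G], CCh n (⊤ : Subgroup G) →
    NoZeroDivisors (RA G) → OrePlus G := by
  induction n using Nat.strong_induction_on with
  | _ n ih =>
    intro G _ hc hD
    exact ore_of_common fun b hb m g => common_pos hc hD ih b hb m g

end Bludov
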