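import Pool.Agent.helper77.Bludov.Basic

set_option linter.unusedSectionVars false

/-!
# Assembly of the positive Ore lemma, part 1: reductions and maximal cones
-/

namespace Bludov

universe u v

section reduce
variable {G : Type*} [Group G]

/-- It is enough to find positive common left multiples of conjugates. -/
theorem ore_of_common
    (h : ∀ b : RA G, Pos b → ∀ (m : ℕ) (g : Fin m → G), ∃ u : Fin m → RA G, (∀ i, Pos (u i)) ∧
      ∀ i j, u i * (gel (g i) * b * gel (g i)⁻¹) = u j * (gel (g j) * b * gel (g j)⁻¹)) :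
    OrePlus G := by
  classical
  intro a b ha hb
  set F := a.coeff.support with hF
  let e := F.equivFin
  let g : Fin F.card → G := fun i => ((e.symm i : F) : G)
  obtain ⟨u, hu, huu⟩ := h b hb F.card g
  obtain ⟨x0, hx0⟩ := ha.exists_pos
  have hx0F : x0 ∈ F := by simpa [hF] using hx0.ne'
  let i0 : Fin F.card := e ⟨x0, hx0F⟩
  have hsum : a = ∑ i : Fin F.card, sc (a.coeff (g i)) * gel (g i) := by
    conv_lhs => rw [eq_sum a]
    rw [← hF, ← Finset.sum_coe_sort F (fun x => sc (a.coeff x) * gel x)]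
    exact (Equiv.sum_comp e.symm (fun x : F => sc (a.coeff (x : G)) * gel (x : G))).symm
  refine ⟨u i0 * (gel (g i0) * b * gel (g i0)⁻¹),
    ∑ i : Fin F.card, sc (a.coeff (g i)) * (u i * gel (g i)), ?_, ?_, ?_⟩
  · exact (hu i0).mul (((pos_gel _).mul hb).mul (pos_gel _))
  · refine pos_sum _ _ (fun i _ => (nn_sc (ha.2 _)).mul ((hu i).mul (pos_gel _)).nn) i0
      (Finset.mem_univ _) ?_
    refine (pos_sc ?_).mul ((hu i0).mul (pos_gel _))
    have : g i0 = x0 := by simp [g, i0]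
    rw [this]; exact hx0
  · conv_lhs => rw [hsum]
    rw [Finset.mul_sum, Finset.sum_mul]
    refine Finset.sum_congr rfl fun i _ => ?_
    rw [huu i0 i, ← mul_assoc, ← sc_comm, mul_assoc (sc _), mul_assoc (sc _)]
    congr 1
    rw [mul_assoc (u i), mul_assoc (gel (g i) * b), gel_inv_mul, mul_one]
    noncomm_ring

/-- coefficients under the inclusion of a subgroup -/
theorem coeff_map_subtype (H : Subgroup G) (f : RA H) (x : H) :
    (MonoidAlgebra.mapDomainRingHom ℝ H.subtype f).coeff (x : G) = f.coeff x := by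
  simp only [MonoidAlgebra.mapDomainRingHom_apply, MonoidAlgebra.coeff_mapDomain]
  exact Finsupp.mapDomain_apply (Subgroup.subtype_injective H) _ _

theorem coeff_map_subtype_notMem (H : Subgroup G) (f : RA H) (x : G) (hx : x ∉ H) :
    (MonoidAlgebra.mapDomainRingHom ℝ H.subtype f).coeff x = 0 := by
  simp only [MonoidAlgebra.mapDomainRingHom_apply, MonoidAlgebra.coeff_mapDomain]
  refine Finsupp.mapDomain_of_notMem_range _ _ ?_
  rintro ⟨y, rfl⟩
  exact hx y.2

theorem map_subtype_injective (H : Subgroup G) :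
    Function.Injective (MonoidAlgebra.mapDomainRingHom ℝ H.subtype : RA H → RA G) := by
  intro a b hab
  ext x
  rw [← coeff_map_subtype, hab, coeff_map_subtype]

theorem exists_lift (H : Subgroup G) (f : RA G) (hf : ∀ x, f.coeff x ≠ 0 → x ∈ H) :
    ∃ f' : RA H, MonoidAlgebra.mapDomainRingHom ℝ H.subtype f' = f := by
  classical
  refine ⟨MonoidAlgebra.ofCoeff (f.coeff.comapDomain (fun x : H => (x : G))
    (Set.injOn_of_injective Subtype.val_injective)), ?_⟩
  ext x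
  by_cases hx : x ∈ H
  · have := coeff_map_subtype H (MonoidAlgebra.ofCoeff (f.coeff.comapDomain (fun x : H => (x : G))
      (Set.injOn_of_injective Subtype.val_injective))) ⟨x, hx⟩
    rw [this]
    simp
  · rw [coeff_map_subtype_notMem _ _ _ hx]
    by_contra hne
    exact hx (hf x (Ne.symm hne))

theorem posOn_map (H : Subgroup G) (f : RA H) (hf : Pos f) :
    PosOn (H : Set G) (MonoidAlgebra.mapDomainRingHom ℝ H.subtype f) := by
  refine ⟨⟨?_, fun x => ?_⟩, fun x hx => ?_⟩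
  · intro h0
    exact hf.1 (map_subtype_injective H (by rw [h0, map_zero]))
  · by_cases hx : x ∈ H
    · have := coeff_map_subtype H f ⟨x, hx⟩
      rw [this]; exact hf.2 _
    · rw [coeff_map_subtype_notMem _ _ _ hx]
  · by_contra hx'
    exact hx (coeff_map_subtype_notMem _ _ _ hx')

theorem OrePlus.on {H : Subgroup G} (h : OrePlus H) : OrePlusOn H := by
  intro a b ha hb
  obtain ⟨a', rfl⟩ := exists_lift H a ha.2
  obtain ⟨b', rfl⟩ := exists_lift H b hb.2
  have hpos : ∀ f : RA H, Pos (MonoidAlgebra.mapDomainRingHom ℝ H.subtype f) → Pos f := by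
    intro f hf
    refine ⟨?_, fun x => ?_⟩
    · rintro rfl
      exact hf.1 (map_zero _)
    · rw [← coeff_map_subtype]; exact hf.2 _
  obtain ⟨c, d, hc, hd, he⟩ := h a' b' (hpos _ ha.1) (hpos _ hb.1)
  exact ⟨_, _, posOn_map H c hc, posOn_map H d hd, by rw [← map_mul, he, map_mul]⟩

theorem noZeroDivisors_subgroup (H : Subgroup G) (h : NoZeroDivisors (RA G)) :
    NoZeroDivisors (RA H) := by
  constructor
  intro a b hab
  have h1 : MonoidAlgebra.mapDomainRingHom ℝ H.subtype a *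
      MonoidAlgebra.mapDomainRingHom ℝ H.subtype b = 0 := by
    rw [← map_mul, hab, map_zero]
  rcases mul_eq_zero.1 h1 with h2 | h2
  · exact Or.inl (map_subtype_injective H (by rw [h2, map_zero]))
  · exact Or.inr (map_subtype_injective H (by rw [h2, map_zero]))

end reduce

section zorn
variable {G V : Type*} [Group G] [AddCommGroup V] [Module (RA G) V]

theorem exists_maxCone (K₀ : AddSubmonoid V) (ε : V)
    (h1 : ∀ a : RA G, Pos a → ∀ v ∈ K₀, a • v ∈ K₀) (h2 : ε ∈ K₀) (h3 : -ε ∉ K₀)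
    (h4 : ∀ w : V, ∃ a : RA G, Pos a ∧ a • ε + w ∈ K₀) :
    ∃ K : AddSubmonoid V, K₀ ≤ K ∧ IsMaxCone G K ε := by
  classical
  let 𝒮 : Set (AddSubmonoid V) :=
    {K | K₀ ≤ K ∧ (∀ a : RA G, Pos a → ∀ v ∈ K, a • v ∈ K) ∧ -ε ∉ K}
  have h𝒮 : ∀ K, K ∈ 𝒮 ↔ (K₀ ≤ K ∧ (∀ a : RA G, Pos a → ∀ v ∈ K, a • v ∈ K) ∧ -ε ∉ K) :=
    fun K => Iff.rfl
  have hz : ∃ K, K₀ ≤ K ∧ Maximal (· ∈ 𝒮) K := by
    refine zorn_le_nonempty₀ 𝒮 ?_ K₀ ((h𝒮 _).2 ⟨le_rfl, h1, h3⟩)
    intro c hc hchain y hy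
    have hdir : DirectedOn (· ≤ ·) c := hchain.directedOn
    have hmem : ∀ v, v ∈ sSup c ↔ ∃ K ∈ c, v ∈ K := fun v =>
      AddSubmonoid.mem_sSup_of_directedOn ⟨y, hy⟩ hdir
    refine ⟨sSup c, (h𝒮 _).2 ⟨?_, ?_, ?_⟩, fun z hz => le_sSup hz⟩
    · exact le_trans ((h𝒮 _).1 (hc hy)).1 (le_sSup hy)
    · intro a ha v hv
      obtain ⟨K, hK, hvK⟩ := (hmem v).1 hv
      exact (hmem _).2 ⟨K, hK, ((h𝒮 _).1 (hc hK)).2.1 a ha v hvK⟩
    · intro hn
      obtain ⟨K, hK, hvK⟩ := (hmem _).1 hn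
      exact ((h𝒮 _).1 (hc hK)).2.2 hvK
  obtain ⟨K, hK0, hmax⟩ := hz
  obtain ⟨-, hKs, hKe⟩ := (h𝒮 _).1 hmax.prop
  have hnn : ∀ a : RA G, NN a → ∀ v ∈ K, a • v ∈ K := by
    intro a ha v hv
    rcases ha.pos_or with rfl | ha
    · simp
    · exact hKs a ha v hv
  refine ⟨K, hK0, ⟨hKs, hK0 h2, hKe, ?_, ?_⟩⟩
  · intro w hw
    let K' : AddSubmonoid V :=
      { carrier := {v | ∃ k ∈ K, ∃ a : RA G, NN a ∧ v = k + a • w}
        add_mem' := by
          rintro _ _ ⟨k, hk, a, ha, rfl⟩ ⟨k', hk', a', ha', rfl⟩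
          exact ⟨k + k', K.add_mem hk hk', a + a', ha.add ha', by rw [add_smul]; abel⟩
        zero_mem' := ⟨0, K.zero_mem, 0, nn_zero, by simp⟩ }
    have hK' : ∀ v, v ∈ K' ↔ ∃ k ∈ K, ∃ a : RA G, NN a ∧ v = k + a • w := fun v => Iff.rfl
    have hle : K ≤ K' := fun v hv => (hK' v).2 ⟨v, hv, 0, nn_zero, by simp⟩
    have hwK' : w ∈ K' := (hK' w).2 ⟨0, K.zero_mem, 1, pos_one.nn, by simp⟩
    by_cases hin : K' ∈ 𝒮
    · exact absurd (hmax.le_of_ge hin hle hwK') hw
    · rw [h𝒮] at hin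
      push Not at hin
      have hs : ∀ a : RA G, Pos a → ∀ v ∈ K', a • v ∈ K' := by
        intro a ha v hv
        obtain ⟨k, hk, b, hb, rfl⟩ := (hK' v).1 hv
        exact (hK' _).2 ⟨a • k, hKs a ha k hk, a * b, ha.nn.mul hb, by rw [smul_add, smul_smul]⟩
      obtain ⟨k, hk, a, ha, he⟩ := (hK' _).1 (hin (le_trans hK0 hle) hs)
      rcases ha.pos_or with rfl | ha
      · exact absurd (by rw [he]; simpa using hk) hKe
      · exact ⟨k, hk, a, ha, he⟩
  · intro w
    obtain ⟨a, ha, h⟩ := h4 w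
    exact ⟨a, ha, hK0 h⟩

end zorn

end Bludov
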