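import Pool.Agent.helper77.Bludov.T
import Pool.Agent.helper14.FA.MaxCond

/-!
# RP : finitely generated torsion-free nilpotent groups are residually `p`
-/

namespace Bludov

open Subgroup Pool.Agent.helper14.FA
open scoped commutatorElement

/-- A nilpotent group with max condition, in which `z ≠ 1` has `z ^ p = 1` and lies in every
nontrivial normal subgroup, is a `p`-group. -/
theorem isPGroup_of_mono {H : Type*} [Group H] [Group.IsNilpotent H] (hmax : MaxCond H)
    (p : ℕ) [hp : Fact p.Prime] (z : H) (hz : z ≠ 1) (hzp : z ^ p = 1)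
    (hmono : ∀ L : Subgroup H, L.Normal → L ≠ ⊥ → z ∈ L) : IsPGroup p H := by
  -- central elements
  have hnorm : ∀ c ∈ center H, (zpowers c).Normal := by
    intro c hc
    refine ⟨fun n hn g => ?_⟩
    obtain ⟨k, rfl⟩ := mem_zpowers_iff.1 hn
    have h1 : c ^ k ∈ center H := zpow_mem hc k
    rw [mem_center_iff.1 h1 g, mul_inv_cancel_right]
    exact hn
  have h3 : ∀ c ∈ center H, ∃ a : ℕ, c ^ p ^ a = 1 := by
    intro c hc
    by_cases hc1 : c = 1
    · exact ⟨0, by simp [hc1]⟩
    have hzc := hmono _ (hnorm c hc) (by rwa [Ne, zpowers_eq_bot])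
    obtain ⟨k, hk⟩ := mem_zpowers_iff.1 hzc
    have hk0 : k ≠ 0 := by
      rintro rfl
      exact hz (by simpa using hk.symm)
    have hfin : IsOfFinOrder c := by
      rw [isOfFinOrder_iff_zpow_eq_one]
      refine ⟨k * p, mul_ne_zero hk0 (by exact_mod_cast hp.out.ne_zero), ?_⟩
      rw [zpow_mul, hk, zpow_natCast, hzp]
    have hn0 : orderOf c ≠ 0 := (orderOf_pos_iff.2 hfin).ne'
    obtain ⟨a, b, hb, hab⟩ := Nat.exists_eq_pow_mul_and_not_dvd hn0 p hp.out.ne_one
    refine ⟨a, ?_⟩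
    by_contra hc'
    have hc'c : c ^ p ^ a ∈ center H := pow_mem hc _
    have hzc' := hmono _ (hnorm _ hc'c) (by rwa [Ne, zpowers_eq_bot])
    obtain ⟨l, hl⟩ := mem_zpowers_iff.1 hzc'
    have hzb : z ^ b = 1 := by
      rw [← hl, ← zpow_natCast, ← zpow_mul, mul_comm, zpow_mul, zpow_natCast, ← pow_mul, ← hab,
        pow_orderOf_eq_one, one_zpow]
    have hcop : Nat.Coprime b p := by
      rw [Nat.coprime_comm, Nat.Prime.coprime_iff_not_dvd hp.out]
      exact hb
    have := pow_gcd_eq_one.2 ⟨hzb, hzp⟩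
    rw [hcop.gcd_eq_one, pow_one] at this
    exact hz this
  -- uniform exponent on the center
  obtain ⟨e, he⟩ : ∃ e : ℕ, ∀ c ∈ center H, c ^ p ^ e = 1 := by
    obtain ⟨S, hS⟩ := hmax (center H)
    have hS' : ∀ s ∈ S, s ∈ center H := fun s hs => by
      rw [← hS]; exact Subgroup.subset_closure hs
    choose! a ha using h3
    refine ⟨S.sup a, fun c hc => ?_⟩
    have hc' : c ∈ center H := hc
    rw [← hS] at hc
    have : c ∈ center H ∧ c ^ p ^ (S.sup a) = 1 := by
      clear hc'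
      induction hc using closure_induction with
      | mem x hx =>
        refine ⟨hS' x hx, ?_⟩
        obtain ⟨d, hd⟩ := pow_dvd_pow p (Finset.le_sup (f := a) hx)
        rw [hd, pow_mul, ha x (hS' x hx), one_pow]
      | one => exact ⟨one_mem _, one_pow _⟩
      | mul x y _ _ hx hy =>
        refine ⟨mul_mem hx.1 hy.1, ?_⟩
        have hcom : Commute x y := mem_center_iff.1 hy.1 x
        rw [hcom.mul_pow, hx.2, hy.2, one_mul]
      | inv x _ hx => exact ⟨inv_mem hx.1, by rw [inv_pow, hx.2, inv_one]⟩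
    exact this.2
  -- going up the upper central series
  have h5 : ∀ (i : ℕ) (y : H), y ∈ Subgroup.upperCentralSeries H (i + 1) →
      y ^ p ^ e ∈ Subgroup.upperCentralSeries H i := by
    intro i
    induction i with
    | zero =>
      intro y hy
      rw [zero_add, Subgroup.upperCentralSeries_one] at hy
      rw [Subgroup.upperCentralSeries_zero, mem_bot]
      exact he y hy
    | succ i ih =>
      intro y hy
      rw [Subgroup.mem_upperCentralSeries_succ_iff]
      intro g
      rw [comm_pow_mem_iff i hy g]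
      exact ih _ ((Subgroup.mem_upperCentralSeries_succ_iff.1 hy) g)
  have h6 : ∀ (i : ℕ) (y : H), y ∈ Subgroup.upperCentralSeries H i →
      y ^ p ^ (e * i) = 1 := by
    intro i
    induction i with
    | zero =>
      intro y hy
      rw [Subgroup.upperCentralSeries_zero, mem_bot] at hy
      simp [hy]
    | succ i ih =>
      intro y hy
      have := ih _ (h5 i y hy)
      rwa [← pow_mul, ← pow_add, show e + e * i = e * (i + 1) by ring] at this
  obtain ⟨n, hn⟩ := Group.IsNilpotent.nilpotent H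
  intro y
  exact ⟨e * n, h6 n y (by rw [hn]; exact mem_top y)⟩

/-- central element of infinite order in a nilpotent group with max condition -/
theorem resid_p_central {G : Type*} [Group G] [Group.IsNilpotent G] (hmax : MaxCond G)
    (p : ℕ) [hp : Fact p.Prime] (z : G) (hz : z ∈ center G) (hinf : ∀ n : ℕ, n ≠ 0 → z ^ n ≠ 1) :
    ∃ (N : Subgroup G), N.Normal ∧ z ∉ N ∧ ∀ g : G, ∃ k : ℕ, g ^ p ^ k ∈ N := by
  obtain ⟨K, ⟨hKn, hKp, hKz⟩, hKmax⟩ := hmax.wf.wf.has_min
    {K : Subgroup G | K.Normal ∧ z ^ p ∈ K ∧ z ∉ K} ⟨zpowers (z ^ p), by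
      refine ⟨⟨fun n hn g => ?_⟩, mem_zpowers _, ?_⟩
      · obtain ⟨k, rfl⟩ := mem_zpowers_iff.1 hn
        have h1 : (z ^ p) ^ k ∈ center G := zpow_mem (pow_mem hz p) k
        rw [mem_center_iff.1 h1 g, mul_inv_cancel_right]
        exact hn
      · intro h
        obtain ⟨k, hk⟩ := mem_zpowers_iff.1 h
        have h1 : z ^ ((p : ℤ) * k - 1) = 1 := by
          rw [zpow_sub, zpow_mul, zpow_natCast, hk, zpow_one, mul_inv_cancel]
        have h2 : (p : ℤ) * k - 1 ≠ 0 := by
          intro h3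
          have h4 : (p : ℤ) ∣ 1 := ⟨k, by linarith⟩
          have h5 := Int.le_of_dvd one_pos h4
          have := hp.out.two_le
          omega
        have h3 : z ^ ((p : ℤ) * k - 1).natAbs = 1 := by
          rcases Int.natAbs_eq ((p : ℤ) * k - 1) with h4 | h4
          · rw [h4, zpow_natCast] at h1; exact h1
          · rw [h4, zpow_neg, zpow_natCast, inv_eq_one] at h1; exact h1
        exact hinf _ (by rwa [Ne, Int.natAbs_eq_zero]) h3⟩
  haveI := hKn
  refine ⟨K, hKn, hKz, ?_⟩
  have hP : IsPGroup p (G ⧸ K) := by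
    refine isPGroup_of_mono (hmax.quotient K) p (z : G ⧸ K)
      (fun h => hKz ((QuotientGroup.eq_one_iff z).1 h))
      (by rw [← QuotientGroup.mk_pow, QuotientGroup.eq_one_iff]; exact hKp) ?_
    intro L hL hL'
    by_contra hzL
    have hcom : (L.comap (QuotientGroup.mk' K)).Normal := hL.comap _
    have hKL : K ≤ L.comap (QuotientGroup.mk' K) := by
      intro x hx
      rw [mem_comap]
      have : QuotientGroup.mk' K x = 1 := (QuotientGroup.eq_one_iff x).2 hx
      rw [this]
      exact one_mem _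
    refine hKmax (L.comap (QuotientGroup.mk' K)) ⟨hcom, hKL hKp, hzL⟩ ?_
    refine lt_of_le_of_ne hKL fun h => hL' ?_
    rw [eq_bot_iff]
    intro x hx
    obtain ⟨y, rfl⟩ := QuotientGroup.mk_surjective x
    have hy : y ∈ L.comap (QuotientGroup.mk' K) := hx
    rw [← h] at hy
    exact (QuotientGroup.eq_one_iff y).2 hy
  intro g
  obtain ⟨k, hk⟩ := hP (g : G ⧸ K)
  exact ⟨k, by rwa [← QuotientGroup.mk_pow, QuotientGroup.eq_one_iff] at hk⟩

theorem resid_p' {G : Type*} [Group G] [Group.FG G] [Group.IsNilpotent G] (h : TorFree G)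
    (p : ℕ) [Fact p.Prime] (z : G) (hz : z ≠ 1) :
    ∃ (N : Subgroup G), N.Normal ∧ z ∉ N ∧ ∀ g : G, ∃ k : ℕ, g ^ p ^ k ∈ N := by
  obtain ⟨n, hn⟩ := Group.IsNilpotent.nilpotent G
  have hex : ∃ i, z ∈ Subgroup.upperCentralSeries G i := ⟨n, by rw [hn]; exact mem_top z⟩
  classical
  obtain ⟨i, hi⟩ : ∃ i, Nat.find hex = i + 1 := by
    refine ⟨Nat.find hex - 1, ?_⟩
    have : Nat.find hex ≠ 0 := by
      intro h0
      have := Nat.find_spec hex
      rw [h0, Subgroup.upperCentralSeries_zero, mem_bot] at this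
      exact hz this
    omega
  have hz1 : z ∈ Subgroup.upperCentralSeries G (i + 1) := by
    rw [← hi]; exact Nat.find_spec hex
  have hz0 : z ∉ Subgroup.upperCentralSeries G i := Nat.find_min hex (by omega)
  set Z := Subgroup.upperCentralSeries G i with hZ
  have hmax := maxCond_of_nilpotent G inferInstance
  have hcen : (z : G ⧸ Z) ∈ center (G ⧸ Z) := by
    rw [mem_center_iff]
    intro x
    obtain ⟨g, rfl⟩ := QuotientGroup.mk_surjective x
    have h1 : ⁅z, g⁆ ∈ Z := (Subgroup.mem_upperCentralSeries_succ_iff.1 hz1) g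
    have h2 := (QuotientGroup.eq_one_iff _).2 h1
    have h3 : ⁅(z : G ⧸ Z), (g : G ⧸ Z)⁆ = 1 := h2
    rw [commutatorElement_eq_one_iff_mul_comm] at h3
    exact h3.symm
  have hinf : ∀ n : ℕ, n ≠ 0 → (z : G ⧸ Z) ^ n ≠ 1 := by
    intro n hn0 h1
    rw [← QuotientGroup.mk_pow, QuotientGroup.eq_one_iff] at h1
    exact hz0 (mem_of_pow_mem n (fun x hx => h x n hn0 hx) i z hz1 h1)
  obtain ⟨N, hNn, hNz, hN⟩ := resid_p_central (hmax.quotient Z) p (z : G ⧸ Z) hcen hinf
  refine ⟨N.comap (QuotientGroup.mk' Z), hNn.comap _, hNz, fun g => ?_⟩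
  obtain ⟨k, hk⟩ := hN (g : G ⧸ Z)
  exact ⟨k, hk⟩

theorem resid_p {G : Type*} [Group G] [Group.FG G] [Group.IsNilpotent G] (h : TorFree G)
    (p : ℕ) [Fact p.Prime] (z : G) (hz : z ≠ 1) :
    ∃ (N : Subgroup G) (_ : N.Normal), z ∉ N ∧ IsPGroup p (G ⧸ N) := by
  obtain ⟨N, hNn, hNz, hN⟩ := resid_p' h p z hz
  refine ⟨N, hNn, hNz, fun x => ?_⟩
  obtain ⟨g, rfl⟩ := QuotientGroup.mk_surjective x
  obtain ⟨k, hk⟩ := hN g
  exact ⟨k, by rw [← QuotientGroup.mk_pow, QuotientGroup.eq_one_iff]; exact hk⟩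

end Bludov
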