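import Pool.Agent.helper77.Bludov.Basic

/-!
# T : torsion-free nilpotent groups (center quotient, bi-orders)
-/

namespace Bludov

open Subgroup
open scoped commutatorElement

theorem conj_pow_of_comm {H : Type*} [Group H] {a g c : H} (h : ⁅a, g⁆ = c) (hc : a * c = c * a)
    (n : ℕ) : ⁅a ^ n, g⁆ = c ^ n := by
  have h1 : ∀ n : ℕ, a ^ n * g * (a ^ n)⁻¹ = c ^ n * g := by
    intro n
    induction n with
    | zero => simp
    | succ n ih =>
      have h2 : a * g * a⁻¹ = c * g := by rw [← h, commutatorElement_def]; group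
      have h3 : a * c ^ n = c ^ n * a := (Commute.pow_right (show Commute a c from hc) n).eq
      calc a ^ (n + 1) * g * (a ^ (n + 1))⁻¹ = a * (a ^ n * g * (a ^ n)⁻¹) * a⁻¹ := by
            rw [pow_succ']; group
        _ = a * (c ^ n * g) * a⁻¹ := by rw [ih]
        _ = (a * c ^ n) * g * a⁻¹ := by group
        _ = c ^ n * (a * g * a⁻¹) := by rw [h3]; group
        _ = c ^ (n + 1) * g := by rw [h2, pow_succ]; group
  rw [commutatorElement_def, h1 n]
  group

/-- modulo `Z_i`, `[x ^ n, g] = [x, g] ^ n` for `x ∈ Z_{i+2}` -/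
theorem comm_pow_mem_iff {G : Type*} [Group G] (i : ℕ) {x : G}
    (hx : x ∈ Subgroup.upperCentralSeries G (i + 2)) (g : G) (n : ℕ) :
    ⁅x ^ n, g⁆ ∈ Subgroup.upperCentralSeries G i ↔ ⁅x, g⁆ ^ n ∈ Subgroup.upperCentralSeries G i := by
  have hc : ⁅x, g⁆ ∈ Subgroup.upperCentralSeries G (i + 1) := (Subgroup.mem_upperCentralSeries_succ_iff.1 hx) g
  have hc2 := (Subgroup.mem_upperCentralSeries_succ_iff.1 hc) x
  set π := QuotientGroup.mk' (Subgroup.upperCentralSeries G i) with hπ
  have hk : ∀ y, y ∈ Subgroup.upperCentralSeries G i ↔ π y = 1 := by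
    intro y
    rw [hπ, ← MonoidHom.mem_ker, QuotientGroup.ker_mk']
  have h1 : ⁅π x, π g⁆ = π ⁅x, g⁆ := (map_commutatorElement π x g).symm
  have h2 : π x * π ⁅x, g⁆ = π ⁅x, g⁆ * π x := by
    have h3 := (hk _).1 hc2
    rw [map_commutatorElement, commutatorElement_eq_one_iff_mul_comm] at h3
    exact h3.symm
  have h3 := conj_pow_of_comm h1 h2 n
  rw [hk, hk, map_commutatorElement, map_pow, map_pow, h3]

theorem mem_of_pow_mem {G : Type*} [Group G] (m : ℕ)
    (hm : ∀ x : G, x ^ m = 1 → x = 1) : ∀ (i : ℕ) (x : G), x ∈ Subgroup.upperCentralSeries G (i + 1) →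
      x ^ m ∈ Subgroup.upperCentralSeries G i → x ∈ Subgroup.upperCentralSeries G i := by
  intro i
  induction i with
  | zero =>
    intro x _ hx
    rw [Subgroup.upperCentralSeries_zero, mem_bot] at hx ⊢
    exact hm x hx
  | succ i ih =>
    intro x hx hxm
    rw [Subgroup.mem_upperCentralSeries_succ_iff] at hxm ⊢
    intro g
    apply ih
    · exact (Subgroup.mem_upperCentralSeries_succ_iff.1 hx) g
    · exact (comm_pow_mem_iff i hx g m).1 (hxm g)

/-- T1: `m` is a set of exponents; no `m`-torsion modulo the center -/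
theorem pow_mem_center {G : Type*} [Group G] [Group.IsNilpotent G] (m : ℕ)
    (hm : ∀ x : G, x ^ m = 1 → x = 1) (x : G) (hx : x ^ m ∈ Subgroup.center G) :
    x ∈ Subgroup.center G := by
  obtain ⟨n, hn⟩ := Group.IsNilpotent.nilpotent G
  rw [← Subgroup.upperCentralSeries_one] at hx ⊢
  have key : ∀ j, x ∈ Subgroup.upperCentralSeries G (j + 1) → x ∈ Subgroup.upperCentralSeries G 1 := by
    intro j
    induction j with
    | zero => exact fun h => h
    | succ j ih =>
      intro h
      apply ih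
      apply mem_of_pow_mem m hm _ _ h
      exact Subgroup.upperCentralSeries_mono G (by omega) hx
  apply key n
  apply Subgroup.upperCentralSeries_mono G (Nat.le_succ n)
  rw [hn]; exact mem_top x

theorem comm_isBO (A : Type*) [CommGroup A] (h : TorFree A) : ∃ P : Set A, IsBO P := by
  obtain ⟨P, hP⟩ := zorn_subset {P : Set A | (1 : A) ∉ P ∧ ∀ a ∈ P, ∀ b ∈ P, a * b ∈ P} (by
    intro c hc hchain
    refine ⟨⋃₀ c, ⟨?_, ?_⟩, fun s hs => Set.subset_sUnion_of_mem hs⟩
    · rintro ⟨s, hs, h1⟩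
      exact (hc hs).1 h1
    · rintro a ⟨s, hs, ha⟩ b ⟨t, ht, hb⟩
      rcases hchain.total hs ht with hst | hst
      · exact ⟨t, ht, (hc ht).2 a (hst ha) b hb⟩
      · exact ⟨s, hs, (hc hs).2 a ha b (hst hb)⟩)
  obtain ⟨⟨h1, hmul⟩, hmax⟩ := hP
  have hpow : ∀ a ∈ P, ∀ n : ℕ, a ^ (n + 1) ∈ P := by
    intro a ha n
    induction n with
    | zero => simpa using ha
    | succ n ih => rw [pow_succ]; exact hmul _ ih _ ha
  -- key: if a ∉ P, a ≠ 1 then some (a⁻¹)^(n+1) ∈ P
  have key : ∀ a : A, a ∉ P → a ≠ 1 → ∃ n : ℕ, (a⁻¹) ^ (n + 1) ∈ P := by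
    intro a ha ha1
    by_contra hcon
    push Not at hcon
    set P' : Set A := P ∪ {x | ∃ n : ℕ, x = a ^ (n + 1)} ∪ {x | ∃ n : ℕ, ∃ q ∈ P, x = q * a ^ (n + 1)}
      with hP'
    have hsub : P ⊆ P' := fun x hx => Or.inl (Or.inl hx)
    have hmem : P' ∈ {P : Set A | (1 : A) ∉ P ∧ ∀ a ∈ P, ∀ b ∈ P, a * b ∈ P} := by
      refine ⟨?_, ?_⟩
      · rintro ((h2 | ⟨n, h2⟩) | ⟨n, q, hq, h2⟩)
        · exact h1 h2
        · exact ha1 (h a (n + 1) (by omega) h2.symm)
        · apply hcon n
          have : (a⁻¹) ^ (n + 1) = q := by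
            rw [inv_pow]
            exact (eq_inv_of_mul_eq_one_left h2.symm).symm
          rw [this]; exact hq
      · rintro x ((hx | ⟨n, rfl⟩) | ⟨n, q, hq, rfl⟩) y ((hy | ⟨k, rfl⟩) | ⟨k, r, hr, rfl⟩)
        · exact Or.inl (Or.inl (hmul x hx y hy))
        · exact Or.inr ⟨k, x, hx, rfl⟩
        · exact Or.inr ⟨k, x * r, hmul x hx r hr, by rw [mul_assoc]⟩
        · exact Or.inr ⟨n, y, hy, by rw [mul_comm]⟩
        · exact Or.inl (Or.inr ⟨n + k + 1, by rw [← pow_add]; congr 1; ring⟩)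
        · exact Or.inr ⟨n + k + 1, r, hr, by
            rw [mul_left_comm, ← pow_add]; congr 2; ring⟩
        · exact Or.inr ⟨n, q * y, hmul q hq y hy, by rw [mul_right_comm]⟩
        · exact Or.inr ⟨n + k + 1, q, hq, by rw [mul_assoc, ← pow_add]; congr 2; ring⟩
        · exact Or.inr ⟨n + k + 1, q * r, hmul q hq r hr, by
            rw [mul_mul_mul_comm, ← pow_add]; congr 2; ring⟩
    have := hmax hmem hsub (Or.inl (Or.inr ⟨0, by simp⟩) : a ∈ P')
    exact ha this
  refine ⟨P, h1, hmul, fun a ha g => ?_, ?_⟩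
  · rwa [mul_comm g a, mul_inv_cancel_right]
  · intro a ha1
    by_contra hcon
    push Not at hcon
    obtain ⟨n, hn⟩ := key a hcon.1 ha1
    obtain ⟨k, hk⟩ := key a⁻¹ hcon.2 (by simpa using ha1)
    rw [inv_inv] at hk
    have h3 := hpow _ hn k
    have h4 := hpow _ hk n
    have h5 := hmul _ h3 _ h4
    apply h1
    have : ((a⁻¹) ^ (n + 1)) ^ (k + 1) * (a ^ (k + 1)) ^ (n + 1) = 1 := by
      rw [← pow_mul, ← pow_mul, mul_comm (k + 1) (n + 1), inv_pow, inv_mul_cancel]
    rwa [this] at h5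

/-- T2 -/
theorem exists_isBO {G : Type*} [Group G] [Group.IsNilpotent G] (h : TorFree G) :
    ∃ P : Set G, IsBO P := by
  revert h
  refine Group.nilpotent_center_quotient_ind
    (P := fun (G : Type _) _ _ => TorFree G → ∃ P : Set G, IsBO P) G ?_ ?_
  · intro G _ _ _
    refine ⟨∅, by simp, by simp, by simp, fun a ha => absurd (Subsingleton.elim a 1) ha⟩
  · intro G _ _ ih h
    have hQ : TorFree (G ⧸ center G) := by
      intro x n hn hx
      obtain ⟨g, rfl⟩ := QuotientGroup.mk_surjective x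
      rw [← QuotientGroup.mk_pow, QuotientGroup.eq_one_iff] at hx
      rw [QuotientGroup.eq_one_iff]
      exact pow_mem_center n (fun x hx => h x n hn hx) g hx
    obtain ⟨P₁, h₁⟩ := ih hQ
    have hC : TorFree (center G) := by
      intro x n hn hx
      apply Subtype.ext
      apply h _ n hn
      have := congrArg Subtype.val hx
      simpa using this
    have hC' : ∃ P : Set (center G), IsBO P := by
      letI : CommGroup (center G) := { (inferInstance : Group (center G)) with
        mul_comm := fun a b => Subtype.ext (mem_center_iff.1 b.2 a) }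
      exact comm_isBO (center G) hC
    obtain ⟨P₀, h₀⟩ := hC'
    refine ⟨{g | (g : G ⧸ center G) ∈ P₁} ∪ {g | ∃ hg : g ∈ center G, (⟨g, hg⟩ : center G) ∈ P₀},
      ?_, ?_, ?_, ?_⟩
    · rintro (h2 | ⟨hg, h2⟩)
      · exact h₁.one h2
      · exact h₀.one h2
    · rintro a (ha | ⟨ha', ha⟩) b (hb | ⟨hb', hb⟩)
      · exact Or.inl (h₁.mul _ ha _ hb)
      · left
        change ((a * b : G) : G ⧸ center G) ∈ P₁
        rw [QuotientGroup.mk_mul, (QuotientGroup.eq_one_iff b).2 hb', mul_one]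
        exact ha
      · left
        change ((a * b : G) : G ⧸ center G) ∈ P₁
        rw [QuotientGroup.mk_mul, (QuotientGroup.eq_one_iff a).2 ha', one_mul]
        exact hb
      · exact Or.inr ⟨mul_mem ha' hb', h₀.mul _ ha _ hb⟩
    · rintro a (ha | ⟨ha', ha⟩) g
      · exact Or.inl (h₁.conj _ ha (g : G ⧸ center G))
      · right
        have : g * a * g⁻¹ = a := by
          rw [mem_center_iff.1 ha' g, mul_inv_cancel_right]
        rw [this]
        exact ⟨ha', ha⟩
    · intro a ha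
      by_cases hac : a ∈ center G
      · have hne : (⟨a, hac⟩ : center G) ≠ 1 := fun h2 => ha (congrArg Subtype.val h2)
        rcases h₀.tri _ hne with h2 | h2
        · exact Or.inl (Or.inr ⟨hac, h2⟩)
        · exact Or.inr (Or.inr ⟨inv_mem hac, h2⟩)
      · have hne : (a : G ⧸ center G) ≠ 1 := fun h2 => hac ((QuotientGroup.eq_one_iff a).1 h2)
        rcases h₁.tri _ hne with h2 | h2
        · exact Or.inl (Or.inl h2)
        · exact Or.inr (Or.inl h2)

end Bludov
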